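import Pool.Agent.Work.MP_a2fcf1_an_sp.Interface

/-! Block BAN: the contraction principle in weighted form. -/

open MeasureTheory Set Filter
open scoped ContDiff Topology

noncomputable section

namespace Pool.SQW

theorem p_BAN : S_BAN := by
  intro W Adm T R hR hW h0 hT hbd hlip hcl
  let u : ℕ → ℝ × ℝ → ℝ → ℂ := fun k => T^[k] (fun _ _ => 0)
  have hu0 : u 0 = fun _ _ => 0 := rfl
  have hus : ∀ k, u (k + 1) = T (u k) := fun k => Function.iterate_succ_apply' T k _
  have hadm : ∀ k, Adm (u k) := by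
    intro k
    induction k with
    | zero => exact h0
    | succ k ih =>
      rw [hus]
      exact hT _ ih
  have hstep : ∀ k, ∀ ξ t, 0 ≤ t → ‖u (k + 1) ξ t - u k ξ t‖ ≤ R * (1 / 2) ^ k * W ξ t := by
    intro k
    induction k with
    | zero =>
      intro ξ t ht
      have h1 := hbd (u 1) (hadm 1) ξ t ht
      simpa [hu0] using h1
    | succ k ih =>
      intro ξ t ht
      rw [hus (k + 1), hus k]
      have h1 := hlip (u (k + 1)) (u k) (R * (1 / 2) ^ k) (hadm (k + 1)) (hadm k)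
        (by positivity) ih ξ t ht
      rw [hus k] at h1
      refine h1.trans (le_of_eq ?_)
      rw [pow_succ]
      ring
  have hdist : ∀ ξ t, 0 ≤ t → ∀ k, dist (u k ξ t) (u (k + 1) ξ t) ≤ (R * W ξ t) * (1 / 2) ^ k := by
    intro ξ t ht k
    rw [dist_comm, dist_eq_norm]
    refine (hstep k ξ t ht).trans (le_of_eq ?_)
    ring
  have hlim : ∀ ξ t, ∃ z : ℂ, 0 ≤ t → Tendsto (fun k => u k ξ t) atTop (𝓝 z) := by
    intro ξ t
    by_cases ht : 0 ≤ t
    · obtain ⟨z, hz⟩ := cauchySeq_tendsto_of_complete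
        (cauchySeq_of_le_geometric (1 / 2) (R * W ξ t) (by norm_num) (hdist ξ t ht))
      exact ⟨z, fun _ => hz⟩
    · exact ⟨0, fun h => absurd h ht⟩
  choose b hb using hlim
  have hrate : ∀ k ξ t, 0 ≤ t → ‖u k ξ t - b ξ t‖ ≤ 2 * R * (1 / 2) ^ k * W ξ t := by
    intro k ξ t ht
    have h1 := dist_le_of_le_geometric_of_tendsto (1 / 2) (R * W ξ t) (by norm_num)
      (hdist ξ t ht) (hb ξ t ht) k
    rw [dist_eq_norm] at h1
    refine h1.trans (le_of_eq ?_)
    ring
  have hAb : Adm b := hcl u b hadm hrate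
  refine ⟨b, hAb, fun ξ t ht => ?_⟩
  have hT1 : Tendsto (fun k => u (k + 1) ξ t) atTop (𝓝 (T b ξ t)) := by
    rw [tendsto_iff_norm_sub_tendsto_zero]
    have h2 : ∀ k, ‖u (k + 1) ξ t - T b ξ t‖ ≤ (2 * R * W ξ t) * (1 / 2) ^ k := by
      intro k
      rw [hus]
      have h3 := hlip (u k) b (2 * R * (1 / 2) ^ k) (hadm k) hAb (by positivity)
        (fun ξ t ht => hrate k ξ t ht) ξ t ht
      refine h3.trans ?_
      have h4 : 0 ≤ R * (1 / 2) ^ k * W ξ t := mul_nonneg (by positivity) (hW ξ t)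
      nlinarith
    have h5 : Tendsto (fun k : ℕ => (2 * R * W ξ t) * (1 / 2 : ℝ) ^ k) atTop (𝓝 0) := by
      have := (tendsto_pow_atTop_nhds_zero_of_lt_one (r := (1 / 2 : ℝ)) (by norm_num)
        (by norm_num)).const_mul (2 * R * W ξ t)
      rwa [mul_zero] at this
    exact squeeze_zero (fun k => norm_nonneg _) h2 h5
  have hT2 : Tendsto (fun k => u (k + 1) ξ t) atTop (𝓝 (b ξ t)) :=
    (hb ξ t ht).comp (tendsto_add_atTop_nat 1)
  exact tendsto_nhds_unique hT1 hT2

end Pool.SQW
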