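import Pool.Agent.Work.MP_a2fcf1_an_sp.Interface

/-!
# Block CLO: limits of admissible families are admissible
-/

open MeasureTheory Set Filter Topology

namespace Pool.SQW

theorem clo_tendsto {P : Par} {M : ℝ} {u : ℕ → ℝ × ℝ → ℝ → ℂ} {b : ℝ × ℝ → ℝ → ℂ}
    (h : ∀ k ξ t, 0 ≤ t → ‖u k ξ t - b ξ t‖ ≤ M * (1 / 2) ^ k * P.W ξ t) (ξ : ℝ × ℝ) {t : ℝ}
    (ht : 0 ≤ t) : Tendsto (fun k => u k ξ t) atTop (𝓝 (b ξ t)) := by
  rw [tendsto_iff_norm_sub_tendsto_zero]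
  have h0 : Tendsto (fun k : ℕ => M * (1 / 2 : ℝ) ^ k * P.W ξ t) atTop (𝓝 (M * 0 * P.W ξ t)) :=
    ((tendsto_pow_atTop_nhds_zero_of_lt_one (by norm_num) (by norm_num)).const_mul M).mul_const _
  rw [mul_zero, zero_mul] at h0
  exact squeeze_zero (fun k => norm_nonneg _) (fun k => h k ξ t ht) h0

theorem p_CLO (h1 : S_WDC) : S_CLO := by
  intro P hP R M u b hR hM hu hub
  obtain ⟨C, ε, hε, hC, hW⟩ := h1 P hP
  have hlim : ∀ ξ t, 0 ≤ t → Tendsto (fun k => u k ξ t) atTop (𝓝 (b ξ t)) :=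
    fun ξ t ht => clo_tendsto hub ξ ht
  have hbd : ∀ ξ t, 0 ≤ t → ‖b ξ t‖ ≤ R * P.W ξ t := by
    intro ξ t ht
    exact le_of_tendsto' (hlim ξ t ht).norm (fun k => (hu k).2.2 ξ t ht)
  refine ⟨⟨⟨R * C, ε, hε, mul_nonneg hR hC, ?_⟩, ?_, ?_⟩, ?_, hbd⟩
  · intro ξ t ht
    calc ‖b ξ t‖ ≤ R * P.W ξ t := hbd ξ t ht
      _ ≤ R * (C * Real.exp (-(ε * l1 ξ))) := mul_le_mul_of_nonneg_left (hW ξ t ht) hR
      _ = R * C * Real.exp (-(ε * l1 ξ)) := by ring
  · intro t ht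
    refine measurable_of_tendsto_metrizable (f := fun k => fun ξ => u k ξ t)
      (fun k => (hu k).1.2.1 t ht) ?_
    rw [tendsto_pi_nhds]
    intro ξ
    exact hlim ξ t ht
  · intro ξ
    have hun : TendstoUniformlyOn (fun k => u k ξ) (b ξ) atTop (Ici 0) := by
      rw [Metric.tendstoUniformlyOn_iff]
      intro e he
      have h0 : Tendsto (fun k : ℕ => M * (1 / 2 : ℝ) ^ k * (C * Real.exp (-(ε * l1 ξ)))) atTop
          (𝓝 (M * 0 * (C * Real.exp (-(ε * l1 ξ))))) :=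
        ((tendsto_pow_atTop_nhds_zero_of_lt_one (by norm_num)
          (by norm_num)).const_mul M).mul_const _
      rw [mul_zero, zero_mul] at h0
      filter_upwards [h0.eventually (gt_mem_nhds he)] with k hk t ht
      rw [dist_comm, dist_eq_norm]
      refine lt_of_le_of_lt (hub k ξ t ht) (lt_of_le_of_lt ?_ hk)
      exact mul_le_mul_of_nonneg_left (hW ξ t ht) (by positivity)
    exact hun.continuousOn (Frequently.of_forall fun k => (hu k).1.2.2 ξ)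
  · intro ξ t ht
    have e1 := hlim (-ξ) t ht
    have e2 : Tendsto (fun k => (starRingEnd ℂ) (u k ξ t)) atTop
        (𝓝 ((starRingEnd ℂ) (b ξ t))) :=
      (Complex.continuous_conj.tendsto _).comp (hlim ξ t ht)
    have e3 : (fun k => u k (-ξ) t) = fun k => (starRingEnd ℂ) (u k ξ t) := by
      funext k
      exact (hu k).2.1 ξ t ht
    rw [e3] at e1
    exact tendsto_nhds_unique e1 e2

end Pool.SQW
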