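import Pool.Agent.Work.MP_a2fcf1_an_sp.Interface

/-!
# Supercritical SQG on the plane: block CO0
-/

open MeasureTheory Set Filter

namespace Pool.SQW

theorem CO0_meas (k : ℝ × ℝ → ℝ × ℝ → ℝ) (b c : ℝ × ℝ → ℂ)
    (hk : Measurable fun p : (ℝ × ℝ) × (ℝ × ℝ) => k p.1 p.2) (hb : Measurable b)
    (hc : Measurable c) : Measurable fun p : (ℝ × ℝ) × (ℝ × ℝ) =>
      ((k p.2 (p.1 - p.2) : ℝ) : ℂ) * (b p.2 * c (p.1 - p.2)) := by
  have h1 : Measurable fun p : (ℝ × ℝ) × (ℝ × ℝ) => k p.2 (p.1 - p.2) :=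
    hk.comp (measurable_snd.prodMk (measurable_fst.sub measurable_snd))
  have h2 : Measurable fun p : (ℝ × ℝ) × (ℝ × ℝ) => ((k p.2 (p.1 - p.2) : ℝ) : ℂ) :=
    Complex.measurable_ofReal.comp h1
  exact h2.mul ((hb.comp measurable_snd).mul (hc.comp (measurable_fst.sub measurable_snd)))

/-- block CO0 -/
theorem p_CO0 (h1 : S_CVB) (h2 : S_IEX) : S_CO0 := by
  intro k b c hk hb hc
  obtain ⟨C, ε, hε, hC, hbd⟩ := h1 k b c hk hb.1 hc.1
  have hI : Integrable fun y : ℝ × ℝ => Real.exp (-(ε * l1 y)) := h2 ε hε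
  refine ⟨?_, ?_, ?_⟩
  · refine ⟨C * ∫ y : ℝ × ℝ, Real.exp (-(ε * l1 y)), ε, hε,
      mul_nonneg hC (integral_nonneg fun y => (Real.exp_pos _).le), ?_⟩
    intro ξ t ht
    have h3 := norm_integral_le_of_norm_le (hI.const_mul (C * Real.exp (-(ε * l1 ξ))))
      (Eventually.of_forall fun η => hbd ξ η t ht)
    rw [integral_const_mul] at h3
    calc ‖cnv k b c ξ t‖ ≤ C * Real.exp (-(ε * l1 ξ)) * ∫ y : ℝ × ℝ, Real.exp (-(ε * l1 y)) := h3
      _ = C * (∫ y : ℝ × ℝ, Real.exp (-(ε * l1 y))) * Real.exp (-(ε * l1 ξ)) := by ring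
  · intro t ht
    have h3 : StronglyMeasurable (Function.uncurry fun (ξ η : ℝ × ℝ) =>
        ((k η (ξ - η) : ℝ) : ℂ) * (b η t * c (ξ - η) t)) :=
      (CO0_meas k (fun η => b η t) (fun η => c η t) hk.1 (hb.2.1 t ht)
        (hc.2.1 t ht)).stronglyMeasurable
    exact h3.integral_prod_right.measurable
  · intro ξ
    have h4 : ContinuousOn (fun t : ℝ => ∫ η : ℝ × ℝ,
        ((k η (ξ - η) : ℝ) : ℂ) * (b η t * c (ξ - η) t)) (Ici 0) := by
      refine continuousOn_of_dominated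
        (bound := fun η => C * Real.exp (-(ε * l1 ξ)) * Real.exp (-(ε * l1 η))) ?_ ?_
        (hI.const_mul _) ?_
      · intro t ht
        have h5 := (CO0_meas k (fun η => b η t) (fun η => c η t) hk.1 (hb.2.1 t ht)
          (hc.2.1 t ht)).comp (measurable_const.prodMk measurable_id : Measurable
            fun η : ℝ × ℝ => (ξ, η))
        exact h5.aestronglyMeasurable
      · intro t ht
        exact Eventually.of_forall fun η => hbd ξ η t ht
      · refine Eventually.of_forall fun η => ?_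
        exact continuousOn_const.mul ((hb.2.2 η).mul (hc.2.2 (ξ - η)))
    exact h4

end Pool.SQW
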