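import Pool.Agent.Work.MP_a2fcf1_an_sp.Interface

set_option autoImplicit false

open MeasureTheory Set Filter
open Pool.Agent.Work.MP_a2fcf1_an_h64 (lf)
open scoped ContDiff

namespace Pool.SQW

theorem CVB_lin (e x : ℝ) (he : 0 < e) (hx : 0 ≤ x) :
    1 + x ≤ (1 + 2 / e) * Real.exp (e / 2 * x) := by
  have h1 : e / 2 * x + 1 ≤ Real.exp (e / 2 * x) := Real.add_one_le_exp _
  have hK : 0 ≤ 1 + 2 / e := by positivity
  have h2 : (1 + 2 / e) * (e / 2 * x + 1) ≤ (1 + 2 / e) * Real.exp (e / 2 * x) :=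
    mul_le_mul_of_nonneg_left h1 hK
  have h3 : (1 + 2 / e) * (e / 2 * x + 1) = 1 + x + (e / 2 * x + 2 / e) := by
    field_simp
    ring
  have h4 : 0 ≤ e / 2 * x + 2 / e := by positivity
  linarith

theorem CVB_mono (a e x : ℝ) (ha : e ≤ a) (hx : 0 ≤ x) :
    Real.exp (-(a * x)) ≤ Real.exp (-(e * x)) := by
  apply Real.exp_le_exp.mpr
  have := mul_le_mul_of_nonneg_right ha hx
  linarith

theorem CVB_num (e M C1 C2 K x y z k b c : ℝ) (he : 0 < e) (hM : 0 ≤ M) (hC1 : 0 ≤ C1)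
    (hC2 : 0 ≤ C2) (hK : 0 ≤ K) (hx : 0 ≤ x) (hy : 0 ≤ y) (hz : z ≤ x + y) (hb0 : 0 ≤ b)
    (hc0 : 0 ≤ c) (hk : k ≤ M * ((1 + x) * (1 + y))) (hb : b ≤ C1 * Real.exp (-(e * x)))
    (hc : c ≤ C2 * Real.exp (-(e * y))) (h1 : 1 + x ≤ K * Real.exp (e / 2 * x))
    (h2 : 1 + y ≤ K * Real.exp (e / 2 * y)) :
    k * (b * c) ≤ M * (K * K) * (C1 * C2) * Real.exp (-(e / 4 * z)) * Real.exp (-(e / 4 * x)) := by
  have hx1 : 0 ≤ 1 + x := by linarith
  have hy1 : 0 ≤ 1 + y := by linarith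
  have s1 : (1 + x) * (1 + y) ≤ (K * Real.exp (e / 2 * x)) * (K * Real.exp (e / 2 * y)) :=
    mul_le_mul h1 h2 hy1 (le_trans hx1 h1)
  have s2 : k ≤ M * ((K * Real.exp (e / 2 * x)) * (K * Real.exp (e / 2 * y))) :=
    le_trans hk (mul_le_mul_of_nonneg_left s1 hM)
  have s3 : b * c ≤ (C1 * Real.exp (-(e * x))) * (C2 * Real.exp (-(e * y))) :=
    mul_le_mul hb hc hc0 (le_trans hb0 hb)
  have s0 : 0 ≤ M * ((K * Real.exp (e / 2 * x)) * (K * Real.exp (e / 2 * y))) := by positivity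
  have s4 : k * (b * c) ≤ M * ((K * Real.exp (e / 2 * x)) * (K * Real.exp (e / 2 * y))) *
      ((C1 * Real.exp (-(e * x))) * (C2 * Real.exp (-(e * y)))) :=
    mul_le_mul s2 s3 (mul_nonneg hb0 hc0) s0
  have s5 : M * ((K * Real.exp (e / 2 * x)) * (K * Real.exp (e / 2 * y))) *
      ((C1 * Real.exp (-(e * x))) * (C2 * Real.exp (-(e * y)))) =
      M * (K * K) * (C1 * C2) * (Real.exp (e / 2 * x) * Real.exp (e / 2 * y) *
        (Real.exp (-(e * x)) * Real.exp (-(e * y)))) := by ring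
  have s6 : Real.exp (e / 2 * x) * Real.exp (e / 2 * y) *
        (Real.exp (-(e * x)) * Real.exp (-(e * y))) =
      Real.exp (e / 2 * x + e / 2 * y + (-(e * x) + -(e * y))) := by
    rw [Real.exp_add, Real.exp_add, Real.exp_add]
  have s7 : Real.exp (-(e / 4 * z)) * Real.exp (-(e / 4 * x)) =
      Real.exp (-(e / 4 * z) + -(e / 4 * x)) := by rw [Real.exp_add]
  have s8 : Real.exp (e / 2 * x + e / 2 * y + (-(e * x) + -(e * y))) ≤
      Real.exp (-(e / 4 * z) + -(e / 4 * x)) := by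
    apply Real.exp_le_exp.mpr
    have h3 : e / 4 * z ≤ e / 4 * (x + y) := mul_le_mul_of_nonneg_left hz (by positivity)
    have h4 : 0 ≤ e / 4 * y := by positivity
    nlinarith
  calc k * (b * c) ≤ _ := s4
    _ = M * (K * K) * (C1 * C2) * (Real.exp (e / 2 * x) * Real.exp (e / 2 * y) *
        (Real.exp (-(e * x)) * Real.exp (-(e * y)))) := s5
    _ ≤ M * (K * K) * (C1 * C2) * (Real.exp (-(e / 4 * z)) * Real.exp (-(e / 4 * x))) := by
        rw [s6, s7]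
        exact mul_le_mul_of_nonneg_left s8 (by positivity)
    _ = _ := by ring

theorem p_CVB (hEUB : S_EUB) : S_CVB := by
  obtain ⟨-, -, -, hl0, -, -, -, -, -, -, -, hladd, -, -⟩ := hEUB
  intro k b c hk hb hc
  obtain ⟨-, M, hM, hkM⟩ := hk
  obtain ⟨C1, e1, he1, hC1, hb1⟩ := hb
  obtain ⟨C2, e2, he2, hC2, hc1⟩ := hc
  have he : 0 < min e1 e2 := lt_min he1 he2
  refine ⟨M * ((1 + 2 / min e1 e2) * (1 + 2 / min e1 e2)) * (C1 * C2), min e1 e2 / 4,
    by positivity, by positivity, ?_⟩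
  intro ξ η t ht
  rw [norm_mul, norm_mul, Complex.norm_real, Real.norm_eq_abs]
  have hz : l1 ξ ≤ l1 η + l1 (ξ - η) := by
    have h := hladd η (ξ - η)
    rw [add_sub_cancel] at h
    exact h
  refine CVB_num (min e1 e2) M C1 C2 _ (l1 η) (l1 (ξ - η)) (l1 ξ) _ _ _ he hM hC1 hC2
    (by positivity) (hl0 η) (hl0 _) hz (norm_nonneg _) (norm_nonneg _) (hkM η (ξ - η)) ?_ ?_
    (CVB_lin _ _ he (hl0 η)) (CVB_lin _ _ he (hl0 _))
  · exact le_trans (hb1 η t ht) (mul_le_mul_of_nonneg_left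
      (CVB_mono e1 (min e1 e2) (l1 η) (min_le_left _ _) (hl0 η)) hC1)
  · exact le_trans (hc1 (ξ - η) t ht) (mul_le_mul_of_nonneg_left
      (CVB_mono e2 (min e1 e2) (l1 (ξ - η)) (min_le_right _ _) (hl0 _)) hC2)

end Pool.SQW
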