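import Pool.Agent.Work.MP_a2fcf1_an_sp.Interface

/-! # Block CVL: the difference of two nonlinear terms (helper56) -/

open MeasureTheory Set Filter
open scoped ContDiff

namespace Pool.SQW

theorem CVL_int (hKKB : S_KKB) (hCVB : S_CVB) (hIEX : S_IEX) {b c : ℝ × ℝ → ℝ → ℂ}
    (hb : Good 0 b) (hc : Good 0 c) (ξ : ℝ × ℝ) {t : ℝ} (ht : 0 ≤ t) :
    Integrable fun η => ((kk η (ξ - η) : ℝ) : ℂ) * (b η t * c (ξ - η) t) := by
  obtain ⟨C, ε, hε, _, h⟩ := hCVB kk b c hKKB.1 hb.1 hc.1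
  refine Integrable.mono' (g := fun η => C * Real.exp (-(ε * l1 ξ)) * Real.exp (-(ε * l1 η)))
    ((hIEX ε hε).const_mul _) ?_ (Eventually.of_forall fun η => h ξ η t ht)
  have hs : Measurable fun η : ℝ × ℝ => ξ - η := measurable_const.sub measurable_id
  have h1 : Measurable fun η : ℝ × ℝ => kk η (ξ - η) :=
    hKKB.1.1.comp (measurable_id.prodMk hs)
  have h2 : Measurable fun η : ℝ × ℝ => b η t := hb.2.1 t ht
  have h3 : Measurable fun η : ℝ × ℝ => c (ξ - η) t := (hc.2.1 t ht).comp hs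
  exact ((Complex.measurable_ofReal.comp h1).mul (h2.mul h3)).aestronglyMeasurable

theorem p_CVL (hKKB : S_KKB) (hCVB : S_CVB) (hIEX : S_IEX) : S_CVL := by
  intro b c hb hc ξ t ht
  have ibb := CVL_int hKKB hCVB hIEX hb hb ξ ht
  have icb := CVL_int hKKB hCVB hIEX hc hb ξ ht
  have icc := CVL_int hKKB hCVB hIEX hc hc ξ ht
  have e1 : cnv kk (fun ξ t => b ξ t - c ξ t) b ξ t = cnv kk b b ξ t - cnv kk c b ξ t := by
    unfold cnv
    rw [← integral_sub ibb icb]
    exact integral_congr_ae (Eventually.of_forall fun η => by simp only; ring)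
  have e2 : cnv kk c (fun ξ t => b ξ t - c ξ t) ξ t = cnv kk c b ξ t - cnv kk c c ξ t := by
    unfold cnv
    rw [← integral_sub icb icc]
    exact integral_congr_ae (Eventually.of_forall fun η => by simp only; ring)
  rw [e1, e2]
  ring

end Pool.SQW

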