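import Pool.Agent.Work.MP_a2fcf1_an_sp.Interface

/-!
# Block DAT: the data are in the weighted space
-/

open MeasureTheory Set Filter

namespace Pool.SQW

theorem dat_pow (x : ℝ) (hx : 0 ≤ x) : (1 + x) ^ 5 ≤ 3200000 * Real.exp (x / 4) := by
  have h1 : 1 + x ≤ 20 * Real.exp (x / 20) := by
    have := Real.add_one_le_exp (x / 20)
    linarith
  have h2 : (1 + x) ^ 5 ≤ (20 * Real.exp (x / 20)) ^ 5 := by gcongr
  have h3 : (20 * Real.exp (x / 20)) ^ 5 = 3200000 * Real.exp (x / 4) := by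
    rw [mul_pow, ← Real.exp_nat_mul]
    norm_num
    ring_nf
  linarith

theorem p_DAT (h1 : S_RHB) (h2 : S_NNB) : S_DAT := by
  intro P hP g hg ξ t ht
  have hP' := hP
  obtain ⟨ha, ha2, hka, hN, hde, hPh, hQ, hJ, hJ2⟩ := hP'
  obtain ⟨-, -, hnn, -⟩ := h2 P.N P.de hN hde
  have hn := hnn ξ
  obtain ⟨hr1, hr2⟩ := (h1 P hP).2 t ht
  set n := nn P.N P.de ξ with hndef
  have hw : 0 ≤ P.w (eu ξ) := hQ.1 _ (Real.sqrt_nonneg _)
  have hE : 0 < Real.exp (-(P.ka * t * eu ξ ^ (2 * P.al))) := Real.exp_pos _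
  have key : Real.exp (-n) ≤ 3200000 * (Real.exp (-(P.rh t * n)) * ((1 + n) ^ 5)⁻¹) := by
    have hpos : (0 : ℝ) < (1 + n) ^ 5 := by positivity
    have e1 := dat_pow n hn
    rw [← mul_assoc, ← div_eq_mul_inv, le_div_iff₀ hpos]
    have e2 : Real.exp (-n) * (1 + n) ^ 5 ≤ Real.exp (-n) * (3200000 * Real.exp (n / 4)) :=
      mul_le_mul_of_nonneg_left e1 (Real.exp_pos _).le
    have e3 : Real.exp (-n) * (3200000 * Real.exp (n / 4)) =
        3200000 * Real.exp (-(3 / 4 * n)) := by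
      rw [mul_left_comm, ← Real.exp_add]
      ring_nf
    have e4 : Real.exp (-(3 / 4 * n)) ≤ Real.exp (-(P.rh t * n)) := by
      apply Real.exp_le_exp.mpr
      nlinarith
    linarith
  have e5 : 3200000 * P.W ξ t = (Real.exp (-(P.ka * t * eu ξ ^ (2 * P.al))) * P.w (eu ξ)) *
      (3200000 * (Real.exp (-(P.rh t * n)) * ((1 + n) ^ 5)⁻¹)) := by
    unfold Par.W Par.V
    rw [← hndef, sub_eq_add_neg, Real.exp_add]
    ring
  rw [e5]
  calc Real.exp (-(P.ka * t * eu ξ ^ (2 * P.al))) * ‖g ξ‖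
      ≤ Real.exp (-(P.ka * t * eu ξ ^ (2 * P.al))) * (P.w (eu ξ) * Real.exp (-n)) :=
        mul_le_mul_of_nonneg_left (hg ξ) hE.le
    _ = (Real.exp (-(P.ka * t * eu ξ ^ (2 * P.al))) * P.w (eu ξ)) * Real.exp (-n) := by ring
    _ ≤ _ := mul_le_mul_of_nonneg_left key (by positivity)

end Pool.SQW
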