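import Pool.Agent.Work.MP_a2fcf1_an_sp.Interface

/-! Block DRV: the derivatives of `FI a`. -/

open MeasureTheory Set Filter
open scoped ContDiff

namespace Pool.SQW

theorem DRV_exi_norm (x y : ℝ × ℝ) : ‖exi x y‖ = 1 := by
  unfold exi
  rw [mul_comm]
  exact Complex.norm_exp_ofReal_mul_I _

theorem DRV_exi_cont (x : ℝ × ℝ) : Continuous fun y => exi x y := by
  unfold exi
  fun_prop

theorem DRV_m1_cont : Continuous m1 := by
  unfold m1
  fun_prop

theorem DRV_m2_cont : Continuous m2 := by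
  unfold m2
  fun_prop

theorem DRV_bd (ε x : ℝ) (hε : 0 < ε) (hx : 0 ≤ x) :
    x * Real.exp (-(ε * x)) ≤ 2 / ε * Real.exp (-(ε / 2 * x)) := by
  have h1 : ε / 2 * x ≤ Real.exp (ε / 2 * x) := by
    have := Real.add_one_le_exp (ε / 2 * x)
    linarith
  have h2 : Real.exp (-(ε * x)) = Real.exp (-(ε / 2 * x)) * Real.exp (-(ε / 2 * x)) := by
    rw [← Real.exp_add]
    congr 1
    ring
  have h3 : Real.exp (ε / 2 * x) * Real.exp (-(ε / 2 * x)) = 1 := by
    rw [← Real.exp_add, add_neg_cancel, Real.exp_zero]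
  have h4 : 0 < Real.exp (-(ε / 2 * x)) := Real.exp_pos _
  have h5 : x * Real.exp (-(ε / 2 * x)) ≤ 2 / ε := by
    have h6 : (ε / 2 * x) * Real.exp (-(ε / 2 * x)) ≤ 1 := by
      rw [← h3]
      exact mul_le_mul_of_nonneg_right h1 h4.le
    rw [le_div_iff₀ hε]
    linarith
  rw [h2, ← mul_assoc]
  exact mul_le_mul_of_nonneg_right h5 h4.le

theorem DRV_gen (hIEX : S_IEX) (a m : ℝ × ℝ → ℂ) (C ε : ℝ) (hε : 0 < ε) (ha : Measurable a)
    (hC : ∀ y, ‖a y‖ ≤ C * Real.exp (-(ε * l1 y))) (hm : Continuous m)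
    (hml : ∀ ξ, ‖m ξ‖ ≤ l1 ξ) (c : ℝ → ℝ × ℝ) (x₀ : ℝ)
    (hc : ∀ (ξ : ℝ × ℝ) (y : ℝ), HasDerivAt (fun y => exi (c y) ξ) (m ξ * exi (c y) ξ) y) :
    HasDerivAt (fun y => FI a (c y)) (FI (fun ξ => m ξ * a ξ) (c x₀)) x₀ := by
  have hl1 : ∀ y, 0 ≤ l1 y := fun y => by unfold l1; positivity
  have hC' : ∀ y, ‖a y‖ ≤ |C| * Real.exp (-(ε * l1 y)) := fun y =>
    (hC y).trans (mul_le_mul_of_nonneg_right (le_abs_self C) (Real.exp_pos _).le)
  have hmeas : ∀ y, AEStronglyMeasurable (fun ξ => a ξ * exi (c y) ξ) volume := fun y =>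
    (ha.mul (DRV_exi_cont (c y)).measurable).aestronglyMeasurable
  have h := hasDerivAt_integral_of_dominated_loc_of_deriv_le (μ := (volume : Measure (ℝ × ℝ)))
    (F := fun (y : ℝ) (ξ : ℝ × ℝ) => a ξ * exi (c y) ξ)
    (F' := fun (y : ℝ) (ξ : ℝ × ℝ) => (m ξ * a ξ) * exi (c y) ξ) (x₀ := x₀) (s := univ)
    (bound := fun ξ => |C| * (2 / ε) * Real.exp (-(ε / 2 * l1 ξ))) univ_mem
    (Eventually.of_forall hmeas) ?_ ?_ ?_ ?_ ?_
  · exact h.2
  · refine Integrable.mono' ((hIEX ε hε).const_mul |C|) (hmeas x₀) (Eventually.of_forall fun ξ => ?_)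
    rw [norm_mul, DRV_exi_norm, mul_one]
    exact hC' ξ
  · exact ((hm.measurable.mul ha).mul (DRV_exi_cont (c x₀)).measurable).aestronglyMeasurable
  · refine Eventually.of_forall fun ξ y _ => ?_
    rw [norm_mul, norm_mul, DRV_exi_norm, mul_one]
    calc ‖m ξ‖ * ‖a ξ‖ ≤ l1 ξ * (|C| * Real.exp (-(ε * l1 ξ))) :=
          mul_le_mul (hml ξ) (hC' ξ) (norm_nonneg _) (hl1 ξ)
      _ = |C| * (l1 ξ * Real.exp (-(ε * l1 ξ))) := by ring
      _ ≤ |C| * (2 / ε * Real.exp (-(ε / 2 * l1 ξ))) :=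
          mul_le_mul_of_nonneg_left (DRV_bd ε (l1 ξ) hε (hl1 ξ)) (abs_nonneg C)
      _ = |C| * (2 / ε) * Real.exp (-(ε / 2 * l1 ξ)) := by ring
  · exact (hIEX (ε / 2) (half_pos hε)).const_mul _
  · refine Eventually.of_forall fun ξ y _ => ?_
    have h1 := (hc ξ y).const_mul (a ξ)
    have e : a ξ * (m ξ * exi (c y) ξ) = m ξ * a ξ * exi (c y) ξ := by ring
    rw [e] at h1
    exact h1

theorem p_DRV (hIEX : S_IEX) : S_DRV := by
  intro a C ε hε ha hC x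
  refine ⟨?_, ?_⟩
  · refine DRV_gen hIEX a m1 C ε hε ha hC DRV_m1_cont (fun ξ => ?_) (fun y => (y, x.2)) x.1
      (fun ξ y => ?_)
    · unfold m1 l1
      rw [norm_mul, Complex.norm_I, one_mul, Complex.norm_real, Real.norm_eq_abs]
      have := abs_nonneg ξ.2
      linarith
    · have h1 : HasDerivAt (fun y : ℝ => y * ξ.1 + x.2 * ξ.2) (1 * ξ.1) y :=
        ((hasDerivAt_id y).mul_const ξ.1).add_const _
      have h2 := (h1.ofReal_comp.const_mul Complex.I).cexp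
      have e : Complex.exp (Complex.I * ((y * ξ.1 + x.2 * ξ.2 : ℝ) : ℂ)) *
          (Complex.I * ((1 * ξ.1 : ℝ) : ℂ)) = m1 ξ * exi (y, x.2) ξ := by
        unfold m1 exi
        rw [one_mul, mul_comm]
      rw [e] at h2
      exact h2
  · refine DRV_gen hIEX a m2 C ε hε ha hC DRV_m2_cont (fun ξ => ?_) (fun y => (x.1, y)) x.2
      (fun ξ y => ?_)
    · unfold m2 l1
      rw [norm_mul, Complex.norm_I, one_mul, Complex.norm_real, Real.norm_eq_abs]
      have := abs_nonneg ξ.1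
      linarith
    · have h1 : HasDerivAt (fun y : ℝ => x.1 * ξ.1 + y * ξ.2) (1 * ξ.2) y :=
        ((hasDerivAt_id y).mul_const ξ.2).const_add _
      have h2 := (h1.ofReal_comp.const_mul Complex.I).cexp
      have e : Complex.exp (Complex.I * ((x.1 * ξ.1 + y * ξ.2 : ℝ) : ℂ)) *
          (Complex.I * ((1 * ξ.2 : ℝ) : ℂ)) = m2 ξ * exi (x.1, y) ξ := by
        unfold m2 exi
        rw [one_mul, mul_comm]
      rw [e] at h2
      exact h2

end Pool.SQW
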