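import Pool.Agent.Work.MP_a2fcf1_an_sp.Interface

/-!
# Supercritical SQG on the plane: block DUH (helper25)
-/

set_option autoImplicit false

open MeasureTheory Set Filter
open scoped ContDiff

namespace Pool.SQW

theorem DUH_eq (κ α : ℝ) (g : ℝ × ℝ → ℂ) (q : ℝ × ℝ → ℝ → ℂ) (ξ : ℝ × ℝ) (t : ℝ) (ht : 0 ≤ t) :
    duh κ α g q ξ t = ((Real.exp (-(κ * t * eu ξ ^ (2 * α))) : ℝ) : ℂ) *
      (g ξ - ∫ s in (0 : ℝ)..t, ((Real.exp (κ * s * eu ξ ^ (2 * α)) : ℝ) : ℂ) * q ξ (max s 0)) := by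
  have h : ∫ s in (0 : ℝ)..t, ((Real.exp (κ * s * eu ξ ^ (2 * α)) : ℝ) : ℂ) * q ξ s
      = ∫ s in (0 : ℝ)..t, ((Real.exp (κ * s * eu ξ ^ (2 * α)) : ℝ) : ℂ) * q ξ (max s 0) := by
    apply intervalIntegral.integral_congr
    intro s hs
    rw [uIcc_of_le ht] at hs
    show ((Real.exp (κ * s * eu ξ ^ (2 * α)) : ℝ) : ℂ) * q ξ s
      = ((Real.exp (κ * s * eu ξ ^ (2 * α)) : ℝ) : ℂ) * q ξ (max s 0)
    rw [max_eq_left hs.1]
  unfold duh
  rw [h]

theorem DUH_mea (κ α : ℝ) (g : ℝ × ℝ → ℂ) (q : ℝ × ℝ → ℝ → ℂ) (heu : Continuous eu)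
    (hg : Measurable g) (hq : Mea q) (hc : ∀ ξ, ContinuousOn (q ξ) (Ici 0)) :
    Mea (duh κ α g q) := by
  intro t ht
  have hx : Measurable fun ξ : ℝ × ℝ => eu ξ ^ (2 * α) := heu.measurable.pow_const _
  have hQ : Measurable (Function.uncurry (fun (s : ℝ) (ξ : ℝ × ℝ) => q ξ (max s 0))) := by
    apply measurable_uncurry_of_continuous_of_measurable
    · intro ξ
      exact (hc ξ).comp_continuous (continuous_id.max continuous_const) (fun s => Set.mem_Ici.mpr (le_max_right s 0))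
    · intro s
      exact hq (max s 0) (le_max_right _ _)
  have hE : Measurable (Function.uncurry (fun (s : ℝ) (ξ : ℝ × ℝ) =>
      ((Real.exp (κ * s * eu ξ ^ (2 * α)) : ℝ) : ℂ) * q ξ (max s 0))) := by
    apply Measurable.mul _ hQ
    apply Complex.measurable_ofReal.comp
    apply Real.measurable_exp.comp
    exact (measurable_fst.const_mul κ).mul (hx.comp measurable_snd)
  have hI : Measurable fun ξ : ℝ × ℝ => ∫ s in Ioc (0 : ℝ) t,
      ((Real.exp (κ * s * eu ξ ^ (2 * α)) : ℝ) : ℂ) * q ξ (max s 0) :=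
    (hE.stronglyMeasurable.integral_prod_left (μ := volume.restrict (Ioc (0 : ℝ) t))).measurable
  have heq : (fun ξ => duh κ α g q ξ t) = fun ξ =>
      ((Real.exp (-(κ * t * eu ξ ^ (2 * α))) : ℝ) : ℂ) *
      (g ξ - ∫ s in Ioc (0 : ℝ) t,
        ((Real.exp (κ * s * eu ξ ^ (2 * α)) : ℝ) : ℂ) * q ξ (max s 0)) := by
    funext ξ
    rw [DUH_eq κ α g q ξ t ht, intervalIntegral.integral_of_le ht]
  rw [heq]
  apply Measurable.mul
  · apply Complex.measurable_ofReal.comp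
    apply Real.measurable_exp.comp
    exact (hx.const_mul (κ * t)).neg
  · exact hg.sub hI

theorem DUH_der (κ α : ℝ) (g : ℝ × ℝ → ℂ) (q : ℝ × ℝ → ℝ → ℂ)
    (hc : ∀ ξ, ContinuousOn (q ξ) (Ici 0)) (ξ : ℝ × ℝ) (t : ℝ) (ht : 0 ≤ t) :
    HasDerivWithinAt (duh κ α g q ξ)
      (-((κ * eu ξ ^ (2 * α) : ℝ) : ℂ) * duh κ α g q ξ t - q ξ t) (Ici 0) t := by
  set x : ℝ := eu ξ ^ (2 * α) with hx
  have hcont : Continuous fun s : ℝ => ((Real.exp (κ * s * x) : ℝ) : ℂ) * q ξ (max s 0) := by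
    apply Continuous.mul
    · exact Complex.continuous_ofReal.comp (Real.continuous_exp.comp
        ((continuous_const.mul continuous_id).mul continuous_const))
    · exact (hc ξ).comp_continuous (continuous_id.max continuous_const) (fun s => Set.mem_Ici.mpr (le_max_right s 0))
  have h1 : HasDerivAt (fun τ : ℝ => ∫ s in (0 : ℝ)..τ,
      ((Real.exp (κ * s * x) : ℝ) : ℂ) * q ξ (max s 0))
      (((Real.exp (κ * t * x) : ℝ) : ℂ) * q ξ (max t 0)) t :=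
    (hcont.integral_hasStrictDerivAt 0 t).hasDerivAt
  have h2 : HasDerivAt (fun τ : ℝ => Real.exp (-(κ * τ * x)))
      (Real.exp (-(κ * t * x)) * (-(κ * 1 * x))) t :=
    ((((hasDerivAt_id t).const_mul κ).mul_const x).neg).exp
  have h3 : HasDerivAt (fun τ : ℝ => ((Real.exp (-(κ * τ * x)) : ℝ) : ℂ))
      ((Real.exp (-(κ * t * x)) * (-(κ * 1 * x)) : ℝ) : ℂ) t := h2.ofReal_comp
  have h4 := h3.mul (h1.const_sub (g ξ))
  have h5 : HasDerivWithinAt (fun τ : ℝ => ((Real.exp (-(κ * τ * x)) : ℝ) : ℂ) *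
      (g ξ - ∫ s in (0 : ℝ)..τ, ((Real.exp (κ * s * x) : ℝ) : ℂ) * q ξ (max s 0)))
      (-((κ * x : ℝ) : ℂ) * duh κ α g q ξ t - q ξ t) (Ici 0) t := by
    have h6 : -((κ * x : ℝ) : ℂ) * duh κ α g q ξ t - q ξ t
        = ((Real.exp (-(κ * t * x)) * (-(κ * 1 * x)) : ℝ) : ℂ) *
          (g ξ - ∫ s in (0 : ℝ)..t, ((Real.exp (κ * s * x) : ℝ) : ℂ) * q ξ (max s 0)) +
          ((Real.exp (-(κ * t * x)) : ℝ) : ℂ) *
            -(((Real.exp (κ * t * x) : ℝ) : ℂ) * q ξ (max t 0)) := by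
      rw [DUH_eq κ α g q ξ t ht, max_eq_left ht]
      have h7 : ((Real.exp (-(κ * t * x)) : ℝ) : ℂ) * ((Real.exp (κ * t * x) : ℝ) : ℂ) = 1 := by
        rw [← Complex.ofReal_mul, ← Real.exp_add, neg_add_cancel, Real.exp_zero, Complex.ofReal_one]
      have h8 : ((Real.exp (-(κ * t * x)) : ℝ) : ℂ) *
            -(((Real.exp (κ * t * x) : ℝ) : ℂ) * q ξ t) = - q ξ t := by
        rw [mul_neg, ← mul_assoc, h7, one_mul]
      rw [h8]
      push_cast
      ring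
    rw [h6]
    exact h4.hasDerivWithinAt
  apply h5.congr
  · intro τ hτ
    exact DUH_eq κ α g q ξ τ hτ
  · exact DUH_eq κ α g q ξ t ht

theorem p_DUH (h1 : S_EUB) : S_DUH := by
  intro κ α g q hg hq hc
  refine ⟨DUH_mea κ α g q h1.1 hg hq hc, ?_, DUH_der κ α g q hc⟩
  intro ξ t ht
  exact (DUH_der κ α g q hc ξ t ht).continuousWithinAt

end Pool.SQW
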