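import Pool.Agent.Work.MP_a2fcf1_an_sp.Interface

/-! # Block EXI: existence of the amplitude (helper40) -/

open MeasureTheory Set Filter
open scoped ContDiff

namespace Pool.SQW

theorem EXI_zero : Good 0 fun _ _ => (0 : ℂ) := by
  refine ⟨⟨0, 1, one_pos, le_refl 0, fun ξ t _ => ?_⟩, fun t _ => measurable_const,
    fun ξ => continuousOn_const⟩
  rw [norm_zero, zero_mul]

theorem p_EXI (hBAN : S_BAN) (hBAL : S_BAL) (hLIP : S_LIP) (hCLO : S_CLO) (hDUH : S_DUH)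
    (hCO0 : S_CO0) (hSYC : S_SYC) (hSYD : S_SYD) (hKKB : S_KKB) (hWDC : S_WDC)
    (hWME : S_WME) : S_EXI := by
  intro P hP hq g hg hgs hgb
  have hN : 0 < P.N := hP.2.2.2.1
  have hde : 0 < P.de := hP.2.2.2.2.1
  have hPh : 0 < P.Ph := hP.2.2.2.2.2.1
  have hW : ∀ ξ t, 0 ≤ P.W ξ t := (hWME.2 P hP).2.2.2
  have hx : 0 < P.N * P.de * P.Ph := mul_pos (mul_pos hN hde) hPh
  have hR : (0 : ℝ) ≤ 6400000 := by norm_num
  have hfin : ∃ b : ℝ × ℝ → ℝ → ℂ,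
      (Good 0 b ∧ Sym b ∧ ∀ ξ t, 0 ≤ t → ‖b ξ t‖ ≤ 6400000 * P.W ξ t) ∧
        ∀ ξ t, 0 ≤ t → duh P.ka P.al g (cnv kk b b) ξ t = b ξ t := by
    refine hBAN P.W
      (fun b => Good 0 b ∧ Sym b ∧ ∀ ξ t, 0 ≤ t → ‖b ξ t‖ ≤ 6400000 * P.W ξ t)
      (fun b => duh P.ka P.al g (cnv kk b b)) 6400000 hR hW ?_ ?_ ?_ ?_ ?_
    · refine ⟨EXI_zero, fun ξ t _ => ?_, fun ξ t _ => ?_⟩
      · rw [map_zero]
      · rw [norm_zero]
        exact mul_nonneg hR (hW ξ t)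
    · rintro b ⟨hb1, hb2, hb3⟩
      have h1 : Good 0 (cnv kk b b) := hCO0 kk b b hKKB.1 hb1 hb1
      have h2 := hDUH P.ka P.al g (cnv kk b b) hg h1.2.1 h1.2.2
      have h3 : ∀ ξ t, 0 ≤ t → ‖duh P.ka P.al g (cnv kk b b) ξ t‖ ≤ 6400000 * P.W ξ t := by
        intro ξ t ht
        refine (hBAL P hP g b 6400000 hR hgb hb3 ξ t ht).trans ?_
        refine mul_le_mul_of_nonneg_right ?_ (hW ξ t)
        nlinarith
      obtain ⟨C, ε, hε, hC, hle⟩ := hWDC P hP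
      refine ⟨⟨⟨6400000 * C, ε, hε, mul_nonneg hR hC, fun ξ t ht => ?_⟩, h2.1, h2.2.1⟩,
        hSYD _ _ _ _ hgs (hSYC b hb2), h3⟩
      refine (h3 ξ t ht).trans ?_
      rw [mul_assoc]
      exact mul_le_mul_of_nonneg_left (hle ξ t ht) hR
    · exact fun b hb => hb.2.2
    · intro b c M hb hc hM hbc ξ t ht
      refine (hLIP P hP g b c 6400000 M hR hM hb.1 hc.1 hb.2.2 hc.2.2 hbc ξ t ht).trans ?_
      refine mul_le_mul_of_nonneg_right ?_ (hW ξ t)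
      nlinarith
    · intro u b hu hub
      exact hCLO P hP 6400000 (2 * 6400000) u b hR (by norm_num) hu hub
  obtain ⟨b, hb, hfix⟩ := hfin
  exact ⟨b, hb.1, hb.2.1, fun ξ t ht => (hfix ξ t ht).symm⟩

end Pool.SQW
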