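import Pool.Agent.Work.MP_a2fcf1_an_sp.Interface

/-!
# Supercritical SQG on the plane, block FMO (typist helper87)
-/

set_option autoImplicit false

open MeasureTheory Set Filter

namespace Pool.SQW

theorem FMO_mono (w : ℝ → ℝ) (hw : QC w) {k p r R : ℝ} (hk : 0 ≤ k) (hp : 0 ≤ p) (hr : 0 < r)
    (hR : r ≤ R) : w R * R⁻¹ * Real.exp (-(k * R ^ p)) ≤ w r * r⁻¹ * Real.exp (-(k * r ^ p)) := by
  have hR0 : 0 < R := lt_of_lt_of_le hr hR
  have h1 : w R * R⁻¹ ≤ w r * r⁻¹ := by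
    rw [← div_eq_mul_inv, ← div_eq_mul_inv, div_le_div_iff₀ hR0 hr]
    exact (hw.2 r R hr.le hR).2
  have h2 : Real.exp (-(k * R ^ p)) ≤ Real.exp (-(k * r ^ p)) := by
    rw [Real.exp_le_exp, neg_le_neg_iff]
    exact mul_le_mul_of_nonneg_left (Real.rpow_le_rpow hr.le hR hp) hk
  exact mul_le_mul h1 h2 (Real.exp_pos _).le (mul_nonneg (hw.1 r hr.le) (inv_nonneg.2 hr.le))

theorem p_FMO (hEUB : S_EUB) (hSUB : S_SUB) (hWME : S_WME) : S_FMO := by
  intro P hP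
  have hP' := hP
  obtain ⟨hal, hal2, hka, hN, hde, -, hqc, -, -⟩ := hP
  have hlam : 0 < P.lam := by
    unfold Par.lam
    exact mul_pos (hSUB P.al hal hal2).1 hka
  have heu : Measurable eu := hEUB.1.measurable
  have h0 : ∀ y, 0 ≤ eu y := hEUB.2.2.1
  have heuz : ∀ y, eu y = 0 ↔ y = 0 := hEUB.2.2.2.2.2.2.2.2.2.2.2.2.1
  refine ⟨hlam, fun s hs => ?_⟩
  have hk : 0 ≤ P.lam * s := mul_nonneg hlam.le hs
  have hcoef : ∀ y, 0 ≤ P.w (eu y) * (eu y)⁻¹ := fun y =>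
    mul_nonneg (hqc.1 _ (h0 y)) (inv_nonneg.2 (h0 y))
  refine ⟨?_, fun y => ?_, fun y => ?_, fun y => ?_, ?_, ?_⟩
  · have h1 : Measurable fun ξ : ℝ × ℝ => eu ξ ^ (2 * P.al) := heu.pow_const _
    exact ((hWME.1 P.w hqc).mul heu.inv).mul ((h1.const_mul (P.lam * s)).neg.exp)
  · exact mul_nonneg (hcoef y) (Real.exp_pos _).le
  · unfold Par.F
    rw [hEUB.2.2.2.2.1 y]
  · unfold Par.F
    refine mul_le_mul_of_nonneg_left ?_ (hcoef y)
    rw [Real.exp_le_exp, neg_le_neg_iff, mul_zero, zero_mul]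
    exact mul_nonneg hk (Real.rpow_nonneg (h0 y) _)
  · intro a b c ha hb hac
    refine FMO_mono P.w hqc hk (by linarith) ?_ ?_
    · refine lt_of_le_of_ne (h0 _) (fun h => ha ?_)
      exact congrArg Prod.fst ((heuz _).1 h.symm)
    · unfold eu
      refine Real.sqrt_le_sqrt ?_
      have h1 : a ^ 2 ≤ c ^ 2 := sq_le_sq.2 hac
      simp only
      linarith
  · intro a b d ha hb hbd
    refine FMO_mono P.w hqc hk (by linarith) ?_ ?_
    · refine lt_of_le_of_ne (h0 _) (fun h => ha ?_)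
      exact congrArg Prod.fst ((heuz _).1 h.symm)
    · unfold eu
      refine Real.sqrt_le_sqrt ?_
      have h1 : b ^ 2 ≤ d ^ 2 := sq_le_sq.2 hbd
      simp only
      linarith

end Pool.SQW
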