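import Pool.Agent.Work.MP_a2fcf1_an_sp.Interface

/-! # Block GAD (helper1) -/

open MeasureTheory Set Filter
open Pool.Agent.Work.MP_a2fcf1_an_h64 (lf)
open scoped ContDiff

namespace Pool.SQW

theorem GAD_dec {b c : ℝ × ℝ → ℝ → ℂ} (hb : Dec b) (hc : Dec c) :
    Dec fun ξ t => b ξ t + c ξ t := by
  obtain ⟨C, ε, hε, hC, h1⟩ := hb
  obtain ⟨C', ε', hε', hC', h2⟩ := hc
  refine ⟨C + C', min ε ε', lt_min hε hε', add_nonneg hC hC', fun ξ t ht => ?_⟩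
  have hl : 0 ≤ l1 ξ := add_nonneg (abs_nonneg _) (abs_nonneg _)
  have e1 : Real.exp (-(ε * l1 ξ)) ≤ Real.exp (-(min ε ε' * l1 ξ)) :=
    Real.exp_le_exp.2 (neg_le_neg (mul_le_mul_of_nonneg_right (min_le_left _ _) hl))
  have e2 : Real.exp (-(ε' * l1 ξ)) ≤ Real.exp (-(min ε ε' * l1 ξ)) :=
    Real.exp_le_exp.2 (neg_le_neg (mul_le_mul_of_nonneg_right (min_le_right _ _) hl))
  calc ‖b ξ t + c ξ t‖ ≤ ‖b ξ t‖ + ‖c ξ t‖ := norm_add_le _ _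
    _ ≤ C * Real.exp (-(ε * l1 ξ)) + C' * Real.exp (-(ε' * l1 ξ)) :=
        add_le_add (h1 ξ t ht) (h2 ξ t ht)
    _ ≤ C * Real.exp (-(min ε ε' * l1 ξ)) + C' * Real.exp (-(min ε ε' * l1 ξ)) := by gcongr
    _ = (C + C') * Real.exp (-(min ε ε' * l1 ξ)) := by ring

theorem GAD_mea {b c : ℝ × ℝ → ℝ → ℂ} (hb : Mea b) (hc : Mea c) :
    Mea fun ξ t => b ξ t + c ξ t := fun t ht => (hb t ht).add (hc t ht)

theorem GAD_all : ∀ n b c, Good n b → Good n c → Good n fun ξ t => b ξ t + c ξ t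
  | 0, _, _, ⟨h1, h2, h3⟩, ⟨k1, k2, k3⟩ =>
    ⟨GAD_dec h1 k1, GAD_mea h2 k2, fun ξ => (h3 ξ).add (k3 ξ)⟩
  | (n + 1), _, _, ⟨h1, h2, b', h3, h4⟩, ⟨k1, k2, c', k3, k4⟩ =>
    ⟨GAD_dec h1 k1, GAD_mea h2 k2, fun ξ t => b' ξ t + c' ξ t, GAD_all n b' c' h3 k3,
      fun ξ t ht => (h4 ξ t ht).add (k4 ξ t ht)⟩

theorem p_GAD : S_GAD := GAD_all

end Pool.SQW
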