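import Pool.Agent.Work.MP_a2fcf1_an_sp.Interface

/-! # Block GCN: products of families with decaying time derivatives (helper40) -/

open MeasureTheory Set Filter
open scoped ContDiff

namespace Pool.SQW

theorem GCN_int (hC : S_CVB) (hI : S_IEX) {k : ℝ × ℝ → ℝ × ℝ → ℝ} {b c : ℝ × ℝ → ℝ → ℂ}
    (hk : Ker k) (hb : Dec b) (hc : Dec c) (hbm : Mea b) (hcm : Mea c) (ξ : ℝ × ℝ) :
    ∃ v : ℝ × ℝ → ℝ, Integrable v ∧
      (∀ η t, 0 ≤ t → ‖((k η (ξ - η) : ℝ) : ℂ) * (b η t * c (ξ - η) t)‖ ≤ v η) ∧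
      (∀ t, 0 ≤ t → Measurable fun η => ((k η (ξ - η) : ℝ) : ℂ) * (b η t * c (ξ - η) t)) ∧
      ∀ t, 0 ≤ t → Integrable fun η => ((k η (ξ - η) : ℝ) : ℂ) * (b η t * c (ξ - η) t) := by
  obtain ⟨C, ε, hε, _, hle⟩ := hC k b c hk hb hc
  have hv : Integrable fun η : ℝ × ℝ =>
      C * Real.exp (-(ε * l1 ξ)) * Real.exp (-(ε * l1 η)) := (hI ε hε).const_mul _
  have hm : ∀ t, 0 ≤ t →
      Measurable fun η => ((k η (ξ - η) : ℝ) : ℂ) * (b η t * c (ξ - η) t) := by
    intro t ht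
    have h1 : Measurable fun η : ℝ × ℝ => (η, ξ - η) :=
      measurable_id.prodMk (measurable_const.sub measurable_id)
    have h2 : Measurable fun η : ℝ × ℝ => k η (ξ - η) := hk.1.comp h1
    have h3 : Measurable fun η : ℝ × ℝ => c (ξ - η) t :=
      (hcm t ht).comp (measurable_const.sub measurable_id)
    exact (Complex.measurable_ofReal.comp h2).mul ((hbm t ht).mul h3)
  refine ⟨_, hv, fun η t ht => hle ξ η t ht, hm, fun t ht => ?_⟩
  exact hv.mono' (hm t ht).aestronglyMeasurable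
    (Filter.Eventually.of_forall fun η => hle ξ η t ht)

theorem p_GCN (hD : S_HDI) (h0 : S_CO0) (hA : S_GAD) (hG : S_GPR) (hC : S_CVB) (hI : S_IEX) :
    S_GCN := by
  intro n
  induction n with
  | zero => exact fun k b c hk hb hc => h0 k b c hk hb hc
  | succ n ih =>
    intro k b c hk hb hc
    have hb0 : Good 0 b := hG.2 (n + 1) b hb
    have hc0 : Good 0 c := hG.2 (n + 1) c hc
    have hbn : Good n b := hG.1 n b hb
    have hcn : Good n c := hG.1 n c hc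
    obtain ⟨hbD, hbM, b', hb', hbd⟩ := hb
    obtain ⟨hcD, hcM, c', hc', hcd⟩ := hc
    have hb'0 : Good 0 b' := hG.2 n b' hb'
    have hc'0 : Good 0 c' := hG.2 n c' hc'
    have h1 : Good 0 (cnv k b c) := h0 k b c hk hb0 hc0
    refine ⟨h1.1, h1.2.1, fun ξ t => cnv k b' c ξ t + cnv k b c' ξ t, ?_, ?_⟩
    · exact hA n _ _ (ih k b' c hk hb' hcn) (ih k b c' hk hbn hc')
    · intro ξ t ht
      obtain ⟨v, _, _, hm, hi⟩ := GCN_int hC hI hk hbD hcD hbM hcM ξ
      obtain ⟨v1, hv1, hle1, hm1, hi1⟩ := GCN_int hC hI hk hb'0.1 hcD hb'0.2.1 hcM ξ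
      obtain ⟨v2, hv2, hle2, hm2, hi2⟩ := GCN_int hC hI hk hbD hc'0.1 hbM hc'0.2.1 ξ
      have h2 := hD (fun η t => ((k η (ξ - η) : ℝ) : ℂ) * (b η t * c (ξ - η) t))
        (fun η t => ((k η (ξ - η) : ℝ) : ℂ) * (b' η t * c (ξ - η) t) +
          ((k η (ξ - η) : ℝ) : ℂ) * (b η t * c' (ξ - η) t))
        (fun η => v1 η + v2 η) hm (fun t ht => (hm1 t ht).add (hm2 t ht))
        (fun η t ht => by
          have h3 := ((hbd η t ht).mul (hcd (ξ - η) t ht)).const_mul (((k η (ξ - η) : ℝ) : ℂ))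
          rw [mul_add] at h3
          exact h3)
        (hv1.add hv2)
        (fun η t ht => (norm_add_le _ _).trans (add_le_add (hle1 η t ht) (hle2 η t ht)))
        hi t ht
      rw [integral_add (hi1 t ht) (hi2 t ht)] at h2
      exact h2

end Pool.SQW
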