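import Pool.Agent.Work.MP_a2fcf1_an_sp.Interface

/-!
# Block GEN: the general criterion
-/

open MeasureTheory Set Filter
open scoped ContDiff

set_option autoImplicit false

namespace Pool.SQW

theorem p_GEN (hEXI : S_EXI) (hGLR : S_GLR) (hSYG : S_SYG) (hSUB : S_SUB) (hWDC : S_WDC)
    (hDAT : S_DAT) (hIEX : S_IEX) (hWME : S_WME) (hNNB : S_NNB) : S_GEN := by
  intro α hα hα2
  have hpos := (hSUB α hα hα2).1
  refine ⟨(2 - (2 : ℝ) ^ (2 * α)) / (8 * 400 * 3200000), by positivity, ?_⟩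
  intro κ N δ w g hκ hN hδ hw hg hgw hJ hJc
  -- the parameters
  set P : Par := ⟨α, κ, N, δ, 1 / (8 * 400 * 3200000 * (N * δ)), w⟩ with hP
  have hNδ : 0 < N * δ := mul_pos hN hδ
  have hPh : 0 < 1 / (8 * 400 * 3200000 * (N * δ)) := by positivity
  have hOk : P.Ok := by
    refine ⟨hα, hα2, hκ, hN, hδ, hPh, hw, hJ, ?_⟩
    change ∫ y, JJ α N δ w y ≤ (2 - (2 : ℝ) ^ (2 * α)) * κ * (1 / (8 * 400 * 3200000 * (N * δ)))
    have h1 : (2 - (2 : ℝ) ^ (2 * α)) * κ * (1 / (8 * 400 * 3200000 * (N * δ))) =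
        (N * δ)⁻¹ * ((2 - (2 : ℝ) ^ (2 * α)) / (8 * 400 * 3200000) * κ) := by
      field_simp
    rw [h1]
    have h2 : ∫ y, JJ α N δ w y = (N * δ)⁻¹ * (N * δ * ∫ y, JJ α N δ w y) := by
      rw [← mul_assoc, inv_mul_cancel₀ hNδ.ne', one_mul]
    rw [h2]
    exact mul_le_mul_of_nonneg_left hJc (inv_nonneg.2 hNδ.le)
  have hsmall : 8 * (400 * (P.N * P.de * P.Ph)) * 3200000 ≤ 1 := by
    change 8 * (400 * (N * δ * (1 / (8 * 400 * 3200000 * (N * δ))))) * 3200000 ≤ 1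
    apply le_of_eq
    field_simp
  -- the bound of the datum
  set v : ℝ × ℝ → ℝ := fun ξ => w (eu ξ) * Real.exp (-nn N δ ξ) with hv
  obtain ⟨nc, -, -, nneg, -⟩ := hNNB N δ hN hδ
  have hv0 : ∀ ξ, 0 ≤ v ξ := fun ξ => (norm_nonneg _).trans (hgw ξ)
  have hvm : Measurable v :=
    (hWME.1 w hw).mul (Real.continuous_exp.measurable.comp nc.neg.measurable)
  have hvs : ∀ ξ, v (-ξ) = v ξ := by
    intro ξ
    have he : eu (-ξ) = eu ξ := by
      unfold eu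
      simp
    simp only [hv]
    rw [he, nneg]
  obtain ⟨C, ε, hε, hC, hCW⟩ := hWDC P hOk
  have hvb : ∀ ξ, v ξ ≤ 3200000 * (C * Real.exp (-(ε * l1 ξ))) := by
    intro ξ
    have h1 := hDAT P hOk (fun ξ => ((v ξ : ℝ) : ℂ)) (fun ξ => by
      rw [Complex.norm_real, Real.norm_eq_abs, abs_of_nonneg (hv0 ξ)]) ξ 0 le_rfl
    rw [Complex.norm_real, Real.norm_eq_abs, abs_of_nonneg (hv0 ξ)] at h1
    rw [mul_zero, zero_mul, neg_zero, Real.exp_zero, one_mul] at h1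
    exact h1.trans (mul_le_mul_of_nonneg_left (hCW ξ 0 le_rfl) (by norm_num))
  have hvi : Integrable v := by
    refine Integrable.mono' (((hIEX ε hε).const_mul C).const_mul 3200000)
      hvm.aestronglyMeasurable (Eventually.of_forall fun ξ => ?_)
    rw [Real.norm_eq_abs, abs_of_nonneg (hv0 ξ)]
    exact hvb ξ
  obtain ⟨f, hf, hfv, hfs, hfg⟩ := hSYG g v hg hgw hvs hvi
  obtain ⟨b, hb, hbs, hbd⟩ := hEXI P hOk hsmall f hf hfs hfv
  have h := hGLR κ α f b hκ hα hα2 hf hb hbs hbd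
  have e : (fun x => (FI g x).re) = fun x => (FI f x).re := funext fun x => (hfg x).symm
  rw [e]
  exact h

end Pool.SQW
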