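import Pool.Agent.Work.MP_a2fcf1_an_sp.Interface

/-! Block GLR: from the fixed point to the global smooth solution -/

open MeasureTheory Set Filter
open Pool.Agent.Work.MP_a2fcf1_an_h64 (lf lf_apply)
open scoped ContDiff

namespace Pool.SQW

theorem GLR_exi_norm (x y : ℝ × ℝ) : ‖exi x y‖ = 1 := Complex.norm_exp_I_mul_ofReal _

theorem GLR_exi_meas (x : ℝ × ℝ) : Measurable (exi x) := by
  have : Continuous (exi x) := by
    unfold exi
    fun_prop
  exact this.measurable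

theorem GLR_int (hIEX : S_IEX) (b : ℝ × ℝ → ℝ → ℂ) (hd : Dec b) (hm : Mea b) (t : ℝ) (ht : 0 ≤ t)
    (x : ℝ × ℝ) : Integrable fun ξ => b ξ t * exi x ξ := by
  obtain ⟨C, ε, hε, hC, hb⟩ := hd
  refine Integrable.mono' ((hIEX ε hε).const_mul C)
    ((hm t ht).mul (GLR_exi_meas x)).aestronglyMeasurable (Eventually.of_forall fun ξ => ?_)
  rw [norm_mul, GLR_exi_norm, mul_one]
  exact hb ξ t ht

/-- derivative of a function which is real near `t` -/
theorem GLR_re (f : ℝ → ℂ) (f' : ℂ) (t : ℝ) (hf : HasDerivAt f f' t)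
    (hr : ∀ᶠ s in nhds t, f s = (((f s).re : ℝ) : ℂ)) :
    ((deriv (fun s => (f s).re) t : ℝ) : ℂ) = f' := by
  have h1 : HasDerivAt (fun s => (f s).re) f'.re t := by
    have := Complex.reCLM.hasFDerivAt.comp_hasDerivAt t hf
    exact this
  have h2 : HasDerivAt (fun s => (((f s).re : ℝ) : ℂ)) ((f'.re : ℝ) : ℂ) t := h1.ofReal_comp
  have h3 : HasDerivAt (fun s => (((f s).re : ℝ) : ℂ)) f' t :=
    hf.congr_of_eventuallyEq (by filter_upwards [hr] with s hs using hs.symm)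
  rw [h1.deriv]
  exact h2.unique h3

theorem p_GLR (hEUB : S_EUB) (hDUH : S_DUH) (hCO0 : S_CO0) (hKKB : S_KKB) (hGSY : S_GSY)
    (hSMI : S_SMI) (hSM1 : S_SM1) (hDRV : S_DRV) (hTRP : S_TRP) (hSMS : S_SMS) (hRLT : S_RLT)
    (hLMU : S_LMU) (hMOM : S_MOM) (hIEX : S_IEX) (hGPR : S_GPR) : S_GLR := by
  intro κ α g b hκ hα hα2 hg hb hS hfix
  have hq : Good 0 (cnv kk b b) := hCO0 kk b b hKKB.1 hb hb
  have hlin := (hLMU.2.2.2.2.2 κ α hα hα2).2
  obtain ⟨hD1, hD2, hD3⟩ := hDUH κ α g (cnv kk b b) hg hq.2.1 hq.2.2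
  have hder : ∀ ξ t, 0 ≤ t → HasDerivWithinAt (b ξ)
      (-((κ * eu ξ ^ (2 * α) : ℝ) : ℂ) * b ξ t - cnv kk b b ξ t) (Ici 0) t := by
    intro ξ t ht
    have h1 := hD3 ξ t ht
    rw [← hfix ξ t ht] at h1
    exact h1.congr (fun s hs => hfix ξ s hs) (hfix ξ t ht)
  have hgood : ∀ n, Good n b :=
    hGSY (fun ξ => -((κ * eu ξ ^ (2 * α) : ℝ) : ℂ)) kk b hlin hKKB.1 hb.1 hb.2.1 hder
  have hsm : ContDiffOn ℝ ∞ (ser b) Half := hSMI b hgood
  obtain ⟨b1, hb1, hb1d⟩ := (hgood 1).2.2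
  have hb1e : ∀ ξ t, 0 ≤ t →
      b1 ξ t = -((κ * eu ξ ^ (2 * α) : ℝ) : ℂ) * b ξ t - cnv kk b b ξ t := by
    intro ξ t ht
    have hu : UniqueDiffWithinAt ℝ (Ici (0 : ℝ)) t := uniqueDiffOn_Ici 0 t ht
    rw [← (hb1d ξ t ht).derivWithin hu, ← (hder ξ t ht).derivWithin hu]
  have hreal : ∀ t, 0 ≤ t → ∀ x, FI (fun ξ => b ξ t) x = (((FI (fun ξ => b ξ t) x).re : ℝ) : ℂ) := by
    intro t ht x
    apply Complex.ext
    · rw [Complex.ofReal_re]
    · rw [Complex.ofReal_im]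
      exact hRLT (fun ξ => b ξ t) (fun y => hS y t ht) x
  obtain ⟨C, ε, hε, hC, hbd⟩ := hb.1
  have h0 : ∀ ξ, b ξ 0 = g ξ := by
    intro ξ
    rw [hfix ξ 0 le_rfl]
    unfold duh
    rw [intervalIntegral.integral_same, mul_zero, zero_mul, neg_zero, Real.exp_zero,
      Complex.ofReal_one, one_mul, sub_zero]
  refine ⟨fun t x => (FI (fun ξ => b ξ t) x).re, fun t ξ => b ξ t, ?_, ?_, ?_, ?_, ?_, ?_⟩
  · funext x
    simp only [h0]
  · exact Complex.reCLM.contDiff.comp_contDiffOn hsm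
  · intro t ht
    exact hb.2.1 t ht
  · intro m
    obtain ⟨C', hC'⟩ := hMOM m ε hε
    refine ⟨C * C', fun t ht y => ?_⟩
    have hl : 0 ≤ l1 y := hEUB.2.2.2.1 y
    have he : 0 ≤ eu y := hEUB.2.2.1 y
    have hel : eu y ≤ l1 y := hEUB.2.2.2.2.2.2.2.2.1 y
    calc (1 + eu y) ^ m * ‖b y t‖ ≤ (1 + l1 y) ^ m * (C * Real.exp (-(ε * l1 y))) := by
          apply mul_le_mul _ (hbd y t ht) (norm_nonneg _) (by positivity)
          exact pow_le_pow_left₀ (by linarith) (by linarith) m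
      _ = C * ((1 + l1 y) ^ m * Real.exp (-(ε * l1 y))) := by ring
      _ ≤ C * C' := mul_le_mul_of_nonneg_left (hC' (l1 y) hl) hC
  · intro t ht x
    exact (hreal t ht x).symm
  · intro t ht x
    have ht' : 0 ≤ t := ht.le
    -- time derivative
    have hT : ((deriv (fun τ => (FI (fun ξ => b ξ τ) x).re) t : ℝ) : ℂ) =
        FI (fun ξ => b1 ξ t) x := by
      apply GLR_re (fun τ => FI (fun ξ => b ξ τ) x)
      · have h1 := hSM1 b b1 hb hb1 hb1d (t, x) ⟨ht', mem_univ _⟩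
        have hn : Half ∈ nhds (t, x) := prod_mem_nhds (Ici_mem_nhds ht) univ_mem
        have h2 : HasFDerivAt (ser b) _ (t, x) := h1.hasFDerivAt hn
        have h3 : HasDerivAt (fun τ : ℝ => (τ, x)) ((1 : ℝ), (0 : ℝ × ℝ)) t :=
          (hasDerivAt_id t).prodMk (hasDerivAt_const t x)
        have h4 := HasFDerivAt.comp_hasDerivAt t h2 h3
        rw [lf_apply] at h4
        simp only [Complex.ofReal_one, one_mul, Prod.fst_zero, Prod.snd_zero, Complex.ofReal_zero,
          zero_mul, add_zero] at h4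
        exact h4
      · filter_upwards [Ioi_mem_nhds ht] with s hs
        exact hreal s (le_of_lt hs) x
    have hX1 : ((deriv (fun y => (FI (fun ξ => b ξ t) (y, x.2)).re) x.1 : ℝ) : ℂ) =
        FI (fun ξ => m1 ξ * b ξ t) x := by
      apply GLR_re (fun y => FI (fun ξ => b ξ t) (y, x.2))
      · exact (hDRV (fun ξ => b ξ t) C ε hε (hb.2.1 t ht') (fun y => hbd y t ht') x).1
      · exact Eventually.of_forall fun y => hreal t ht' (y, x.2)
    have hX2 : ((deriv (fun y => (FI (fun ξ => b ξ t) (x.1, y)).re) x.2 : ℝ) : ℂ) =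
        FI (fun ξ => m2 ξ * b ξ t) x := by
      apply GLR_re (fun y => FI (fun ξ => b ξ t) (x.1, y))
      · exact (hDRV (fun ξ => b ξ t) C ε hε (hb.2.1 t ht') (fun y => hbd y t ht') x).2
      · exact Eventually.of_forall fun y => hreal t ht' (x.1, y)
    simp only
    rw [hT, hX1, hX2]
    have hTR := hTRP b hb t ht' x
    have hk : FI (fun ξ => cnv k0 b b ξ t) x = FI (fun ξ => cnv kk b b ξ t) x := by
      have : (fun ξ => cnv k0 b b ξ t) = fun ξ => cnv kk b b ξ t := by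
        funext ξ
        exact hSMS b hb ξ t ht'
      rw [this]
    have hi1 : Integrable fun ξ => b1 ξ t * exi x ξ := by
      have := (hGPR.2 0 b1 hb1)
      exact GLR_int hIEX b1 this.1 this.2.1 t ht' x
    have hi2 : Integrable fun ξ => cnv kk b b ξ t * exi x ξ :=
      GLR_int hIEX _ hq.1 hq.2.1 t ht' x
    have hlast : (κ : ℂ) * FI (fun y => frl α y * b y t) x =
        -FI (fun ξ => b1 ξ t) x - FI (fun ξ => cnv kk b b ξ t) x := by
      have e1 : (κ : ℂ) * FI (fun y => frl α y * b y t) x =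
          ∫ ξ, ((-1 : ℂ) * (b1 ξ t * exi x ξ) - cnv kk b b ξ t * exi x ξ) := by
        unfold FI
        rw [← integral_const_mul]
        congr 1
        funext ξ
        rw [hb1e ξ t ht']
        unfold frl
        push_cast
        ring
      rw [e1, integral_sub (hi1.const_mul (-1)) hi2, integral_const_mul]
      unfold FI
      ring
    rw [hlast]
    have hgoal : FI (fun ξ => b1 ξ t) x +
        ((-FI (fun y => rz2 y * b y t) x) * FI (fun ξ => m1 ξ * b ξ t) x +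
          FI (fun y => rz1 y * b y t) x * FI (fun ξ => m2 ξ * b ξ t) x) +
        (-FI (fun ξ => b1 ξ t) x - FI (fun ξ => cnv kk b b ξ t) x) = 0 := by
      rw [hTR, hk]
      ring
    rw [← hgoal]
    ring

end Pool.SQW
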