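import Pool.Agent.Work.MP_a2fcf1_an_sp.Interface

/-! # Block GML (helper1) -/

open MeasureTheory Set Filter
open Pool.Agent.Work.MP_a2fcf1_an_h64 (lf)
open scoped ContDiff

namespace Pool.SQW

theorem GML_dec {m : ℝ × ℝ → ℂ} {b : ℝ × ℝ → ℝ → ℂ} (hm : Lin m) (hb : Dec b) :
    Dec fun ξ t => m ξ * b ξ t := by
  obtain ⟨-, M, hM, hMm⟩ := hm
  obtain ⟨C, ε, hε, hC, h1⟩ := hb
  refine ⟨M * (1 + 2 / ε) * C, ε / 2, by positivity, by positivity, fun ξ t ht => ?_⟩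
  have hl : 0 ≤ l1 ξ := add_nonneg (abs_nonneg _) (abs_nonneg _)
  have h2 : 1 + l1 ξ ≤ (1 + 2 / ε) * Real.exp (ε / 2 * l1 ξ) := by
    have h3 : 1 + ε / 2 * l1 ξ ≤ Real.exp (ε / 2 * l1 ξ) := by
      linarith [Real.add_one_le_exp (ε / 2 * l1 ξ)]
    calc 1 + l1 ξ ≤ (1 + 2 / ε) * (1 + ε / 2 * l1 ξ) := by
          have h4 : (1 + 2 / ε) * (1 + ε / 2 * l1 ξ) =
              1 + l1 ξ + (2 / ε + ε / 2 * l1 ξ) := by
            field_simp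
            ring
          rw [h4]
          have : 0 ≤ 2 / ε + ε / 2 * l1 ξ := by positivity
          linarith
      _ ≤ (1 + 2 / ε) * Real.exp (ε / 2 * l1 ξ) := by gcongr
  have h5 : Real.exp (ε / 2 * l1 ξ) * Real.exp (-(ε * l1 ξ)) = Real.exp (-(ε / 2 * l1 ξ)) := by
    rw [← Real.exp_add]
    congr 1
    ring
  calc ‖m ξ * b ξ t‖ = ‖m ξ‖ * ‖b ξ t‖ := norm_mul _ _
    _ ≤ (M * (1 + l1 ξ)) * (C * Real.exp (-(ε * l1 ξ))) :=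
        mul_le_mul (hMm ξ) (h1 ξ t ht) (norm_nonneg _) (by positivity)
    _ ≤ (M * ((1 + 2 / ε) * Real.exp (ε / 2 * l1 ξ))) * (C * Real.exp (-(ε * l1 ξ))) := by
        gcongr
    _ = M * (1 + 2 / ε) * C * (Real.exp (ε / 2 * l1 ξ) * Real.exp (-(ε * l1 ξ))) := by ring
    _ = M * (1 + 2 / ε) * C * Real.exp (-(ε / 2 * l1 ξ)) := by rw [h5]

theorem GML_mea {m : ℝ × ℝ → ℂ} {b : ℝ × ℝ → ℝ → ℂ} (hm : Lin m) (hb : Mea b) :
    Mea fun ξ t => m ξ * b ξ t := fun t ht => hm.1.mul (hb t ht)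

theorem GML_all : ∀ n m b, Lin m → Good n b → Good n fun ξ t => m ξ * b ξ t
  | 0, _, _, hm, ⟨h1, h2, h3⟩ =>
    ⟨GML_dec hm h1, GML_mea hm h2, fun ξ => continuousOn_const.mul (h3 ξ)⟩
  | (n + 1), m, _, hm, ⟨h1, h2, b', h3, h4⟩ =>
    ⟨GML_dec hm h1, GML_mea hm h2, fun ξ t => m ξ * b' ξ t, GML_all n m b' hm h3,
      fun ξ t ht => (h4 ξ t ht).const_mul (m ξ)⟩

theorem p_GML : S_GML := GML_all

end Pool.SQW
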