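import Pool.Agent.Work.MP_a2fcf1_an_sp.Interface

/-! # Block GPR (helper1) -/

open MeasureTheory Set Filter
open Pool.Agent.Work.MP_a2fcf1_an_h64 (lf)
open scoped ContDiff

namespace Pool.SQW

theorem GPR_succ : ∀ n b, Good (n + 1) b → Good n b
  | 0, _, ⟨h1, h2, _, _, h4⟩ => ⟨h1, h2, fun ξ t ht => (h4 ξ t ht).continuousWithinAt⟩
  | (n + 1), _, ⟨h1, h2, b', h3, h4⟩ => ⟨h1, h2, b', GPR_succ n b' h3, h4⟩

theorem p_GPR : S_GPR := by
  refine ⟨GPR_succ, fun n => ?_⟩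
  induction n with
  | zero => exact fun b h => h
  | succ n ih => exact fun b h => ih b (GPR_succ n b h)

end Pool.SQW
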