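import Pool.Agent.Work.MP_a2fcf1_an_sp.Interface

/-!
# Supercritical SQG on the plane: block GSY
-/

open MeasureTheory Set Filter

namespace Pool.SQW

/-- block GSY -/
theorem p_GSY (h1 : S_GAD) (h2 : S_GML) (h3 : S_GCN) (h4 : S_LMU) : S_GSY := by
  intro m k b hm hk hD hM hder n
  induction n with
  | zero =>
    exact ⟨hD, hM, fun ξ t ht => (hder ξ t ht).continuousWithinAt⟩
  | succ n ih =>
    refine ⟨hD, hM, fun ξ t => m ξ * b ξ t + (-1 : ℂ) * cnv k b b ξ t, ?_, ?_⟩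
    · exact h1 n _ _ (h2 n m b hm ih) (h2 n (fun _ => (-1 : ℂ)) (cnv k b b)
        (h4.2.2.2.2.1 (-1)) (h3 n k b b hk ih ih))
    · intro ξ t ht
      have h5 : m ξ * b ξ t + (-1 : ℂ) * cnv k b b ξ t = m ξ * b ξ t - cnv k b b ξ t := by ring
      show HasDerivWithinAt (b ξ) (m ξ * b ξ t + (-1 : ℂ) * cnv k b b ξ t) (Ici 0) t
      rw [h5]
      exact hder ξ t ht

end Pool.SQW
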