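import Pool.Agent.Work.MP_a2fcf1_an_sp.Interface

/-! # Block HHI (helper71) -/

open MeasureTheory Set Filter
open scoped ContDiff Topology

namespace Pool.SQW

theorem p_HHI (hI3 : S_I3) : S_HHI := by
  intro N δ hN hδ
  have h := (hI3 N hN).1.mul_prod (hI3 δ hδ).1
  rw [← Measure.volume_eq_prod] at h
  exact h

end Pool.SQW
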