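import Pool.Agent.Work.MP_a2fcf1_an_sp.Interface

/-! Block I1 (helper98). -/

open MeasureTheory Set Filter

noncomputable section

namespace Pool.SQW

theorem I1_abs (f : ℝ → ℝ) (h : IntegrableOn f (Ioi 0)) : Integrable (fun x => f |x|) := by
  have hf : IntegrableOn (fun x => f |x|) (Ioi 0) :=
    h.congr_fun (fun x hx => by
      have hx' : (0 : ℝ) < x := hx
      simp only [abs_of_pos hx']) measurableSet_Ioi
  have int_Iic : IntegrableOn (fun x ↦ f |x|) (Iic 0) := by
    rw [← Measure.map_neg_eq_self (volume : Measure ℝ)]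
    let m : MeasurableEmbedding fun x : ℝ => -x := (Homeomorph.neg ℝ).measurableEmbedding
    rw [m.integrableOn_map_iff]
    simp_rw [Function.comp_def, abs_neg, neg_preimage, neg_Iic, neg_zero]
    exact Iff.mpr integrableOn_Ici_iff_integrableOn_Ioi hf
  have h2 := int_Iic.union hf
  rw [Iic_union_Ioi] at h2
  exact integrableOn_univ.1 h2

theorem p_I1 : S_I1 := by
  intro p d hp hp1 hd
  obtain ⟨f, hf⟩ : ∃ f : ℝ → ℝ, f = fun x => x ^ (-p) * ((1 + x / d) ^ 2)⁻¹ := ⟨_, rfl⟩
  have hmeas : Measurable f := by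
    rw [hf]
    fun_prop
  have hnn : ∀ x, 0 < x → 0 ≤ f x := by
    intro x hx
    rw [hf]
    positivity
  -- the two bounds
  have b1 : ∀ x, 0 < x → f x ≤ x ^ (-p) := by
    intro x hx
    rw [hf]
    have h1 : (1 : ℝ) ≤ (1 + x / d) ^ 2 := by
      have : 0 < x / d := div_pos hx hd
      nlinarith
    exact mul_le_of_le_one_right (Real.rpow_nonneg hx.le _) (inv_le_one_of_one_le₀ h1)
  have b2 : ∀ x, 0 < x → f x ≤ d ^ 2 * x ^ (-p - 2) := by
    intro x hx
    rw [hf]
    have h1 : (x / d) ^ 2 ≤ (1 + x / d) ^ 2 := by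
      have : 0 < x / d := div_pos hx hd
      nlinarith
    have h2 : ((1 + x / d) ^ 2)⁻¹ ≤ ((x / d) ^ 2)⁻¹ := by
      apply inv_anti₀ (by positivity) h1
    have h3 : x ^ (-p - 2) = x ^ (-p) * (x ^ 2)⁻¹ := by
      rw [Real.rpow_sub hx, div_eq_mul_inv]
      norm_num
    rw [h3]
    calc x ^ (-p) * ((1 + x / d) ^ 2)⁻¹ ≤ x ^ (-p) * ((x / d) ^ 2)⁻¹ :=
          mul_le_mul_of_nonneg_left h2 (Real.rpow_nonneg hx.le _)
      _ = d ^ 2 * (x ^ (-p) * (x ^ 2)⁻¹) := by
          rw [div_pow, inv_div]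
          ring
  -- integrability
  have i1 : IntegrableOn (fun x : ℝ => x ^ (-p)) (Ioc 0 d) := by
    have := (intervalIntegral.intervalIntegrable_rpow' (a := 0) (b := d) (r := -p)
      (by linarith)).1
    exact this
  have i2 : IntegrableOn (fun x : ℝ => d ^ 2 * x ^ (-p - 2)) (Ioi d) :=
    (integrableOn_Ioi_rpow_of_lt (by linarith) hd).const_mul _
  have j1 : IntegrableOn f (Ioc 0 d) := by
    refine Integrable.mono' i1 hmeas.aestronglyMeasurable ?_
    filter_upwards [ae_restrict_mem measurableSet_Ioc] with x hx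
    rw [Real.norm_of_nonneg (hnn x hx.1)]
    exact b1 x hx.1
  have j2 : IntegrableOn f (Ioi d) := by
    refine Integrable.mono' i2 hmeas.aestronglyMeasurable ?_
    filter_upwards [ae_restrict_mem measurableSet_Ioi] with x hx
    have hx' : 0 < x := hd.trans hx
    rw [Real.norm_of_nonneg (hnn x hx')]
    exact b2 x hx'
  have j : IntegrableOn f (Ioi 0) := by
    rw [← Ioc_union_Ioi_eq_Ioi hd.le]
    exact j1.union j2
  have e0 : (fun x : ℝ => |x| ^ (-p) * ((1 + |x| / d) ^ 2)⁻¹) = fun x => f |x| := by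
    rw [hf]
  refine ⟨?_, ?_⟩
  · rw [e0]
    exact I1_abs f j
  · rw [e0, integral_comp_abs, ← Ioc_union_Ioi_eq_Ioi hd.le,
      setIntegral_union (Ioc_disjoint_Ioi le_rfl) measurableSet_Ioi j1 j2]
    have v1 : ∫ x in Ioc 0 d, f x ≤ d ^ (1 - p) / (1 - p) := by
      calc ∫ x in Ioc 0 d, f x ≤ ∫ x in Ioc 0 d, x ^ (-p) :=
            setIntegral_mono_on j1 i1 measurableSet_Ioc fun x hx => b1 x hx.1
        _ = ∫ x in (0 : ℝ)..d, x ^ (-p) := by
            rw [intervalIntegral.integral_of_le hd.le]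
        _ = d ^ (1 - p) / (1 - p) := by
            rw [integral_rpow (Or.inl (by linarith)), Real.zero_rpow (by linarith), sub_zero,
              neg_add_eq_sub]
    have v2 : ∫ x in Ioi d, f x ≤ d ^ (1 - p) / (1 + p) := by
      calc ∫ x in Ioi d, f x ≤ ∫ x in Ioi d, d ^ 2 * x ^ (-p - 2) :=
            setIntegral_mono_on j2 i2 measurableSet_Ioi fun x hx => b2 x (hd.trans hx)
        _ = d ^ 2 * (-d ^ (-p - 2 + 1) / (-p - 2 + 1)) := by
            rw [integral_const_mul, integral_Ioi_rpow_of_lt (by linarith) hd]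
        _ = d ^ (1 - p) / (1 + p) := by
            have e1 : -d ^ (-p - 2 + 1) / (-p - 2 + 1) = d ^ (-p - 1) / (1 + p) := by
              rw [show -p - 2 + 1 = -(1 + p) by ring, show -p - 1 = -(1 + p) by ring, neg_div_neg_eq]
            rw [e1, show (1 - p) = 2 + (-p - 1) by ring, Real.rpow_add hd, mul_div_assoc]
            norm_num
    have v3 : d ^ (1 - p) / (1 + p) ≤ d ^ (1 - p) / (1 - p) :=
      div_le_div_of_nonneg_left (Real.rpow_nonneg hd.le _) (by linarith) (by linarith)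
    have e4 : 4 * d ^ (1 - p) / (1 - p) = 4 * (d ^ (1 - p) / (1 - p)) := mul_div_assoc _ _ _
    rw [e4]
    linarith

end Pool.SQW
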