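import Pool.Agent.Work.MP_a2fcf1_an_sp.Interface

/-!
# Block I2: a one-dimensional integral
-/

open MeasureTheory Set Filter

namespace Pool.SQW

theorem i2_hasDeriv {p b x : ℝ} (hp : 0 < p) (hx : 0 < x + b) :
    HasDerivAt (fun x : ℝ => -((x + b) ^ (-p) / p)) ((x + b) ^ (-1 - p)) x := by
  have h1 : HasDerivAt (fun x : ℝ => x + b) 1 x := (hasDerivAt_id x).add_const b
  have h2 := (h1.rpow_const (p := -p) (Or.inl hx.ne')).div_const p
  have h3 := h2.neg
  refine h3.congr_deriv ?_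
  have e : -p - 1 = -1 - p := by ring
  rw [e]
  field_simp

theorem i2_neg {f : ℝ → ℝ} (hf : IntegrableOn (fun x => f |x|) (Ioi 0)) :
    Integrable (fun x => f |x|) := by
  have int_Iic : IntegrableOn (fun x ↦ f |x|) (Iic 0) := by
    rw [← Measure.map_neg_eq_self (volume : Measure ℝ)]
    let m : MeasurableEmbedding fun x : ℝ => -x := (Homeomorph.neg ℝ).measurableEmbedding
    rw [m.integrableOn_map_iff]
    simp_rw [Function.comp_def, abs_neg, neg_preimage, neg_Iic, neg_zero]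
    exact Iff.mpr integrableOn_Ici_iff_integrableOn_Ioi hf
  have := int_Iic.union hf
  rw [Iic_union_Ioi] at this
  exact integrableOn_univ.mp this

theorem p_I2 : S_I2 := by
  intro p b hp hb
  have hd : ∀ x ∈ Ici (0 : ℝ), HasDerivAt (fun x : ℝ => -((x + b) ^ (-p) / p))
      ((x + b) ^ (-1 - p)) x := by
    intro x hx
    have hx0 : (0 : ℝ) ≤ x := hx
    exact i2_hasDeriv hp (by linarith)
  have hpos : ∀ x ∈ Ioi (0 : ℝ), 0 ≤ (x + b) ^ (-1 - p) := by
    intro x hx
    have hx0 : (0 : ℝ) < x := hx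
    exact Real.rpow_nonneg (by linarith) _
  have hlim : Tendsto (fun x : ℝ => -((x + b) ^ (-p) / p)) atTop (nhds (-(0 / p))) := by
    have h1 : Tendsto (fun x : ℝ => x + b) atTop atTop := tendsto_atTop_add_const_right _ b tendsto_id
    have h2 : Tendsto (fun x : ℝ => (x + b) ^ (-p)) atTop (nhds 0) :=
      (tendsto_rpow_neg_atTop hp).comp h1
    exact (h2.div_const p).neg
  have hint : IntegrableOn (fun x : ℝ => (x + b) ^ (-1 - p)) (Ioi 0) :=
    integrableOn_Ioi_deriv_of_nonneg' hd hpos hlim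
  have hval : ∫ x in Ioi (0 : ℝ), (x + b) ^ (-1 - p) = -(0 / p) - -((0 + b) ^ (-p) / p) :=
    integral_Ioi_of_hasDerivAt_of_nonneg' hd hpos hlim
  have hint2 : IntegrableOn (fun x : ℝ => (fun y : ℝ => (y + b) ^ (-1 - p)) |x|) (Ioi 0) := by
    refine hint.congr_fun ?_ measurableSet_Ioi
    intro x hx
    have hx0 : (0 : ℝ) < x := hx
    simp only
    rw [abs_of_pos hx0]
  refine ⟨i2_neg (f := fun y : ℝ => (y + b) ^ (-1 - p)) hint2, ?_⟩
  rw [integral_comp_abs (f := fun y : ℝ => (y + b) ^ (-1 - p)), hval]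
  simp only [zero_div, neg_zero, zero_sub, neg_neg, zero_add]
  ring

end Pool.SQW
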