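import Pool.Agent.Work.MP_a2fcf1_an_sp.Interface

/-! # Block I3 (helper71) -/

open MeasureTheory Set Filter
open scoped ContDiff Topology

namespace Pool.SQW

theorem I3_half (d : ℝ) (hd : 0 < d) :
    ∫ x in Ioi (0 : ℝ), ((1 + x / d) ^ 2)⁻¹ = d := by
  have hder : ∀ x ∈ Ici (0 : ℝ), HasDerivAt (fun x : ℝ => -(d * (1 + x / d)⁻¹))
      (((1 + x / d) ^ 2)⁻¹) x := by
    intro x hx
    have hx0 : (0 : ℝ) ≤ x := hx
    have hpos : 0 < 1 + x / d := by positivity
    have h1 : HasDerivAt (fun x : ℝ => 1 + x / d) (1 / d) x := by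
      have := ((hasDerivAt_id x).div_const d).const_add 1
      simpa using this
    have h2 := (((h1.inv hpos.ne').const_mul d).neg)
    refine h2.congr_deriv ?_
    field_simp
  have hlim : Tendsto (fun x : ℝ => -(d * (1 + x / d)⁻¹)) atTop (𝓝 0) := by
    have h1 : Tendsto (fun x : ℝ => 1 + x / d) atTop atTop :=
      tendsto_atTop_add_const_left _ _ (tendsto_id.atTop_div_const hd)
    have h2 := (h1.inv_tendsto_atTop.const_mul d).neg
    simpa using h2
  have h3 := integral_Ioi_of_hasDerivAt_of_nonneg' hder (fun x hx => by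
    have hx0 : (0 : ℝ) < x := hx
    positivity) hlim
  rw [h3]
  simp

theorem p_I3 : S_I3 := by
  intro d hd
  have h1 : ∫ x : ℝ, ((1 + |x| / d) ^ 2)⁻¹ = 2 * d := by
    have h2 := integral_comp_abs (f := fun x : ℝ => ((1 + x / d) ^ 2)⁻¹)
    rw [h2, I3_half d hd]
  refine ⟨?_, h1⟩
  by_contra h3
  rw [integral_undef h3] at h1
  linarith

end Pool.SQW
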