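import Pool.Agent.Work.MP_a2fcf1_an_sp.Interface

/-! # Block IEX (helper1) -/

open MeasureTheory Set Filter
open Pool.Agent.Work.MP_a2fcf1_an_h64 (lf)
open scoped ContDiff

namespace Pool.SQW

theorem IEX_bound (ε : ℝ) (hε : 0 < ε) (x : ℝ) :
    Real.exp (-(ε * |x|)) ≤ (2 * Real.exp ε / ε ^ 2) * (1 + x ^ 2)⁻¹ := by
  have h1 := Real.pow_div_factorial_le_exp (ε * (1 + |x|)) (by positivity) 2
  have h2 : Real.exp (ε * (1 + |x|)) * Real.exp (-(ε * |x|)) = Real.exp ε := by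
    rw [← Real.exp_add]
    congr 1
    ring
  have h3 : 1 + x ^ 2 ≤ (1 + |x|) ^ 2 := by
    nlinarith [abs_nonneg x, sq_abs x]
  have h4 : (0 : ℝ) < 1 + x ^ 2 := by positivity
  rw [← div_eq_mul_inv, le_div_iff₀ h4, le_div_iff₀ (by positivity : (0 : ℝ) < ε ^ 2)]
  have h5 : (ε * (1 + |x|)) ^ 2 ≤ 2 * Real.exp (ε * (1 + |x|)) := by
    have : ((Nat.factorial 2 : ℕ) : ℝ) = 2 := by norm_num [Nat.factorial]
    rw [this] at h1
    linarith
  calc Real.exp (-(ε * |x|)) * (1 + x ^ 2) * ε ^ 2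
      ≤ Real.exp (-(ε * |x|)) * (1 + |x|) ^ 2 * ε ^ 2 := by gcongr
    _ = (ε * (1 + |x|)) ^ 2 * Real.exp (-(ε * |x|)) := by ring
    _ ≤ (2 * Real.exp (ε * (1 + |x|))) * Real.exp (-(ε * |x|)) := by gcongr
    _ = 2 * (Real.exp (ε * (1 + |x|)) * Real.exp (-(ε * |x|))) := by ring
    _ = 2 * Real.exp ε := by rw [h2]

theorem IEX_one (ε : ℝ) (hε : 0 < ε) : Integrable fun x : ℝ => Real.exp (-(ε * |x|)) := by
  refine (integrable_inv_one_add_sq.const_mul (2 * Real.exp ε / ε ^ 2)).mono' ?_ ?_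
  · exact (by fun_prop : Continuous fun x : ℝ => Real.exp (-(ε * |x|))).aestronglyMeasurable
  · refine Eventually.of_forall fun x => ?_
    rw [Real.norm_eq_abs, abs_of_pos (Real.exp_pos _)]
    exact IEX_bound ε hε x

theorem p_IEX : S_IEX := by
  intro ε hε
  have h := (IEX_one ε hε).mul_prod (IEX_one ε hε)
  refine h.congr (Eventually.of_forall fun y => ?_)
  simp only [l1]
  rw [← Real.exp_add]
  congr 1
  ring

end Pool.SQW
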