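import Pool.Agent.Work.MP_a2fcf1_an_sp.Interface

/-!
# Block JAA (typed by helper21): the constant profile
-/

open MeasureTheory Set Filter
open scoped ContDiff

namespace Pool.SQW

theorem JAA_cmp (hEUB : S_EUB) (α : ℝ) (h0 : 0 < α) (h1 : α < 1 / 2) (y : ℝ × ℝ) :
    eu y ^ (-1 - 2 * α) ≤ 4 * (|y.1| + |y.2|) ^ (-1 - 2 * α) := by
  obtain ⟨-, -, heu0, hl0, -, -, -, -, hel, hle, -⟩ := hEUB
  have hl : l1 y = |y.1| + |y.2| := rfl
  rw [← hl]
  rcases (heu0 y).eq_or_lt with h | h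
  · rw [← h, Real.zero_rpow (by linarith)]
    exact mul_nonneg (by norm_num) (Real.rpow_nonneg (hl0 y) _)
  · have h2 : l1 y ≤ 2 * eu y := hle y
    have h3 : 0 < l1 y := lt_of_lt_of_le h (hel y)
    have h4 : eu y ^ (-1 - 2 * α) ≤ (l1 y / 2) ^ (-1 - 2 * α) :=
      Real.rpow_le_rpow_of_nonpos (by positivity) (by linarith) (by linarith)
    have h5 : (l1 y / 2) ^ (-1 - 2 * α) = 2 ^ (1 + 2 * α) * l1 y ^ (-1 - 2 * α) := by
      rw [Real.div_rpow h3.le (by norm_num), div_eq_mul_inv,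
        ← Real.rpow_neg (by norm_num : (0 : ℝ) ≤ 2), mul_comm]
      congr 2
      ring
    have h6 : (2 : ℝ) ^ (1 + 2 * α) ≤ 4 := by
      have h7 : (2 : ℝ) ^ (1 + 2 * α) ≤ 2 ^ (2 : ℝ) :=
        Real.rpow_le_rpow_of_exponent_le (by norm_num) (by linarith)
      have h8 : (2 : ℝ) ^ (2 : ℝ) = 4 := by
        rw [Real.rpow_two]; norm_num
      rw [h8] at h7
      exact h7
    rw [h5] at h4
    exact h4.trans (mul_le_mul_of_nonneg_right h6 (Real.rpow_nonneg h3.le _))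

/-- the majorant -/
noncomputable def JAA_M (α δ C : ℝ) (y : ℝ × ℝ) : ℝ :=
  C * (4 * (|y.1| + |y.2|) ^ (-1 - 2 * α)) * ((1 + |y.2| / δ) ^ 2)⁻¹

theorem JAA_meas (α δ C : ℝ) : Measurable (JAA_M α δ C) := by
  have h1 : Measurable (fun y : ℝ × ℝ => |y.1| + |y.2|) :=
    (continuous_fst.abs.add continuous_snd.abs).measurable
  have h2 : Measurable (fun y : ℝ × ℝ => (1 + |y.2| / δ) ^ 2) :=
    ((continuous_const.add (continuous_snd.abs.div_const δ)).pow 2).measurable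
  exact ((h1.pow_const (-1 - 2 * α)).const_mul 4 |>.const_mul C).mul h2.inv

theorem JAA_slice (hI2 : S_I2) (α δ C : ℝ) (h0 : 0 < α) (hδ : 0 < δ) (hC : 0 < C) (b : ℝ)
    (hb : b ≠ 0) : Integrable (fun x => JAA_M α δ C (x, b)) ∧
      ∫ x, JAA_M α δ C (x, b) = C * 8 / (2 * α) * (|b| ^ (-(2 * α)) * ((1 + |b| / δ) ^ 2)⁻¹) := by
  obtain ⟨h1, h2⟩ := hI2 (2 * α) |b| (by linarith) (abs_pos.mpr hb)
  have h3 : (fun x => JAA_M α δ C (x, b)) =
      fun x => (C * 4 * ((1 + |b| / δ) ^ 2)⁻¹) * (|x| + |b|) ^ (-1 - 2 * α) := by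
    funext x
    unfold JAA_M
    ring
  rw [h3]
  refine ⟨h1.const_mul _, ?_⟩
  rw [integral_const_mul, h2]
  field_simp
  ring

theorem JAA_int (hI1 : S_I1) (hI2 : S_I2) (α δ C : ℝ) (h0 : 0 < α) (h1 : α < 1 / 2) (hδ : 0 < δ)
    (hC : 0 < C) : Integrable (JAA_M α δ C) ∧
      ∫ y, JAA_M α δ C y ≤ C * 8 / (2 * α) * (4 * δ ^ (1 - 2 * α) / (1 - 2 * α)) := by
  obtain ⟨h2, h3⟩ := hI1 (2 * α) δ (by linarith) (by linarith) hδ
  have hM0 : ∀ y, 0 ≤ JAA_M α δ C y := by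
    intro y
    unfold JAA_M
    have : 0 ≤ (|y.1| + |y.2|) ^ (-1 - 2 * α) := Real.rpow_nonneg (by positivity) _
    positivity
  have hae : ∀ᵐ b : ℝ, b ≠ 0 := by
    rw [ae_iff]
    simp
  have hI : Integrable (JAA_M α δ C) := by
    rw [Measure.volume_eq_prod]
    rw [integrable_prod_iff' (JAA_meas α δ C).aestronglyMeasurable]
    constructor
    · filter_upwards [hae] with b hb
      exact (JAA_slice hI2 α δ C h0 hδ hC b hb).1
    · have h4 : Integrable (fun b : ℝ => C * 8 / (2 * α) *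
          (|b| ^ (-(2 * α)) * ((1 + |b| / δ) ^ 2)⁻¹)) := h2.const_mul _
      refine h4.congr ?_
      filter_upwards [hae] with b hb
      rw [← (JAA_slice hI2 α δ C h0 hδ hC b hb).2]
      congr 1
      funext x
      rw [Real.norm_of_nonneg (hM0 _)]
  refine ⟨hI, ?_⟩
  have h5 : ∫ y, JAA_M α δ C y = ∫ b, ∫ x, JAA_M α δ C (x, b) := by
    have hI' := hI
    rw [Measure.volume_eq_prod] at hI' ⊢
    exact integral_prod_symm _ hI'
  have h6 : ∫ b : ℝ, ∫ x, JAA_M α δ C (x, b) = ∫ b : ℝ, C * 8 / (2 * α) *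
      (|b| ^ (-(2 * α)) * ((1 + |b| / δ) ^ 2)⁻¹) := by
    apply integral_congr_ae
    filter_upwards [hae] with b hb
    exact (JAA_slice hI2 α δ C h0 hδ hC b hb).2
  rw [h5, h6, integral_const_mul]
  exact mul_le_mul_of_nonneg_left h3 (by positivity)

theorem p_JAA (hI1 : S_I1) (hI2 : S_I2) (hEUB : S_EUB) (hNNB : S_NNB) : S_JAA := by
  intro α N δ A h0 h1 hN hδ hA
  obtain ⟨-, hhc, -, -, -, -, hhp, -⟩ := hNNB N δ hN hδ
  have hC : 0 < A / (N * δ) := by positivity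
  obtain ⟨C, hCd⟩ : ∃ C, C = A / (N * δ) := ⟨_, rfl⟩
  rw [← hCd] at hC ⊢
  have hle : ∀ y, JJ α N δ (fun _ => C) y ≤ JAA_M α δ C y := by
    intro y
    unfold JJ JAA_M hh
    have h2 := JAA_cmp hEUB α h0 h1 y
    have h3 : ((1 + |y.1| / N) ^ 2)⁻¹ ≤ 1 := by
      apply inv_le_one_of_one_le₀
      have h4 : 0 ≤ |y.1| / N := by positivity
      nlinarith
    have h5 : 0 ≤ ((1 + |y.2| / δ) ^ 2)⁻¹ := by positivity
    have h6 : ((1 + |y.1| / N) ^ 2)⁻¹ * ((1 + |y.2| / δ) ^ 2)⁻¹ ≤ ((1 + |y.2| / δ) ^ 2)⁻¹ :=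
      mul_le_of_le_one_left h5 h3
    have h7 : 0 ≤ 4 * (|y.1| + |y.2|) ^ (-1 - 2 * α) :=
      mul_nonneg (by norm_num) (Real.rpow_nonneg (by positivity) _)
    exact mul_le_mul (mul_le_mul_of_nonneg_left h2 hC.le) h6 (by positivity)
      (mul_nonneg hC.le h7)
  have h0' : ∀ y, 0 ≤ JJ α N δ (fun _ => C) y := by
    intro y
    exact mul_nonneg (mul_nonneg hC.le (Real.rpow_nonneg (hEUB.2.2.1 y) _)) (hhp y).le
  obtain ⟨hMi, hMb⟩ := JAA_int hI1 hI2 α δ C h0 h1 hδ hC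
  have hJm : Measurable (JJ α N δ fun _ => C) :=
    ((hEUB.1.measurable.pow_const (-1 - 2 * α)).const_mul C).mul hhc.measurable
  have hJi : Integrable (JJ α N δ fun _ => C) := by
    refine hMi.mono' hJm.aestronglyMeasurable (ae_of_all _ fun y => ?_)
    rw [Real.norm_of_nonneg (h0' y)]
    exact hle y
  refine ⟨⟨fun _ _ => hC.le, fun r s _ hrs => ⟨le_refl _, mul_le_mul_of_nonneg_left hrs hC.le⟩⟩,
    hJi, ?_⟩
  have h8 : ∫ y, JJ α N δ (fun _ => C) y ≤ C * 8 / (2 * α) *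
      (4 * δ ^ (1 - 2 * α) / (1 - 2 * α)) := (integral_mono hJi hMi hle).trans hMb
  have h9 : N * δ * (C * 8 / (2 * α) * (4 * δ ^ (1 - 2 * α) / (1 - 2 * α))) =
      32 / (2 * α * (1 - 2 * α)) * (A * δ ^ (1 - 2 * α)) := by
    have h10 : (1 - 2 * α) ≠ 0 := by
      have : 0 < 1 - 2 * α := by linarith
      exact this.ne'
    rw [hCd]
    field_simp
    ring
  rw [← h9]
  exact mul_le_mul_of_nonneg_left h8 (by positivity)

end Pool.SQW

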