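import Pool.Agent.Work.MP_a2fcf1_an_sp.Interface

set_option autoImplicit false

open MeasureTheory Set Filter
open scoped ContDiff

namespace Pool.SQW

theorem JBB_ae : ∀ᵐ y : ℝ × ℝ, y.1 ≠ 0 := by
  have h : ∀ᵐ x : ℝ, x ≠ 0 := compl_mem_ae_iff.2 (measure_singleton 0)
  rw [Measure.volume_eq_prod]
  exact Measure.quasiMeasurePreserving_fst.ae h

theorem JBB_pt (α N : ℝ) (h0 : 0 < α) (hN : 0 < N) (hE : ∀ y : ℝ × ℝ, |y.1| ≤ eu y)
    (y : ℝ × ℝ) (hy : y.1 ≠ 0) :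
    min 1 (eu y / N) * eu y ^ (-1 - 2 * α) ≤ N⁻¹ * |y.1| ^ (-(2 * α)) := by
  have h1 : 0 < |y.1| := abs_pos.2 hy
  have h2 : 0 < eu y := lt_of_lt_of_le h1 (hE y)
  have h3 : eu y ^ (-(2 * α)) = eu y * eu y ^ (-1 - 2 * α) := by
    have h4 : -(2 * α) = (1 : ℝ) + (-1 - 2 * α) := by ring
    rw [h4, Real.rpow_add h2, Real.rpow_one]
  calc min 1 (eu y / N) * eu y ^ (-1 - 2 * α) ≤ (eu y / N) * eu y ^ (-1 - 2 * α) :=
        mul_le_mul_of_nonneg_right (min_le_right _ _) (Real.rpow_nonneg h2.le _)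
    _ = N⁻¹ * eu y ^ (-(2 * α)) := by
        rw [h3]
        ring
    _ ≤ N⁻¹ * |y.1| ^ (-(2 * α)) :=
        mul_le_mul_of_nonneg_left
          (Real.rpow_le_rpow_of_nonpos h1 (hE y) (by linarith)) (inv_nonneg.2 hN.le)

theorem JBB_qc (N δ A : ℝ) (hN : 0 < N) (hδ : 0 < δ) (hA : 0 < A) :
    QC (fun r => A / (N * δ) * min 1 (r / N)) := by
  have hC : 0 < A / (N * δ) := by positivity
  constructor
  · intro r hr
    exact mul_nonneg hC.le (le_min zero_le_one (div_nonneg hr hN.le))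
  · intro r s hr hrs
    have hs : 0 ≤ s := hr.trans hrs
    constructor
    · exact mul_le_mul_of_nonneg_left
        (min_le_min le_rfl (div_le_div_of_nonneg_right hrs hN.le)) hC.le
    · have h1 : min 1 (s / N) * r ≤ min 1 (r / N) * s := by
        rw [min_mul_of_nonneg _ _ hs]
        refine le_min ?_ ?_
        · calc min 1 (s / N) * r ≤ 1 * r := mul_le_mul_of_nonneg_right (min_le_left _ _) hr
            _ ≤ 1 * s := by linarith
        · calc min 1 (s / N) * r ≤ s / N * r := mul_le_mul_of_nonneg_right (min_le_right _ _) hr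
            _ = r / N * s := by ring
      show A / (N * δ) * min 1 (s / N) * r ≤ A / (N * δ) * min 1 (r / N) * s
      calc A / (N * δ) * min 1 (s / N) * r = A / (N * δ) * (min 1 (s / N) * r) := by ring
        _ ≤ A / (N * δ) * (min 1 (r / N) * s) := mul_le_mul_of_nonneg_left h1 hC.le
        _ = A / (N * δ) * min 1 (r / N) * s := by ring

theorem p_JBB (h1 : S_I1) (h3 : S_I3) (hE : S_EUB) (hNN : S_NNB) : S_JBB := by
  intro α N δ A h0 h12 hN hδ hA
  obtain ⟨hec, -, he0, -, -, -, he1, -⟩ := hE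
  obtain ⟨-, hhc, -, -, -, -, hhp, -⟩ := hNN N δ hN hδ
  have hC : 0 < A / (N * δ) := by positivity
  obtain ⟨hi1, hb1⟩ := h1 (2 * α) N (by linarith) (by linarith) hN
  obtain ⟨hi3, hb3⟩ := h3 δ hδ
  have hG : Integrable (fun y : ℝ × ℝ =>
      (|y.1| ^ (-(2 * α)) * ((1 + |y.1| / N) ^ 2)⁻¹) * ((1 + |y.2| / δ) ^ 2)⁻¹) :=
    hi1.mul_prod hi3
  have hGi : ∫ y : ℝ × ℝ,
      (|y.1| ^ (-(2 * α)) * ((1 + |y.1| / N) ^ 2)⁻¹) * ((1 + |y.2| / δ) ^ 2)⁻¹ =
      (∫ x : ℝ, |x| ^ (-(2 * α)) * ((1 + |x| / N) ^ 2)⁻¹) *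
        ∫ x : ℝ, ((1 + |x| / δ) ^ 2)⁻¹ := by
    rw [Measure.volume_eq_prod]
    exact integral_prod_mul (fun x : ℝ => |x| ^ (-(2 * α)) * ((1 + |x| / N) ^ 2)⁻¹)
      (fun x : ℝ => ((1 + |x| / δ) ^ 2)⁻¹)
  have hpt : ∀ᵐ y : ℝ × ℝ, JJ α N δ (fun r => A / (N * δ) * min 1 (r / N)) y ≤
      (A / (N * δ) * N⁻¹) *
        ((|y.1| ^ (-(2 * α)) * ((1 + |y.1| / N) ^ 2)⁻¹) * ((1 + |y.2| / δ) ^ 2)⁻¹) := by
    filter_upwards [JBB_ae] with y hy
    have h5 := JBB_pt α N h0 hN he1 y hy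
    calc JJ α N δ (fun r => A / (N * δ) * min 1 (r / N)) y
        = A / (N * δ) * (min 1 (eu y / N) * eu y ^ (-1 - 2 * α)) * hh N δ y := by
          unfold JJ
          ring
      _ ≤ A / (N * δ) * (N⁻¹ * |y.1| ^ (-(2 * α))) * hh N δ y :=
          mul_le_mul_of_nonneg_right (mul_le_mul_of_nonneg_left h5 hC.le) (hhp y).le
      _ = _ := by
          unfold hh
          ring
  have hnn : ∀ y, 0 ≤ JJ α N δ (fun r => A / (N * δ) * min 1 (r / N)) y := by
    intro y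
    unfold JJ
    exact mul_nonneg (mul_nonneg (mul_nonneg hC.le
      (le_min zero_le_one (div_nonneg (he0 y) hN.le))) (Real.rpow_nonneg (he0 y) _)) (hhp y).le
  have hm : Measurable (JJ α N δ (fun r => A / (N * δ) * min 1 (r / N))) := by
    have hem : Measurable eu := hec.measurable
    have hhm : Measurable (hh N δ) := hhc.measurable
    unfold JJ
    exact ((measurable_const.mul (measurable_const.min (hem.div_const N))).mul
      (hem.pow_const _)).mul hhm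
  have hI : Integrable (JJ α N δ (fun r => A / (N * δ) * min 1 (r / N))) := by
    refine (hG.const_mul (A / (N * δ) * N⁻¹)).mono' hm.aestronglyMeasurable ?_
    filter_upwards [hpt] with y hy
    rw [Real.norm_of_nonneg (hnn y)]
    exact hy
  refine ⟨JBB_qc N δ A hN hδ hA, hI, ?_⟩
  have hp : N ^ (1 - 2 * α) = N * N ^ (-(2 * α)) := by
    have h4 : (1 - 2 * α) = (1 : ℝ) + (-(2 * α)) := by ring
    rw [h4, Real.rpow_add hN, Real.rpow_one]
  have h12' : 0 < 1 - 2 * α := by linarith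
  calc N * δ * ∫ y, JJ α N δ (fun r => A / (N * δ) * min 1 (r / N)) y
      ≤ N * δ * ∫ y : ℝ × ℝ, (A / (N * δ) * N⁻¹) *
        ((|y.1| ^ (-(2 * α)) * ((1 + |y.1| / N) ^ 2)⁻¹) * ((1 + |y.2| / δ) ^ 2)⁻¹) :=
        mul_le_mul_of_nonneg_left (integral_mono_ae hI (hG.const_mul _) hpt)
          (mul_pos hN hδ).le
    _ = N * δ * ((A / (N * δ) * N⁻¹) *
        ((∫ x : ℝ, |x| ^ (-(2 * α)) * ((1 + |x| / N) ^ 2)⁻¹) * (2 * δ))) := by
        rw [integral_const_mul, hGi, hb3]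
    _ ≤ N * δ * ((A / (N * δ) * N⁻¹) *
        ((4 * N ^ (1 - 2 * α) / (1 - 2 * α)) * (2 * δ))) := by
        refine mul_le_mul_of_nonneg_left (mul_le_mul_of_nonneg_left
          (mul_le_mul_of_nonneg_right hb1 (by positivity)) (by positivity))
          (mul_pos hN hδ).le
    _ = 8 / (1 - 2 * α) * (A * δ * N ^ (-(2 * α))) := by
        rw [hp]
        field_simp
        ring

end Pool.SQW
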