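import Pool.Agent.Work.MP_a2fcf1_an_sp.Interface

/-!
# Block KE: the integral of the kernel against two weights
-/

set_option autoImplicit false

open MeasureTheory Set Filter
open Pool.Agent.Work.MP_a2fcf1_an_h64 (lf)
open scoped ContDiff

namespace Pool.SQW

theorem p_KE (hWPT : S_WPT) (hREA : S_REA) (hFMO : S_FMO) (hPH0 : S_PH0) (hRHB : S_RHB)
    (hNNB : S_NNB) (hKKB : S_KKB) (hWME : S_WME) : S_KE := by
  intro P hP s hs ξ
  obtain ⟨_, hF⟩ := hFMO P hP
  obtain ⟨hFm, hF0, hFe, _, hFx, hFy⟩ := hF s hs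
  have hN : 0 < P.N := hP.2.2.2.1
  have hd : 0 < P.de := hP.2.2.2.2.1
  obtain ⟨_, hhc, hn0, _, _, _, hhpos, _, hheven, _, hhx, hhy, _⟩ := hNNB P.N P.de hN hd
  have hrh : 0 ≤ P.rh s := by
    have := ((hRHB P hP).2 s hs).1
    linarith
  obtain ⟨_, hW⟩ := hWME
  obtain ⟨_, hWm, hV0, hW0⟩ := hW P hP
  have hFh : Integrable fun y => P.F s y * hh P.N P.de y := hPH0 P hP s hs
  have hph : P.ph s = ∫ η, P.F s η * hh P.N P.de η := by
    unfold Par.ph
    rw [max_eq_left hs]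
  obtain ⟨hi1, hi2⟩ := hREA (P.F s) (hh P.N P.de) hFm hhc.measurable hF0 (fun y => (hhpos y).le)
    hFx hFy (fun a b c _ _ h => hhx a b c h) (fun a b d _ _ h => hhy a b d h) hFh ξ
  rw [← hph] at hi2
  -- the other two products
  have hj1 : Integrable fun η => P.F s (ξ - η) * hh P.N P.de (ξ - η) := hFh.comp_sub_left ξ
  have hj2 : ∫ η, P.F s (ξ - η) * hh P.N P.de (ξ - η) = P.ph s := by
    rw [hph]
    exact integral_sub_left_eq_self (fun η => P.F s η * hh P.N P.de η) volume ξ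
  have hk1 : Integrable fun η => P.F s (ξ - η) * hh P.N P.de η := by
    have h := hi1.comp_sub_left ξ
    simpa using h
  have hk2 : ∫ η, P.F s (ξ - η) * hh P.N P.de η = ∫ η, P.F s η * hh P.N P.de (ξ - η) := by
    have h := integral_sub_left_eq_self (fun η => P.F s η * hh P.N P.de (ξ - η)) volume ξ
    simpa using h
  have hexp : (fun η => (P.F s η + P.F s (ξ - η)) * (hh P.N P.de η + hh P.N P.de (ξ - η))) =
      fun η => (P.F s η * hh P.N P.de η + P.F s η * hh P.N P.de (ξ - η)) +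
        (P.F s (ξ - η) * hh P.N P.de η + P.F s (ξ - η) * hh P.N P.de (ξ - η)) := by
    funext η
    ring
  have hint : Integrable fun η => (P.F s η + P.F s (ξ - η)) *
      (hh P.N P.de η + hh P.N P.de (ξ - η)) := by
    rw [hexp]
    exact (hFh.add hi1).add (hk1.add hj1)
  have hval : ∫ η, (P.F s η + P.F s (ξ - η)) * (hh P.N P.de η + hh P.N P.de (ξ - η)) ≤
      10 * P.ph s := by
    have e1 : ∫ η, (P.F s η + P.F s (ξ - η)) * (hh P.N P.de η + hh P.N P.de (ξ - η)) =
        (∫ η, P.F s η * hh P.N P.de η + P.F s η * hh P.N P.de (ξ - η)) +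
        ∫ η, P.F s (ξ - η) * hh P.N P.de η + P.F s (ξ - η) * hh P.N P.de (ξ - η) := by
      rw [hexp]
      exact integral_add (hFh.add hi1) (hk1.add hj1)
    have e2 : ∫ η, P.F s η * hh P.N P.de η + P.F s η * hh P.N P.de (ξ - η) =
        (∫ η, P.F s η * hh P.N P.de η) + ∫ η, P.F s η * hh P.N P.de (ξ - η) :=
      integral_add hFh hi1
    have e3 : ∫ η, P.F s (ξ - η) * hh P.N P.de η + P.F s (ξ - η) * hh P.N P.de (ξ - η) =
        (∫ η, P.F s (ξ - η) * hh P.N P.de η) + ∫ η, P.F s (ξ - η) * hh P.N P.de (ξ - η) :=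
      integral_add hk1 hj1
    rw [e1, e2, e3, hj2, hk2, ← hph]
    linarith
  set A : ℝ := P.V ξ s * ((1 + nn P.N P.de ξ) ^ 4)⁻¹ with hA
  have hA0 : 0 ≤ A := by
    have h1 := hV0 ξ s
    have h2 := hn0 ξ
    positivity
  have hbd : ∀ η, |kk η (ξ - η)| * (P.W η s * P.W (ξ - η) s) ≤
      8 * (P.N * P.de) * A * ((P.F s η + P.F s (ξ - η)) *
        (hh P.N P.de η + hh P.N P.de (ξ - η))) := by
    intro η
    have h := hWPT P hP s hs hrh η (ξ - η)
    rw [add_sub_cancel] at h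
    exact h
  have hnn : ∀ η, 0 ≤ |kk η (ξ - η)| * (P.W η s * P.W (ξ - η) s) := fun η =>
    mul_nonneg (abs_nonneg _) (mul_nonneg (hW0 _ _) (hW0 _ _))
  have hmeas : Measurable fun η => |kk η (ξ - η)| * (P.W η s * P.W (ξ - η) s) := by
    have h1 : Measurable fun η : ℝ × ℝ => ξ - η := measurable_const.sub measurable_id
    have h2 : Measurable fun η : ℝ × ℝ => kk η (ξ - η) :=
      hKKB.1.1.comp (measurable_id.prodMk h1)
    have h3 : Measurable fun η : ℝ × ℝ => |kk η (ξ - η)| := continuous_abs.measurable.comp h2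
    exact h3.mul ((hWm s).mul ((hWm s).comp h1))
  have hint2 : Integrable fun η => 8 * (P.N * P.de) * A * ((P.F s η + P.F s (ξ - η)) *
      (hh P.N P.de η + hh P.N P.de (ξ - η))) := hint.const_mul _
  have hI : Integrable fun η => |kk η (ξ - η)| * (P.W η s * P.W (ξ - η) s) := by
    refine hint2.mono' hmeas.aestronglyMeasurable (Eventually.of_forall fun η => ?_)
    rw [Real.norm_eq_abs, abs_of_nonneg (hnn η)]
    exact hbd η
  refine ⟨hI, ?_⟩
  calc ∫ η, |kk η (ξ - η)| * (P.W η s * P.W (ξ - η) s)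
      ≤ ∫ η, 8 * (P.N * P.de) * A * ((P.F s η + P.F s (ξ - η)) *
        (hh P.N P.de η + hh P.N P.de (ξ - η))) := integral_mono hI hint2 hbd
    _ = 8 * (P.N * P.de) * A * ∫ η, (P.F s η + P.F s (ξ - η)) *
        (hh P.N P.de η + hh P.N P.de (ξ - η)) := integral_const_mul _ _
    _ ≤ 8 * (P.N * P.de) * A * (10 * P.ph s) :=
        mul_le_mul_of_nonneg_left hval (by positivity)
    _ = 80 * (P.N * P.de) * P.ph s * A := by ring

end Pool.SQW
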