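import Pool.Agent.Work.MP_a2fcf1_an_sp.Interface

/-! # Block KKB: the kernels of the nonlinearity -/

open MeasureTheory Set Filter
open scoped ContDiff

namespace Pool.SQW

theorem KKB_cr (η ζ : ℝ × ℝ) : cr ζ η = -cr η ζ := by
  unfold cr
  ring

theorem KKB_mul_inv (x : ℝ) : x * x⁻¹ ≤ 1 := mul_inv_le_one

theorem p_KKB (hEUB : S_EUB) : S_KKB := by
  obtain ⟨hce, -, he0, hl0, hen, -, -, -, hel, -, -, -, -, hcr⟩ := hEUB
  have hm1 : Measurable fun p : (ℝ × ℝ) × (ℝ × ℝ) => (eu p.1)⁻¹ :=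
    (hce.comp continuous_fst).measurable.inv
  have hm2 : Measurable fun p : (ℝ × ℝ) × (ℝ × ℝ) => (eu p.2)⁻¹ :=
    (hce.comp continuous_snd).measurable.inv
  have hmc : Measurable fun p : (ℝ × ℝ) × (ℝ × ℝ) => cr p.1 p.2 := by
    unfold cr
    fun_prop
  have hinv0 : ∀ y, 0 ≤ (eu y)⁻¹ := fun y => inv_nonneg.mpr (he0 y)
  have hb1 : ∀ η ζ, |cr η ζ| * (eu η)⁻¹ ≤ eu ζ := by
    intro η ζ
    calc |cr η ζ| * (eu η)⁻¹ ≤ eu η * eu ζ * (eu η)⁻¹ :=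
          mul_le_mul_of_nonneg_right (hcr η ζ) (hinv0 η)
      _ = (eu η * (eu η)⁻¹) * eu ζ := by ring
      _ ≤ 1 * eu ζ := mul_le_mul_of_nonneg_right (KKB_mul_inv _) (he0 ζ)
      _ = eu ζ := one_mul _
  have hb2 : ∀ η ζ, |cr η ζ| * (eu ζ)⁻¹ ≤ eu η := by
    intro η ζ
    have h := hb1 ζ η
    rwa [KKB_cr, abs_neg] at h
  have hk0 : ∀ η ζ, |k0 η ζ| ≤ 1 * ((1 + l1 η) * (1 + l1 ζ)) := by
    intro η ζ
    have h1 : |k0 η ζ| = |cr η ζ| * (eu η)⁻¹ := by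
      unfold k0
      rw [abs_mul, abs_of_nonneg (hinv0 η)]
    rw [h1]
    have h2 := hb1 η ζ
    have h3 := hel ζ
    have h4 := hl0 ζ
    have h5 := hl0 η
    nlinarith [mul_nonneg h4 h5]
  have hkk : ∀ η ζ, |kk η ζ| ≤ 1 * ((1 + l1 η) * (1 + l1 ζ)) := by
    intro η ζ
    have h1 : |kk η ζ| ≤ 1 / 2 * (|cr η ζ| * (eu η)⁻¹ + |cr η ζ| * (eu ζ)⁻¹) := by
      unfold kk
      rw [abs_mul, abs_mul, abs_of_pos (by norm_num : (0 : ℝ) < 1 / 2)]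
      have h2 : |(eu η)⁻¹ - (eu ζ)⁻¹| ≤ (eu η)⁻¹ + (eu ζ)⁻¹ := by
        rw [abs_le]
        have := hinv0 η
        have := hinv0 ζ
        constructor <;> linarith
      calc 1 / 2 * |cr η ζ| * |(eu η)⁻¹ - (eu ζ)⁻¹| ≤
          1 / 2 * |cr η ζ| * ((eu η)⁻¹ + (eu ζ)⁻¹) :=
            mul_le_mul_of_nonneg_left h2 (by positivity)
        _ = 1 / 2 * (|cr η ζ| * (eu η)⁻¹ + |cr η ζ| * (eu ζ)⁻¹) := by ring
    have h2 := hb1 η ζ
    have h3 := hb2 η ζ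
    have h4 := hel ζ
    have h5 := hel η
    have h6 := hl0 ζ
    have h7 := hl0 η
    nlinarith [mul_nonneg h6 h7]
  refine ⟨⟨?_, 1, zero_le_one, hkk⟩, ⟨?_, 1, zero_le_one, hk0⟩, ?_, ?_, ?_⟩
  · unfold kk
    exact (measurable_const.mul hmc).mul (hm1.sub hm2)
  · unfold k0
    exact hmc.mul hm1
  · intro η ζ
    unfold kk
    rw [KKB_cr η ζ]
    ring
  · intro η ζ
    have h : cr (-η) (-ζ) = cr η ζ := by
      unfold cr
      simp only [Prod.fst_neg, Prod.snd_neg]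
      ring
    unfold kk
    rw [h, hen, hen]
  · intro η ζ
    unfold k0 kk
    rw [KKB_cr η ζ]
    ring

end Pool.SQW
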