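import Pool.Agent.Work.MP_a2fcf1_an_sp.Interface

set_option autoImplicit false

open MeasureTheory Set Filter

noncomputable section

namespace Pool.SQW

theorem LIP_l1 (y : ℝ × ℝ) : 0 ≤ l1 y := add_nonneg (abs_nonneg _) (abs_nonneg _)

theorem LIP_sub {b c : ℝ × ℝ → ℝ → ℂ} (hb : Good 0 b) (hc : Good 0 c) :
    Good 0 (fun ξ t => b ξ t - c ξ t) := by
  obtain ⟨⟨C, ε, hε, hC, h1⟩, h2, h3⟩ := hb
  obtain ⟨⟨C', ε', hε', hC', h1'⟩, h2', h3'⟩ := hc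
  refine ⟨⟨C + C', min ε ε', lt_min hε hε', add_nonneg hC hC', fun ξ t ht => ?_⟩,
    fun t ht => (h2 t ht).sub (h2' t ht), fun ξ => (h3 ξ).sub (h3' ξ)⟩
  have e1 : Real.exp (-(ε * l1 ξ)) ≤ Real.exp (-(min ε ε' * l1 ξ)) :=
    Real.exp_le_exp.mpr (neg_le_neg (mul_le_mul_of_nonneg_right (min_le_left _ _) (LIP_l1 ξ)))
  have e2 : Real.exp (-(ε' * l1 ξ)) ≤ Real.exp (-(min ε ε' * l1 ξ)) :=
    Real.exp_le_exp.mpr (neg_le_neg (mul_le_mul_of_nonneg_right (min_le_right _ _) (LIP_l1 ξ)))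
  calc ‖b ξ t - c ξ t‖ ≤ ‖b ξ t‖ + ‖c ξ t‖ := norm_sub_le _ _
    _ ≤ C * Real.exp (-(ε * l1 ξ)) + C' * Real.exp (-(ε' * l1 ξ)) :=
      add_le_add (h1 ξ t ht) (h1' ξ t ht)
    _ ≤ C * Real.exp (-(min ε ε' * l1 ξ)) + C' * Real.exp (-(min ε ε' * l1 ξ)) :=
      add_le_add (mul_le_mul_of_nonneg_left e1 hC) (mul_le_mul_of_nonneg_left e2 hC')
    _ = (C + C') * Real.exp (-(min ε ε' * l1 ξ)) := by ring

theorem LIP_int {q : ℝ × ℝ → ℝ → ℂ} (hq : Good 0 q) (κ α : ℝ) (ξ : ℝ × ℝ) {t : ℝ} (ht : 0 ≤ t) :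
    IntervalIntegrable (fun s => ((Real.exp (κ * s * eu ξ ^ (2 * α)) : ℝ) : ℂ) * q ξ s)
      volume 0 t := by
  refine ContinuousOn.intervalIntegrable ?_
  rw [uIcc_of_le ht]
  refine ContinuousOn.mul ?_ ((hq.2.2 ξ).mono Icc_subset_Ici_self)
  refine Continuous.continuousOn ?_
  exact Complex.continuous_ofReal.comp (Real.continuous_exp.comp
    ((continuous_const.mul continuous_id).mul continuous_const))

theorem p_LIP (hNLB : S_NLB) (hCVL : S_CVL) (hCO0 : S_CO0) (hKKB : S_KKB) : S_LIP := by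
  intro P hP g b c R M hR hM hb hc hbR hcR hbc ξ t ht
  have hk := hKKB.1
  have hd := LIP_sub hb hc
  have g1 := hCO0 kk b b hk hb hb
  have g2 := hCO0 kk c c hk hc hc
  have g3 := hCO0 kk (fun ξ t => b ξ t - c ξ t) b hk hd hb
  have g4 := hCO0 kk c (fun ξ t => b ξ t - c ξ t) hk hc hd
  have n1 := hNLB P hP (fun ξ t => b ξ t - c ξ t) b M R hM hR hbc hbR ξ t ht
  have n2 := hNLB P hP c (fun ξ t => b ξ t - c ξ t) R M hR hM hcR hbc ξ t ht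
  have e0 : ∫ s in (0 : ℝ)..t, ((Real.exp (P.ka * s * eu ξ ^ (2 * P.al)) : ℝ) : ℂ) *
        cnv kk b b ξ s =
      (∫ s in (0 : ℝ)..t, ((Real.exp (P.ka * s * eu ξ ^ (2 * P.al)) : ℝ) : ℂ) *
        cnv kk c c ξ s) +
      ((∫ s in (0 : ℝ)..t, ((Real.exp (P.ka * s * eu ξ ^ (2 * P.al)) : ℝ) : ℂ) *
        cnv kk (fun ξ t => b ξ t - c ξ t) b ξ s) +
      ∫ s in (0 : ℝ)..t, ((Real.exp (P.ka * s * eu ξ ^ (2 * P.al)) : ℝ) : ℂ) *
        cnv kk c (fun ξ t => b ξ t - c ξ t) ξ s) := by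
    rw [← intervalIntegral.integral_add (LIP_int g3 _ _ ξ ht) (LIP_int g4 _ _ ξ ht),
      ← intervalIntegral.integral_add (LIP_int g2 _ _ ξ ht)
        ((LIP_int g3 _ _ ξ ht).add (LIP_int g4 _ _ ξ ht))]
    refine intervalIntegral.integral_congr fun s hs => ?_
    rw [uIcc_of_le ht] at hs
    have := hCVL b c hb hc ξ s hs.1
    have e : cnv kk b b ξ s = cnv kk c c ξ s + (cnv kk (fun ξ t => b ξ t - c ξ t) b ξ s +
        cnv kk c (fun ξ t => b ξ t - c ξ t) ξ s) := by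
      rw [← this]
      ring
    show ((Real.exp (P.ka * s * eu ξ ^ (2 * P.al)) : ℝ) : ℂ) * cnv kk b b ξ s = _
    rw [e]
    ring
  have e1 : duh P.ka P.al g (cnv kk b b) ξ t - duh P.ka P.al g (cnv kk c c) ξ t =
      -(((Real.exp (-(P.ka * t * eu ξ ^ (2 * P.al))) : ℝ) : ℂ) *
        ((∫ s in (0 : ℝ)..t, ((Real.exp (P.ka * s * eu ξ ^ (2 * P.al)) : ℝ) : ℂ) *
          cnv kk (fun ξ t => b ξ t - c ξ t) b ξ s) +
        ∫ s in (0 : ℝ)..t, ((Real.exp (P.ka * s * eu ξ ^ (2 * P.al)) : ℝ) : ℂ) *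
          cnv kk c (fun ξ t => b ξ t - c ξ t) ξ s)) := by
    unfold duh
    rw [e0]
    ring
  rw [e1, norm_neg, norm_mul, Complex.norm_real, Real.norm_of_nonneg (Real.exp_pos _).le]
  calc Real.exp (-(P.ka * t * eu ξ ^ (2 * P.al))) * _
      ≤ Real.exp (-(P.ka * t * eu ξ ^ (2 * P.al))) * (_ + _) :=
        mul_le_mul_of_nonneg_left (norm_add_le _ _) (Real.exp_pos _).le
    _ = _ + _ := mul_add _ _ _
    _ ≤ _ + _ := add_le_add n1 n2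
    _ = 800 * (P.N * P.de * P.Ph) * R * M * P.W ξ t := by ring

end Pool.SQW
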