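import Pool.Agent.Work.MP_a2fcf1_an_sp.Interface

/-!
# Block LMU: the multipliers of linear growth
-/

open MeasureTheory Set Filter
open scoped ContDiff

namespace Pool.SQW

theorem LMU_rz (z e : ℝ) (h : |z| ≤ e) : ‖-Complex.I * ((z / e : ℝ) : ℂ)‖ ≤ 1 := by
  rw [norm_mul, norm_neg, Complex.norm_I, one_mul, Complex.norm_real, Real.norm_eq_abs, abs_div]
  have he : 0 ≤ e := (abs_nonneg z).trans h
  rw [abs_of_nonneg he]
  exact div_le_one_of_le₀ h he

theorem LMU_pow (e α : ℝ) (he : 0 ≤ e) (h0 : 0 < α) (h1 : α < 1 / 2) :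
    e ^ (2 * α) ≤ 1 + e := by
  rcases le_total e 1 with h | h
  · have h2 : e ^ (2 * α) ≤ 1 := Real.rpow_le_one he h (by linarith)
    linarith
  · have h2 : e ^ (2 * α) ≤ e ^ (1 : ℝ) := Real.rpow_le_rpow_of_exponent_le h (by linarith)
    rw [Real.rpow_one] at h2
    linarith

theorem p_LMU (h1 : S_EUB) : S_LMU := by
  obtain ⟨hce, hcl, heu0, hl0, -, -, ha1, ha2, heul, -, -, -, -, -⟩ := h1
  have hme : Measurable eu := hce.measurable
  have key : ∀ (κ α : ℝ), 0 < α → α < 1 / 2 → ∀ ξ : ℝ × ℝ,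
      |κ * eu ξ ^ (2 * α)| ≤ |κ| * (1 + l1 ξ) := by
    intro κ α h0 h2 ξ
    have hp : 0 ≤ eu ξ ^ (2 * α) := Real.rpow_nonneg (heu0 ξ) _
    rw [abs_mul, abs_of_nonneg hp]
    apply mul_le_mul_of_nonneg_left _ (abs_nonneg _)
    have := LMU_pow (eu ξ) α (heu0 ξ) h0 h2
    have := heul ξ
    linarith
  have hmp : ∀ α : ℝ, Measurable fun ξ : ℝ × ℝ => eu ξ ^ (2 * α) := fun α => hme.pow_const _
  refine ⟨⟨?_, 1, zero_le_one, ?_⟩, ⟨?_, 1, zero_le_one, ?_⟩, ⟨?_, 1, zero_le_one, ?_⟩,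
    ⟨?_, 1, zero_le_one, ?_⟩, ?_, ?_⟩
  · unfold m1
    exact (Complex.measurable_ofReal.comp measurable_fst).const_mul _
  · intro ξ
    unfold m1
    rw [norm_mul, Complex.norm_I, one_mul, Complex.norm_real, Real.norm_eq_abs, one_mul]
    have := ha1 ξ
    have := heul ξ
    linarith
  · unfold m2
    exact (Complex.measurable_ofReal.comp measurable_snd).const_mul _
  · intro ξ
    unfold m2
    rw [norm_mul, Complex.norm_I, one_mul, Complex.norm_real, Real.norm_eq_abs, one_mul]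
    have := ha2 ξ
    have := heul ξ
    linarith
  · unfold rz1
    exact (Complex.measurable_ofReal.comp (measurable_fst.div hme)).const_mul _
  · intro ξ
    unfold rz1
    have := LMU_rz ξ.1 (eu ξ) (ha1 ξ)
    have := hl0 ξ
    linarith
  · unfold rz2
    exact (Complex.measurable_ofReal.comp (measurable_snd.div hme)).const_mul _
  · intro ξ
    unfold rz2
    have := LMU_rz ξ.2 (eu ξ) (ha2 ξ)
    have := hl0 ξ
    linarith
  · intro z
    refine ⟨measurable_const, ‖z‖, norm_nonneg _, ?_⟩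
    intro ξ
    have := hl0 ξ
    nlinarith [norm_nonneg z, mul_nonneg (norm_nonneg z) this]
  · intro κ α h0 h2
    refine ⟨⟨?_, 1, zero_le_one, ?_⟩, ⟨?_, |κ|, abs_nonneg _, ?_⟩⟩
    · unfold frl
      exact Complex.measurable_ofReal.comp (hmp α)
    · intro ξ
      unfold frl
      have := key 1 α h0 h2 ξ
      rw [Complex.norm_real, Real.norm_eq_abs]
      rw [one_mul, abs_one] at this
      exact this
    · exact (Complex.measurable_ofReal.comp ((hmp α).const_mul κ)).neg
    · intro ξ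
      rw [norm_neg, Complex.norm_real, Real.norm_eq_abs]
      exact key κ α h0 h2 ξ

end Pool.SQW
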