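import Pool.Agent.Work.MP_a2fcf1_an_sp.Interface

/-! # Block MOM (helper1) -/

open MeasureTheory Set Filter
open Pool.Agent.Work.MP_a2fcf1_an_h64 (lf)
open scoped ContDiff

namespace Pool.SQW

theorem p_MOM : S_MOM := by
  intro m ε hε
  refine ⟨(m.factorial : ℝ) * Real.exp ε / ε ^ m, fun x hx => ?_⟩
  have h1 := Real.pow_div_factorial_le_exp (ε * (1 + x)) (by positivity) m
  have hf : (0 : ℝ) < (m.factorial : ℝ) := by positivity
  rw [div_le_iff₀ hf] at h1
  have hem : 0 < ε ^ m := by positivity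
  rw [le_div_iff₀ hem]
  have h2 : Real.exp (ε * (1 + x)) * Real.exp (-(ε * x)) = Real.exp ε := by
    rw [← Real.exp_add]
    congr 1
    ring
  calc (1 + x) ^ m * Real.exp (-(ε * x)) * ε ^ m
      = (ε * (1 + x)) ^ m * Real.exp (-(ε * x)) := by rw [mul_pow]; ring
    _ ≤ (Real.exp (ε * (1 + x)) * m.factorial) * Real.exp (-(ε * x)) := by gcongr
    _ = m.factorial * (Real.exp (ε * (1 + x)) * Real.exp (-(ε * x))) := by ring
    _ = m.factorial * Real.exp ε := by rw [h2]

end Pool.SQW
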