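import Pool.Agent.Work.MP_a2fcf1_an_sp.Interface

/-! # NLB: the bilinear estimate -/

open MeasureTheory Set Filter
open scoped ContDiff

namespace Pool.SQW

theorem p_NLB (hKE : S_KE) (hNLT : S_NLT) (hWME : S_WME) (hPHC : S_PHC) (hRHB : S_RHB) :
    S_NLB := by
  intro P hP b c M M' hM hM' hb hc ξ t ht
  have hW : ∀ ξ t, 0 ≤ t → 0 ≤ P.W ξ t := fun ξ t _ => (hWME.2 P hP).2.2.2 ξ t
  -- the pointwise bound
  have h1 : ∀ s, 0 ≤ s → ‖cnv kk b c ξ s‖ ≤ M * M' *
      (80 * (P.N * P.de) * P.ph s * (P.V ξ s * ((1 + nn P.N P.de ξ) ^ 4)⁻¹)) := by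
    intro s hs
    obtain ⟨hi, hle⟩ := hKE P hP s hs ξ
    have h2 : ‖cnv kk b c ξ s‖ ≤
        ∫ η, M * M' * (|kk η (ξ - η)| * (P.W η s * P.W (ξ - η) s)) := by
      refine norm_integral_le_of_norm_le (hi.const_mul _) (Eventually.of_forall fun η => ?_)
      rw [norm_mul, norm_mul, Complex.norm_real, Real.norm_eq_abs]
      have e1 := mul_le_mul (hb η s hs) (hc (ξ - η) s hs) (norm_nonneg _)
        (mul_nonneg hM (hW η s hs))
      calc |kk η (ξ - η)| * (‖b η s‖ * ‖c (ξ - η) s‖)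
          ≤ |kk η (ξ - η)| * (M * P.W η s * (M' * P.W (ξ - η) s)) :=
            mul_le_mul_of_nonneg_left e1 (abs_nonneg _)
        _ = M * M' * (|kk η (ξ - η)| * (P.W η s * P.W (ξ - η) s)) := by ring
    rw [integral_const_mul] at h2
    exact h2.trans (mul_le_mul_of_nonneg_left hle (mul_nonneg hM hM'))
  have hc1 : Continuous P.ph := (hPHC P hP).1
  have hc2 : Continuous P.rh := (hRHB P hP).1
  have hcV : Continuous fun s => P.V ξ s := by
    unfold Par.V
    fun_prop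
  set g : ℝ → ℝ := fun s => Real.exp (P.ka * s * eu ξ ^ (2 * P.al)) *
    (80 * (P.N * P.de) * P.ph s * (P.V ξ s * ((1 + nn P.N P.de ξ) ^ 4)⁻¹)) with hg
  have hgc : Continuous g := by
    rw [hg]
    fun_prop
  have h3 : ‖∫ s in (0 : ℝ)..t, ((Real.exp (P.ka * s * eu ξ ^ (2 * P.al)) : ℝ) : ℂ) *
      cnv kk b c ξ s‖ ≤ ∫ s in (0 : ℝ)..t, M * M' * g s := by
    refine intervalIntegral.norm_integral_le_of_norm_le ht (Eventually.of_forall fun s hs => ?_)
      ((continuous_const.mul hgc).intervalIntegrable _ _)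
    rw [norm_mul, Complex.norm_real, Real.norm_eq_abs, abs_of_pos (Real.exp_pos _)]
    calc _ ≤ Real.exp (P.ka * s * eu ξ ^ (2 * P.al)) * (M * M' *
        (80 * (P.N * P.de) * P.ph s * (P.V ξ s * ((1 + nn P.N P.de ξ) ^ 4)⁻¹))) :=
          mul_le_mul_of_nonneg_left (h1 s hs.1.le) (Real.exp_pos _).le
      _ = M * M' * g s := by
          rw [hg]
          ring
  rw [intervalIntegral.integral_const_mul] at h3
  have h4 := hNLT P hP ξ t ht
  calc _ ≤ Real.exp (-(P.ka * t * eu ξ ^ (2 * P.al))) * (M * M' * ∫ s in (0 : ℝ)..t, g s) :=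
        mul_le_mul_of_nonneg_left h3 (Real.exp_pos _).le
    _ = M * M' * (Real.exp (-(P.ka * t * eu ξ ^ (2 * P.al))) * ∫ s in (0 : ℝ)..t, g s) := by ring
    _ ≤ M * M' * (400 * (P.N * P.de * P.Ph) * P.W ξ t) :=
        mul_le_mul_of_nonneg_left h4 (mul_nonneg hM hM')
    _ = _ := by ring

end Pool.SQW
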