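import Pool.Agent.Work.MP_a2fcf1_an_sp.Interface

/-! Block NLT: the time integral. -/

open MeasureTheory Set Filter
open scoped ContDiff

namespace Pool.SQW

theorem p_NLT (hTIM : S_TIM) (hPHC : S_PHC) (hPHF : S_PHF) : S_NLT := by
  intro P hP ξ t ht
  obtain ⟨hcont, hnn⟩ := hPHC P hP
  have hPhi := hPHF P hP
  obtain ⟨-, -, hka, hN, hde, hPh, hw, -, -⟩ := hP
  have hn : 0 ≤ nn P.N P.de ξ := by
    unfold nn
    positivity
  have hw0 : 0 ≤ P.w (eu ξ) := hw.1 _ (Real.sqrt_nonneg _)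
  have htim := hTIM P.ph P.Ph hcont hnn hPh hPhi t (nn P.N P.de ξ) ht hn
  -- the integrand
  have hint : ∀ s : ℝ, Real.exp (P.ka * s * eu ξ ^ (2 * P.al)) *
      (80 * (P.N * P.de) * P.ph s * (P.V ξ s * ((1 + nn P.N P.de ξ) ^ 4)⁻¹)) =
      (80 * (P.N * P.de) * P.w (eu ξ) * Real.exp (-(P.rh t * nn P.N P.de ξ)) *
        ((1 + nn P.N P.de ξ) ^ 5)⁻¹) *
      ((1 + nn P.N P.de ξ) * Real.exp (-(((∫ r in (0 : ℝ)..t, P.ph r) -
        ∫ r in (0 : ℝ)..s, P.ph r) / (4 * P.Ph) * nn P.N P.de ξ)) * P.ph s) := by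
    intro s
    have e1 : Real.exp (P.ka * s * eu ξ ^ (2 * P.al)) *
        Real.exp (-(P.ka * s * eu ξ ^ (2 * P.al)) - P.rh s * nn P.N P.de ξ) =
        Real.exp (-(P.rh t * nn P.N P.de ξ)) *
        Real.exp (-(((∫ r in (0 : ℝ)..t, P.ph r) -
          ∫ r in (0 : ℝ)..s, P.ph r) / (4 * P.Ph) * nn P.N P.de ξ)) := by
      rw [← Real.exp_add, ← Real.exp_add]
      congr 1
      unfold Par.rh Par.Ps
      ring
    have e2 : ((1 + nn P.N P.de ξ) ^ 4)⁻¹ =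
        ((1 + nn P.N P.de ξ) ^ 5)⁻¹ * (1 + nn P.N P.de ξ) := by
      have : (1 + nn P.N P.de ξ) ≠ 0 := by positivity
      field_simp
    unfold Par.V
    rw [e2]
    calc Real.exp (P.ka * s * eu ξ ^ (2 * P.al)) *
        (80 * (P.N * P.de) * P.ph s * (P.w (eu ξ) *
          Real.exp (-(P.ka * s * eu ξ ^ (2 * P.al)) - P.rh s * nn P.N P.de ξ) *
          (((1 + nn P.N P.de ξ) ^ 5)⁻¹ * (1 + nn P.N P.de ξ))))
        = (Real.exp (P.ka * s * eu ξ ^ (2 * P.al)) *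
            Real.exp (-(P.ka * s * eu ξ ^ (2 * P.al)) - P.rh s * nn P.N P.de ξ)) *
          (80 * (P.N * P.de) * P.ph s * (P.w (eu ξ) *
          (((1 + nn P.N P.de ξ) ^ 5)⁻¹ * (1 + nn P.N P.de ξ)))) := by ring
      _ = _ := by rw [e1]; ring
  have hI : (∫ s in (0 : ℝ)..t, Real.exp (P.ka * s * eu ξ ^ (2 * P.al)) *
        (80 * (P.N * P.de) * P.ph s * (P.V ξ s * ((1 + nn P.N P.de ξ) ^ 4)⁻¹))) ≤
      (80 * (P.N * P.de) * P.w (eu ξ) * Real.exp (-(P.rh t * nn P.N P.de ξ)) *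
        ((1 + nn P.N P.de ξ) ^ 5)⁻¹) * (5 * P.Ph) := by
    rw [intervalIntegral.integral_congr (fun s _ => hint s), intervalIntegral.integral_const_mul]
    exact mul_le_mul_of_nonneg_left htim (by positivity)
  refine (mul_le_mul_of_nonneg_left hI (Real.exp_pos _).le).trans (le_of_eq ?_)
  unfold Par.W Par.V
  have e3 : Real.exp (-(P.ka * t * eu ξ ^ (2 * P.al)) - P.rh t * nn P.N P.de ξ) =
      Real.exp (-(P.ka * t * eu ξ ^ (2 * P.al))) * Real.exp (-(P.rh t * nn P.N P.de ξ)) := by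
    rw [← Real.exp_add]
    congr 1
  rw [e3]
  ring

end Pool.SQW
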