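import Pool.Agent.Work.MP_a2fcf1_an_sp.Interface

open MeasureTheory Set Filter
open scoped ContDiff

namespace Pool.SQW

theorem NNB_anti {a b : ℝ} (ha : 0 ≤ a) (h : a ≤ b) : ((1 + b) ^ 2)⁻¹ ≤ ((1 + a) ^ 2)⁻¹ :=
  inv_anti₀ (by positivity) (pow_le_pow_left₀ (by linarith) (by linarith) 2)

theorem p_NNB : S_NNB := by
  intro N δ hN hδ
  have hA : ∀ y : ℝ × ℝ, 0 ≤ |y.1| / N := fun y => div_nonneg (abs_nonneg _) hN.le
  have hB : ∀ y : ℝ × ℝ, 0 ≤ |y.2| / δ := fun y => div_nonneg (abs_nonneg _) hδ.le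
  have hAe : ∀ y : ℝ × ℝ, |y.1| = N * (|y.1| / N) := fun y => by field_simp
  have hBe : ∀ y : ℝ × ℝ, |y.2| = δ * (|y.2| / δ) := fun y => by field_simp
  have c1 : Continuous fun y : ℝ × ℝ => |y.1| / N := continuous_fst.abs.div_const N
  have c2 : Continuous fun y : ℝ × ℝ => |y.2| / δ := continuous_snd.abs.div_const δ
  refine ⟨c1.add c2, ?_, fun y => add_nonneg (hA y) (hB y), ?_, ?_, ?_, ?_, ?_, ?_, ?_, ?_, ?_, ?_⟩
  · unfold hh
    refine Continuous.mul ?_ ?_
    · refine ((continuous_const.add c1).pow 2).inv₀ fun y => ?_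
      show (1 + |y.1| / N) ^ 2 ≠ 0
      have := hA y
      positivity
    · refine ((continuous_const.add c2).pow 2).inv₀ fun y => ?_
      show (1 + |y.2| / δ) ^ 2 ≠ 0
      have := hB y
      positivity
  · intro y
    simp [nn]
  · intro y z
    unfold nn
    have h1 : |(y + z).1| / N ≤ |y.1| / N + |z.1| / N := by
      rw [← add_div]
      exact div_le_div_of_nonneg_right (abs_add_le _ _) hN.le
    have h2 : |(y + z).2| / δ ≤ |y.2| / δ + |z.2| / δ := by
      rw [← add_div]
      exact div_le_div_of_nonneg_right (abs_add_le _ _) hδ.le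
    linarith
  · intro y z
    have h1 : |cr y z| ≤ |y.1| * |z.2| + |y.2| * |z.1| := by
      unfold cr
      calc |y.1 * z.2 - y.2 * z.1| ≤ |y.1 * z.2| + |y.2 * z.1| := abs_sub _ _
        _ = |y.1| * |z.2| + |y.2| * |z.1| := by rw [abs_mul, abs_mul]
    refine h1.trans ?_
    rw [hAe y, hBe y, hAe z, hBe z]
    unfold nn
    rw [← hAe y, ← hBe y, ← hAe z, ← hBe z]
    have e1 : |y.1| * |z.2| = N * δ * (|y.1| / N * (|z.2| / δ)) := by field_simp
    have e2 : |y.2| * |z.1| = N * δ * (|y.2| / δ * (|z.1| / N)) := by field_simp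
    rw [e1, e2, ← mul_add]
    refine mul_le_mul_of_nonneg_left ?_ (by positivity)
    nlinarith [mul_nonneg (hA y) (hA z), mul_nonneg (hB y) (hB z)]
  · intro y
    unfold hh
    have := hA y
    have := hB y
    positivity
  · intro y
    unfold hh
    have h1 := NNB_anti le_rfl (hA y)
    have h2 := NNB_anti le_rfl (hB y)
    norm_num at h1 h2
    refine mul_le_one₀ h1 ?_ h2
    have := hB y
    positivity
  · intro y
    simp [hh]
  · intro y
    unfold hh
    rw [← mul_inv]
    have hA' := hA y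
    have hB' := hB y
    refine inv_anti₀ (by positivity) ?_
    have h1 : (1 + |y.1| / N) ^ 2 ≤ (1 + nn N δ y) ^ 2 := by
      unfold nn
      exact pow_le_pow_left₀ (by positivity) (by linarith) 2
    have h2 : (1 + |y.2| / δ) ^ 2 ≤ (1 + nn N δ y) ^ 2 := by
      unfold nn
      exact pow_le_pow_left₀ (by positivity) (by linarith) 2
    calc (1 + |y.1| / N) ^ 2 * (1 + |y.2| / δ) ^ 2 ≤ (1 + nn N δ y) ^ 2 * (1 + nn N δ y) ^ 2 :=
          mul_le_mul h1 h2 (by positivity) (by positivity)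
      _ = (1 + nn N δ y) ^ 4 := by ring
  · intro a b c h
    unfold hh
    refine mul_le_mul_of_nonneg_right ?_ (by positivity)
    exact NNB_anti (by positivity) (div_le_div_of_nonneg_right h hN.le)
  · intro a b d h
    unfold hh
    refine mul_le_mul_of_nonneg_left ?_ (by positivity)
    exact NNB_anti (by positivity) (div_le_div_of_nonneg_right h hδ.le)
  · intro y
    unfold l1
    rw [hAe y, hBe y]
    unfold nn
    rw [← hAe y, ← hBe y]
    have e1 : |y.1| = N * (|y.1| / N) := hAe y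
    have e2 : |y.2| = δ * (|y.2| / δ) := hBe y
    have h1 := mul_nonneg hδ.le (hA y)
    have h2 := mul_nonneg hN.le (hB y)
    calc |y.1| + |y.2| = N * (|y.1| / N) + δ * (|y.2| / δ) := by rw [← e1, ← e2]
      _ ≤ (N + δ) * (|y.1| / N + |y.2| / δ) := by nlinarith

end Pool.SQW
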