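import Pool.Agent.Work.MP_a2fcf1_an_sp.Interface

/-! # Block PH0 -/

open MeasureTheory Set Filter
open scoped ContDiff

noncomputable section

namespace Pool.SQW

theorem PH0_eu_nonneg (y : ℝ × ℝ) : 0 ≤ eu y := Real.sqrt_nonneg _

theorem PH0_bound (w : ℝ → ℝ) (hw : QC w) (α r : ℝ) (hα : 0 < α) (hr : 0 ≤ r) :
    w r * r⁻¹ ≤ w r * r ^ (-1 - 2 * α) + w 1 := by
  have hwr : 0 ≤ w r := hw.1 r hr
  have hw1 : 0 ≤ w 1 := hw.1 1 zero_le_one
  rcases eq_or_lt_of_le hr with h0 | h0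
  · rw [← h0, inv_zero, mul_zero]
    have : 0 ≤ w 0 * (0 : ℝ) ^ (-1 - 2 * α) :=
      mul_nonneg (hw.1 0 le_rfl) (Real.rpow_nonneg le_rfl _)
    linarith
  · rcases le_total r 1 with h1 | h1
    · have h2 : r⁻¹ ≤ r ^ (-1 - 2 * α) := by
        rw [← Real.rpow_neg_one]
        exact Real.rpow_le_rpow_of_exponent_ge h0 h1 (by linarith)
      have := mul_le_mul_of_nonneg_left h2 hwr
      linarith
    · have h2 := (hw.2 1 r zero_le_one h1).2
      have h3 : w r * r⁻¹ ≤ w 1 := by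
        rw [← div_eq_mul_inv, div_le_iff₀ h0]
        linarith
      have h4 : 0 ≤ w r * r ^ (-1 - 2 * α) := mul_nonneg hwr (Real.rpow_nonneg hr _)
      linarith

theorem p_PH0 (h1 : S_FMO) (h2 : S_HHI) (h3 : S_NNB) : S_PH0 := by
  intro P hP s hs
  obtain ⟨hal, -, -, hN, hde, -, hQ, hJ, -⟩ := id hP
  obtain ⟨-, hF⟩ := h1 P hP
  obtain ⟨hm, hnn, -, hF0, -, -⟩ := hF s hs
  obtain ⟨-, hhc, -, -, -, -, hpos, -⟩ := h3 P.N P.de hN hde
  have hH := h2 P.N P.de hN hde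
  refine (hJ.add (hH.const_mul (P.w 1))).mono' (hm.mul hhc.measurable).aestronglyMeasurable ?_
  refine Filter.Eventually.of_forall fun y => ?_
  have hp := (hpos y).le
  rw [Real.norm_eq_abs, abs_of_nonneg (mul_nonneg (hnn y) hp)]
  have e0 : P.F 0 y = P.w (eu y) * (eu y)⁻¹ := by
    unfold Par.F
    rw [mul_zero, zero_mul, neg_zero, Real.exp_zero, mul_one]
  have hb := PH0_bound P.w hQ P.al (eu y) hal (PH0_eu_nonneg y)
  have h5 := hF0 y
  rw [e0] at h5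
  have h6 := mul_le_mul_of_nonneg_right (h5.trans hb) hp
  calc P.F s y * hh P.N P.de y
      ≤ (P.w (eu y) * eu y ^ (-1 - 2 * P.al) + P.w 1) * hh P.N P.de y := h6
    _ = JJ P.al P.N P.de P.w y + P.w 1 * hh P.N P.de y := by
        unfold JJ
        ring
    _ ≤ (JJ P.al P.N P.de P.w + fun y => P.w 1 * hh P.N P.de y) y := le_rfl

end Pool.SQW
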