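import Pool.Agent.Work.MP_a2fcf1_an_sp.Interface

/-!
# Supercritical SQG on the plane: block PHC
-/

open MeasureTheory Set Filter
open scoped ContDiff

namespace Pool.SQW

theorem PHC_hh (N δ : ℝ) (y : ℝ × ℝ) : 0 ≤ hh N δ y := by
  unfold hh
  positivity

theorem p_PHC (hFMO : S_FMO) (hPH0 : S_PH0) : S_PHC := by
  intro P hP
  obtain ⟨_, hF⟩ := hFMO P hP
  have h0 : ∀ s y, 0 ≤ P.F (max s 0) y * hh P.N P.de y := fun s y =>
    mul_nonneg ((hF _ (le_max_right _ _)).2.1 y) (PHC_hh _ _ _)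
  refine ⟨?_, fun s => integral_nonneg (h0 s)⟩
  refine continuous_of_dominated (bound := fun y => P.F 0 y * hh P.N P.de y) (fun s => ?_)
    (fun s => ?_) ?_ ?_
  · exact (hPH0 P hP _ (le_max_right _ _)).aestronglyMeasurable
  · refine Eventually.of_forall fun y => ?_
    rw [Real.norm_of_nonneg (h0 s y)]
    exact mul_le_mul_of_nonneg_right ((hF _ (le_max_right _ _)).2.2.2.1 y) (PHC_hh _ _ _)
  · exact hPH0 P hP 0 le_rfl
  · refine Eventually.of_forall fun y => ?_
    unfold Par.F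
    fun_prop

end Pool.SQW
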