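import Pool.Agent.Work.MP_a2fcf1_an_sp.Interface

open MeasureTheory Set Filter
open Pool.Agent.Work.MP_a2fcf1_an_h64 (lf)
open scoped ContDiff

namespace Pool.SQW

theorem PHF_eu : Continuous eu := by
  unfold eu
  fun_prop

theorem PHF_exp (c T : ℝ) (hc : 0 < c) :
    ∫ s in (0 : ℝ)..T, Real.exp (-(s * c)) ≤ 1 / c := by
  have h1 : ∀ s ∈ uIcc (0 : ℝ) T, HasDerivAt (fun s => -(Real.exp (-(s * c)) / c))
      (Real.exp (-(s * c))) s := by
    intro s _
    have h2 : HasDerivAt (fun s : ℝ => -(s * c)) (-(1 * c)) s :=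
      ((hasDerivAt_id s).mul_const c).neg
    have h3 : HasDerivAt (fun s => -(Real.exp (-(s * c)) / c))
        (-(Real.exp (-(s * c)) * (-(1 * c)) / c)) s := (h2.exp.div_const c).neg
    have h4 : -(Real.exp (-(s * c)) * (-(1 * c)) / c) = Real.exp (-(s * c)) := by
      rw [one_mul, mul_neg, neg_div, neg_neg, mul_div_assoc, div_self hc.ne', mul_one]
    rw [h4] at h3
    exact h3
  rw [intervalIntegral.integral_eq_sub_of_hasDerivAt h1
    ((by fun_prop : Continuous fun s : ℝ => Real.exp (-(s * c))).intervalIntegrable _ _)]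
  have h4 : 0 ≤ Real.exp (-(T * c)) / c := by positivity
  have h5 : Real.exp (-(0 * c)) / c = 1 / c := by simp
  rw [h5]
  linarith

theorem p_PHF (hFMO : S_FMO) (hPH0 : S_PH0) : S_PHF := by
  intro P hP T hT
  obtain ⟨hal, hal2, hka, hN, hde, hPh, hQC, hJI, hJ⟩ := id hP
  obtain ⟨hlam, hF⟩ := hFMO P hP
  obtain ⟨hF0m, hF0n, -, -, -, -⟩ := hF 0 le_rfl
  have hI0 : Integrable fun y => P.F 0 y * hh P.N P.de y := hPH0 P hP 0 le_rfl
  have hFs : ∀ s η, P.F s η = P.F 0 η * Real.exp (-(s * (P.lam * eu η ^ (2 * P.al)))) := by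
    intro s η
    unfold Par.F
    rw [mul_zero, zero_mul, neg_zero, Real.exp_zero, mul_one]
    congr 2
    ring
  have hh0 : ∀ y, 0 ≤ hh P.N P.de y := fun y => by unfold hh; positivity
  have heu : ∀ y, 0 ≤ eu y := fun y => Real.sqrt_nonneg _
  obtain ⟨G, hG⟩ : ∃ G : ℝ → ℝ × ℝ → ℝ, ∀ s η, G s η =
      P.F 0 η * hh P.N P.de η * Real.exp (-(s * (P.lam * eu η ^ (2 * P.al)))) :=
    ⟨_, fun _ _ => rfl⟩
  have hph : ∀ s, 0 ≤ s → P.ph s = ∫ η, G s η := by
    intro s hs
    unfold Par.ph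
    refine integral_congr_ae (Eventually.of_forall fun η => ?_)
    show P.F (max s 0) η * hh P.N P.de η = G s η
    rw [max_eq_left hs, hFs, hG]
    ring
  have h1 : P.Ps T = ∫ s in Ioc (0 : ℝ) T, ∫ η, G s η := by
    unfold Par.Ps
    rw [intervalIntegral.integral_of_le hT]
    refine setIntegral_congr_fun measurableSet_Ioc fun s hs => ?_
    exact hph s hs.1.le
  have hhm : Measurable (hh P.N P.de) := by
    unfold hh
    fun_prop
  have hI : Integrable (Function.uncurry G) ((volume.restrict (Ioc (0 : ℝ) T)).prod volume) := by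
    have h2 : Integrable (fun p : ℝ × (ℝ × ℝ) => P.F 0 p.2 * hh P.N P.de p.2)
        ((volume.restrict (Ioc (0 : ℝ) T)).prod volume) := hI0.comp_snd _
    have hmeas : Measurable (Function.uncurry G) := by
      have : Function.uncurry G = fun p : ℝ × (ℝ × ℝ) =>
          P.F 0 p.2 * hh P.N P.de p.2 * Real.exp (-(p.1 * (P.lam * eu p.2 ^ (2 * P.al)))) := by
        funext p
        exact hG _ _
      rw [this]
      have m1 : Measurable fun p : ℝ × (ℝ × ℝ) => P.F 0 p.2 := hF0m.comp measurable_snd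
      have m2 : Measurable fun p : ℝ × (ℝ × ℝ) => hh P.N P.de p.2 := hhm.comp measurable_snd
      have m3 : Measurable fun p : ℝ × (ℝ × ℝ) => eu p.2 := PHF_eu.measurable.comp measurable_snd
      fun_prop
    refine h2.mono' hmeas.aestronglyMeasurable ?_
    have h3 : ∀ᵐ p ∂((volume.restrict (Ioc (0 : ℝ) T)).prod (volume : Measure (ℝ × ℝ))),
        p.1 ∈ Ioc (0 : ℝ) T :=
      Measure.quasiMeasurePreserving_fst.ae (ae_restrict_mem measurableSet_Ioc)
    filter_upwards [h3] with p hp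
    show ‖G p.1 p.2‖ ≤ P.F 0 p.2 * hh P.N P.de p.2
    have h4 : 0 ≤ P.F 0 p.2 * hh P.N P.de p.2 := mul_nonneg (hF0n _) (hh0 _)
    rw [hG, Real.norm_of_nonneg (by positivity)]
    have h5 : Real.exp (-(p.1 * (P.lam * eu p.2 ^ (2 * P.al)))) ≤ 1 := by
      rw [Real.exp_le_one_iff]
      have := Real.rpow_nonneg (heu p.2) (2 * P.al)
      have hp1 := hp.1.le
      have : 0 ≤ p.1 * (P.lam * eu p.2 ^ (2 * P.al)) := by positivity
      linarith
    calc P.F 0 p.2 * hh P.N P.de p.2 * Real.exp (-(p.1 * (P.lam * eu p.2 ^ (2 * P.al))))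
        ≤ P.F 0 p.2 * hh P.N P.de p.2 * 1 := mul_le_mul_of_nonneg_left h5 h4
      _ = _ := mul_one _
  rw [h1, integral_integral_swap hI]
  have h6 : ∀ η, ∫ s in Ioc (0 : ℝ) T, G s η ≤ (1 / P.lam) * JJ P.al P.N P.de P.w η := by
    intro η
    have h7 : ∫ s in Ioc (0 : ℝ) T, G s η = P.F 0 η * hh P.N P.de η *
        ∫ s in (0 : ℝ)..T, Real.exp (-(s * (P.lam * eu η ^ (2 * P.al)))) := by
      rw [intervalIntegral.integral_of_le hT, ← integral_const_mul]
      exact setIntegral_congr_fun measurableSet_Ioc fun s _ => hG s η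
    rw [h7]
    have hw : 0 ≤ P.w (eu η) := hQC.1 _ (heu η)
    rcases (heu η).eq_or_lt with h0 | h0
    · have h8 : P.F 0 η = 0 := by
        unfold Par.F
        rw [← h0]
        simp
      rw [h8, zero_mul, zero_mul]
      unfold JJ
      have := Real.rpow_nonneg (heu η) (-1 - 2 * P.al)
      have := hh0 η
      positivity
    · have hx : 0 < eu η ^ (2 * P.al) := Real.rpow_pos_of_pos h0 _
      have h9 := PHF_exp (P.lam * eu η ^ (2 * P.al)) T (by positivity)
      have h4 : 0 ≤ P.F 0 η * hh P.N P.de η := mul_nonneg (hF0n _) (hh0 _)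
      refine (mul_le_mul_of_nonneg_left h9 h4).trans (le_of_eq ?_)
      unfold Par.F JJ
      have h10 : eu η ^ (-1 - 2 * P.al) = (eu η)⁻¹ * (eu η ^ (2 * P.al))⁻¹ := by
        rw [sub_eq_add_neg, Real.rpow_add h0, Real.rpow_neg_one, Real.rpow_neg h0.le]
      rw [h10]
      simp only [mul_zero, zero_mul, neg_zero, Real.exp_zero, mul_one]
      field_simp
  have h11 : ∫ η, ∫ s in Ioc (0 : ℝ) T, G s η ≤ ∫ η, (1 / P.lam) * JJ P.al P.N P.de P.w η := by
    refine integral_mono_of_nonneg ?_ (hJI.const_mul _) (Eventually.of_forall h6)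
    refine Eventually.of_forall fun η => ?_
    refine integral_nonneg fun s => ?_
    show 0 ≤ G s η
    rw [hG]
    have := hF0n η
    have := hh0 η
    positivity
  refine h11.trans ?_
  rw [integral_const_mul]
  calc 1 / P.lam * ∫ y, JJ P.al P.N P.de P.w y ≤ 1 / P.lam * (P.lam * P.Ph) :=
        mul_le_mul_of_nonneg_left hJ (by positivity)
    _ = P.Ph := by field_simp

end Pool.SQW
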