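import Pool.Agent.Work.MP_a2fcf1_an_sp.Interface

/-!
# Block REA: the rearrangement inequality (helper86)
-/

set_option autoImplicit false

open MeasureTheory Set Filter

namespace Pool.SQW

theorem REA_ae (c : ℝ) : ∀ᵐ t : ℝ, t ≠ c := compl_mem_ae_iff.2 (measure_singleton c)

theorem REA_fst (c : ℝ) : ∀ᵐ y : ℝ × ℝ, y.1 ≠ c :=
  (Measure.quasiMeasurePreserving_fst (μ := (volume : Measure ℝ))
    (ν := (volume : Measure ℝ))).ae (REA_ae c)

theorem REA_snd (c : ℝ) : ∀ᵐ y : ℝ × ℝ, y.2 ≠ c :=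
  (Measure.quasiMeasurePreserving_snd (μ := (volume : Measure ℝ))
    (ν := (volume : Measure ℝ))).ae (REA_ae c)

theorem REA_comp (G : ℝ × ℝ → ℝ) (hG : Integrable G) (A B : ℝ ≃ᵐ ℝ)
    (hA : MeasurePreserving A) (hB : MeasurePreserving B) :
    Integrable (fun y : ℝ × ℝ => G (A y.1, B y.2)) ∧
      ∫ y : ℝ × ℝ, G (A y.1, B y.2) = ∫ y, G y := by
  have hP : MeasurePreserving (MeasurableEquiv.prodCongr A B) (volume : Measure (ℝ × ℝ))
      (volume : Measure (ℝ × ℝ)) := hA.prod hB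
  exact ⟨hP.integrable_comp_of_integrable hG, hP.integral_comp' G⟩

theorem p_REA : S_REA := by
  intro F H hF hH hF0 hH0 hF1 hF2 hH1 hH2 hI ξ
  have hid : MeasurePreserving (MeasurableEquiv.refl ℝ) (volume : Measure ℝ) volume :=
    MeasurePreserving.id _
  have hs : ∀ c : ℝ, MeasurePreserving (MeasurableEquiv.subLeft c) (volume : Measure ℝ) volume :=
    fun c => MeasureTheory.Measure.measurePreserving_sub_left volume c
  obtain ⟨i1, e1⟩ := REA_comp (fun y => F y * H y) hI _ _ hid hid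
  obtain ⟨i2, e2⟩ := REA_comp (fun y => F y * H y) hI _ _ (hs ξ.1) (hs ξ.2)
  obtain ⟨i3, e3⟩ := REA_comp (fun y => F y * H y) hI _ _ hid (hs ξ.2)
  obtain ⟨i4, e4⟩ := REA_comp (fun y => F y * H y) hI _ _ (hs ξ.1) hid
  have hint := ((i1.add i2).add i3).add i4
  have hpt : ∀ᵐ y : ℝ × ℝ, F y * H (ξ - y) ≤
      F (y.1, y.2) * H (y.1, y.2) + F (ξ.1 - y.1, ξ.2 - y.2) * H (ξ.1 - y.1, ξ.2 - y.2) +
        F (y.1, ξ.2 - y.2) * H (y.1, ξ.2 - y.2) +
        F (ξ.1 - y.1, y.2) * H (ξ.1 - y.1, y.2) := by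
    filter_upwards [REA_fst 0, REA_snd 0, REA_fst ξ.1, REA_snd ξ.2] with y h1 h2 h3 h4
    obtain ⟨a, b⟩ := y
    obtain ⟨x1, x2⟩ := ξ
    simp only at h1 h2 h3 h4 ⊢
    have h3' : x1 - a ≠ 0 := sub_ne_zero.2 (Ne.symm h3)
    have h4' : x2 - b ≠ 0 := sub_ne_zero.2 (Ne.symm h4)
    show F (a, b) * H (x1 - a, x2 - b) ≤ _
    set c := x1 - a
    set d := x2 - b
    have p1 := mul_nonneg (hF0 (a, b)) (hH0 (a, b))
    have p2 := mul_nonneg (hF0 (c, d)) (hH0 (c, d))
    have p3 := mul_nonneg (hF0 (a, d)) (hH0 (a, d))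
    have p4 := mul_nonneg (hF0 (c, b)) (hH0 (c, b))
    rcases le_total |a| |c| with hac | hca <;> rcases le_total |b| |d| with hbd | hdb
    · have q1 : H (c, d) ≤ H (a, b) := (hH1 a d c h1 h4' hac).trans (hH2 a b d h1 h2 hbd)
      have := mul_le_mul_of_nonneg_left q1 (hF0 (a, b))
      linarith
    · have q1 : H (c, d) ≤ H (a, d) := hH1 a d c h1 h4' hac
      have q2 : F (a, b) ≤ F (a, d) := hF2 a d b h1 h4' hdb
      have := mul_le_mul q2 q1 (hH0 (c, d)) (hF0 (a, d))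
      linarith
    · have q1 : H (c, d) ≤ H (c, b) := hH2 c b d h3' h2 hbd
      have q2 : F (a, b) ≤ F (c, b) := hF1 c b a h3' h2 hca
      have := mul_le_mul q2 q1 (hH0 (c, d)) (hF0 (c, b))
      linarith
    · have q2 : F (a, b) ≤ F (c, d) := (hF2 a d b h1 h4' hdb).trans (hF1 c d a h3' h4' hca)
      have := mul_le_mul_of_nonneg_right q2 (hH0 (c, d))
      linarith
  have hmeas : AEStronglyMeasurable (fun y => F y * H (ξ - y)) (volume : Measure (ℝ × ℝ)) :=
    (hF.mul (hH.comp (measurable_const.sub measurable_id))).aestronglyMeasurable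
  have hintF : Integrable (fun y => F y * H (ξ - y)) := by
    refine Integrable.mono' hint hmeas ?_
    filter_upwards [hpt] with y hy
    rw [Real.norm_of_nonneg (mul_nonneg (hF0 _) (hH0 _))]
    exact hy
  refine ⟨hintF, ?_⟩
  have hle := integral_mono_ae hintF hint hpt
  have hsum : ∫ y : ℝ × ℝ, (((F (y.1, y.2) * H (y.1, y.2) +
      F (ξ.1 - y.1, ξ.2 - y.2) * H (ξ.1 - y.1, ξ.2 - y.2)) +
        F (y.1, ξ.2 - y.2) * H (y.1, ξ.2 - y.2)) +
        F (ξ.1 - y.1, y.2) * H (ξ.1 - y.1, y.2)) = 4 * ∫ y, F y * H y := by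
    have s1 := integral_add ((i1.add i2).add i3) i4
    have s2 := integral_add (i1.add i2) i3
    have s3 := integral_add i1 i2
    refine s1.trans ?_
    refine (congrArg (fun x => x + _) (s2.trans (congrArg (fun x => x + _) s3))).trans ?_
    rw [e1, e2, e3, e4]
    ring
  exact hle.trans hsum.le

end Pool.SQW
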