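import Pool.Agent.Work.MP_a2fcf1_an_sp.Interface

open MeasureTheory Set Filter
open scoped ContDiff

noncomputable section

namespace Pool.SQW

theorem p_RES (hGEN : S_GEN) (hJAA : S_JAA) (hJBB : S_JBB) : S_RES := by
  intro α ha ha2
  obtain ⟨c, hc, hG⟩ := hGEN α ha ha2
  have h1 : 0 < 1 - 2 * α := by linarith
  have h2 : 0 < 2 * α * (1 - 2 * α) := mul_pos (by linarith) h1
  have hc1 : 0 < c * (2 * α * (1 - 2 * α)) / 32 := by positivity
  have hc2 : 0 < c * (1 - 2 * α) / 8 := by positivity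
  refine ⟨min c (min (c * (2 * α * (1 - 2 * α)) / 32) (c * (1 - 2 * α) / 8)),
    lt_min hc (lt_min hc1 hc2), ?_⟩
  intro κ N δ g hκ hN hδ hg
  set c' := min c (min (c * (2 * α * (1 - 2 * α)) / 32) (c * (1 - 2 * α) / 8)) with hc'
  have hle0 : c' ≤ c := min_le_left _ _
  have hle1 : c' ≤ c * (2 * α * (1 - 2 * α)) / 32 :=
    (min_le_right _ _).trans (min_le_left _ _)
  have hle2 : c' ≤ c * (1 - 2 * α) / 8 := (min_le_right _ _).trans (min_le_right _ _)
  refine ⟨?_, ?_, ?_⟩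
  · intro w hw hb hI hJ
    exact hG κ N δ w g hκ hN hδ hw hg hb hI
      (hJ.trans (mul_le_mul_of_nonneg_right hle0 hκ.le))
  · intro A hA hs hb
    obtain ⟨hq, hI, hJ⟩ := hJAA α N δ A ha ha2 hN hδ hA
    refine hG κ N δ (fun _ => A / (N * δ)) g hκ hN hδ hq hg hb hI (hJ.trans ?_)
    have h3 : A * δ ^ (1 - 2 * α) ≤ c * (2 * α * (1 - 2 * α)) / 32 * κ :=
      hs.trans (mul_le_mul_of_nonneg_right hle1 hκ.le)
    have h4 : 0 ≤ 32 / (2 * α * (1 - 2 * α)) := by positivity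
    calc 32 / (2 * α * (1 - 2 * α)) * (A * δ ^ (1 - 2 * α))
        ≤ 32 / (2 * α * (1 - 2 * α)) * (c * (2 * α * (1 - 2 * α)) / 32 * κ) :=
          mul_le_mul_of_nonneg_left h3 h4
      _ = c * κ := by
          have h5 := h2.ne'
          have h6 := h1.ne'
          have h7 := ha.ne'
          field_simp
  · intro A hA hs hb
    obtain ⟨hq, hI, hJ⟩ := hJBB α N δ A ha ha2 hN hδ hA
    refine hG κ N δ (fun r => A / (N * δ) * min 1 (r / N)) g hκ hN hδ hq hg hb hI (hJ.trans ?_)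
    have hNp : 0 < N ^ (2 * α) := Real.rpow_pos_of_pos hN _
    have h3 : A * δ * N ^ (-(2 * α)) ≤ c * (1 - 2 * α) / 8 * κ := by
      rw [Real.rpow_neg hN.le, mul_inv_le_iff₀ hNp]
      refine hs.trans (mul_le_mul_of_nonneg_right ?_ hNp.le)
      exact mul_le_mul_of_nonneg_right hle2 hκ.le
    have h4 : 0 ≤ 8 / (1 - 2 * α) := by positivity
    calc 8 / (1 - 2 * α) * (A * δ * N ^ (-(2 * α)))
        ≤ 8 / (1 - 2 * α) * (c * (1 - 2 * α) / 8 * κ) := mul_le_mul_of_nonneg_left h3 h4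
      _ = c * κ := by
          have h6 := h1.ne'
          field_simp

end Pool.SQW
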