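import Pool.Agent.Work.MP_a2fcf1_an_sp.Interface

/-!
# Block RHB
-/

open MeasureTheory Set Filter

namespace Pool.SQW

theorem p_RHB (h1 : S_PHC) (h2 : S_PHF) : S_RHB := by
  intro P hP
  obtain ⟨hc, h0⟩ := h1 P hP
  have hPh : 0 < P.Ph := hP.2.2.2.2.2.1
  have hcont : Continuous P.Ps :=
    intervalIntegral.continuous_primitive (fun a b => hc.intervalIntegrable a b) 0
  constructor
  · have he : P.rh = fun t => 3 / 4 - P.Ps t / (4 * P.Ph) := rfl
    rw [he]
    exact continuous_const.sub (hcont.div_const _)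
  · intro t ht
    have ha : 0 ≤ P.Ps t := intervalIntegral.integral_nonneg ht (fun s _ => h0 s)
    have hb : P.Ps t ≤ P.Ph := h2 P hP t ht
    have h3 : 0 ≤ P.Ps t / (4 * P.Ph) := div_nonneg ha (by positivity)
    have h4 : P.Ps t / (4 * P.Ph) ≤ 1 / 4 := by
      rw [div_le_iff₀ (by positivity)]
      linarith
    have he : P.rh t = 3 / 4 - P.Ps t / (4 * P.Ph) := rfl
    rw [he]
    constructor <;> linarith

end Pool.SQW
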