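import Pool.Agent.Work.MP_a2fcf1_an_sp.Interface

/-! # Block RLT (helper1) -/

open MeasureTheory Set Filter
open Pool.Agent.Work.MP_a2fcf1_an_h64 (lf)
open scoped ContDiff

namespace Pool.SQW

theorem RLT_exi (x y : ℝ × ℝ) : (starRingEnd ℂ) (exi x y) = exi x (-y) := by
  unfold exi
  rw [← Complex.exp_conj, map_mul, Complex.conj_I, Complex.conj_ofReal]
  congr 1
  simp only [Prod.fst_neg, Prod.snd_neg]
  push_cast
  ring

theorem p_RLT : S_RLT := by
  intro a ha x
  rw [← Complex.conj_eq_iff_im]
  unfold FI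
  rw [← integral_conj]
  have h1 : ∀ y, (starRingEnd ℂ) (a y * exi x y) = a (-y) * exi x (-y) := by
    intro y
    rw [map_mul, RLT_exi, ha]
  simp only [h1]
  exact integral_neg_eq_self (fun y => a y * exi x y) volume

end Pool.SQW
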