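import Pool.Agent.Work.MP_a2fcf1_an_sp.Interface

/-!
# Block SM0: continuity of the space time function
-/

set_option autoImplicit false

open MeasureTheory Set Filter
open Pool.Agent.Work.MP_a2fcf1_an_h64 (lf)
open scoped ContDiff

namespace Pool.SQW

theorem SM0_exi_norm (x y : ℝ × ℝ) : ‖exi x y‖ = 1 := by
  unfold exi
  rw [mul_comm]
  exact Complex.norm_exp_ofReal_mul_I _

theorem SM0_exi_cont : Continuous fun p : (ℝ × ℝ) × (ℝ × ℝ) => exi p.1 p.2 := by
  unfold exi
  fun_prop

theorem p_SM0 (hIEX : S_IEX) : S_SM0 := by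
  intro b hb
  obtain ⟨⟨C, ε, hε, hC, hdec⟩, hmea, hcont⟩ := hb
  unfold ser
  refine continuousOn_of_dominated (bound := fun ξ => C * Real.exp (-(ε * l1 ξ))) ?_ ?_ ?_ ?_
  · intro p hp
    have h1 : Measurable fun ξ => b ξ p.1 := hmea p.1 hp.1
    have h2 : Continuous fun ξ => exi p.2 ξ := by
      unfold exi
      fun_prop
    exact (h1.mul h2.measurable).aestronglyMeasurable
  · intro p hp
    refine Eventually.of_forall fun ξ => ?_
    rw [norm_mul, SM0_exi_norm, mul_one]
    exact hdec ξ p.1 hp.1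
  · exact (hIEX ε hε).const_mul C
  · refine Eventually.of_forall fun ξ => ?_
    refine ContinuousOn.mul ?_ ?_
    · exact (hcont ξ).comp continuousOn_fst fun p hp => hp.1
    · have h2 : Continuous fun p : ℝ × (ℝ × ℝ) => exi p.2 ξ := by
        unfold exi
        fun_prop
      exact h2.continuousOn

end Pool.SQW
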