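import Pool.Agent.Work.MP_a2fcf1_an_sp.Interface

/-!
# SM1: the derivative in space-time of the integral
-/

open MeasureTheory Set Filter
open Pool.Agent.Work.MP_a2fcf1_an_h64 (lf lfL lf_apply lfL_apply norm_lf_le refl refl_of_nonneg
  refl_of_nonpos hasDerivAt_refl norm_refl_le lin_exp)
open scoped ContDiff

namespace Pool.SQW

theorem SM1_norm_exi (x y : ℝ × ℝ) : ‖exi x y‖ = 1 := by
  unfold exi
  rw [mul_comm]
  exact Complex.norm_exp_ofReal_mul_I _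

theorem SM1_cont_exi (x : ℝ × ℝ) : Continuous fun y => exi x y := by
  unfold exi
  fun_prop

theorem SM1_l1_nonneg (y : ℝ × ℝ) : 0 ≤ l1 y := add_nonneg (abs_nonneg _) (abs_nonneg _)

theorem SM1_norm_m1 (ξ : ℝ × ℝ) : ‖m1 ξ‖ ≤ l1 ξ := by
  rw [m1, norm_mul, Complex.norm_I, one_mul, Complex.norm_real, Real.norm_eq_abs, l1]
  have := abs_nonneg ξ.2
  linarith

theorem SM1_norm_m2 (ξ : ℝ × ℝ) : ‖m2 ξ‖ ≤ l1 ξ := by
  rw [m2, norm_mul, Complex.norm_I, one_mul, Complex.norm_real, Real.norm_eq_abs, l1]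
  have := abs_nonneg ξ.1
  linarith

theorem SM1_meas_m1 : Measurable m1 := by
  unfold m1
  fun_prop

theorem SM1_meas_m2 : Measurable m2 := by
  unfold m2
  fun_prop

theorem SM1_fderiv_exi (ξ : ℝ × ℝ) (p : ℝ × (ℝ × ℝ)) :
    HasFDerivAt (fun p : ℝ × (ℝ × ℝ) => exi p.2 ξ)
      (lf (0, m1 ξ * exi p.2 ξ, m2 ξ * exi p.2 ξ)) p := by
  have h1 : HasFDerivAt (fun p : ℝ × (ℝ × ℝ) => (p.2.1 * ξ.1 + p.2.2 * ξ.2 : ℝ))
      (ξ.1 • ((ContinuousLinearMap.fst ℝ ℝ ℝ).comp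
        (ContinuousLinearMap.snd ℝ ℝ (ℝ × ℝ))) +
      ξ.2 • ((ContinuousLinearMap.snd ℝ ℝ ℝ).comp
        (ContinuousLinearMap.snd ℝ ℝ (ℝ × ℝ)))) p := by
    have e1 : HasFDerivAt (fun p : ℝ × (ℝ × ℝ) => p.2.1)
        ((ContinuousLinearMap.fst ℝ ℝ ℝ).comp (ContinuousLinearMap.snd ℝ ℝ (ℝ × ℝ))) p :=
      ((ContinuousLinearMap.fst ℝ ℝ ℝ).comp
        (ContinuousLinearMap.snd ℝ ℝ (ℝ × ℝ))).hasFDerivAt
    have e2 : HasFDerivAt (fun p : ℝ × (ℝ × ℝ) => p.2.2)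
        ((ContinuousLinearMap.snd ℝ ℝ ℝ).comp (ContinuousLinearMap.snd ℝ ℝ (ℝ × ℝ))) p :=
      ((ContinuousLinearMap.snd ℝ ℝ ℝ).comp
        (ContinuousLinearMap.snd ℝ ℝ (ℝ × ℝ))).hasFDerivAt
    exact (e1.mul_const _).add (e2.mul_const _)
  have h2 : HasFDerivAt (fun p : ℝ × (ℝ × ℝ) =>
      ((p.2.1 * ξ.1 + p.2.2 * ξ.2 : ℝ) : ℂ)) _ p :=
    (Complex.ofRealCLM.hasFDerivAt).comp p h1
  have h3 := (h2.const_mul Complex.I).cexp
  refine h3.congr_fderiv ?_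
  ext
  · simp [lf_apply, m1, m2, exi]
  · simp [lf_apply, m1, m2, exi]
    ring
  · simp [lf_apply, m1, m2, exi]
    ring

theorem SM1_term {b b' : ℝ → ℂ}
    (h : ∀ t, 0 ≤ t → HasDerivWithinAt b (b' t) (Ici 0) t) (ξ : ℝ × ℝ) (p : ℝ × (ℝ × ℝ)) :
    HasFDerivAt (fun p : ℝ × (ℝ × ℝ) => refl b p.1 * exi p.2 ξ)
      (lf (b' |p.1| * exi p.2 ξ, m1 ξ * (refl b p.1 * exi p.2 ξ),
        m2 ξ * (refl b p.1 * exi p.2 ξ))) p := by
  have h1 : HasFDerivAt (fun p : ℝ × (ℝ × ℝ) => refl b p.1) _ p :=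
    (hasDerivAt_refl h p.1).hasFDerivAt.comp p hasFDerivAt_fst
  have h2 := h1.mul (SM1_fderiv_exi ξ p)
  refine h2.congr_fderiv ?_
  ext
  · simp [lf_apply]
    ring
  · simp [lf_apply]
    ring
  · simp [lf_apply]
    ring

theorem SM1_meas_refl {b : ℝ × ℝ → ℝ → ℂ} (hb : Mea b) (t : ℝ) :
    Measurable fun ξ => refl (b ξ) t := by
  rcases le_total 0 t with ht | ht
  · have e : (fun ξ => refl (b ξ) t) = fun ξ => b ξ t := by
      funext ξ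
      exact refl_of_nonneg _ ht
    rw [e]
    exact hb t ht
  · have e : (fun ξ => refl (b ξ) t) = fun ξ => 2 * b ξ 0 - b ξ (-t) := by
      funext ξ
      exact refl_of_nonpos _ ht
    rw [e]
    exact ((hb 0 le_rfl).const_mul 2).sub (hb (-t) (by linarith))

theorem SM1_int {b : ℝ × ℝ → ℝ → ℂ} (h1 : S_IEX) (hb : Dec b) (hm : Mea b) (m : ℝ × ℝ → ℂ)
    (hmm : Measurable m) (hml : ∀ ξ, ‖m ξ‖ ≤ 1 + l1 ξ) (t : ℝ) (ht : 0 ≤ t) (x : ℝ × ℝ) :
    Integrable fun ξ => m ξ * b ξ t * exi x ξ := by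
  obtain ⟨C, ε, hε, hC, hbd⟩ := hb
  have hi : Integrable fun ξ : ℝ × ℝ =>
      C * (1 + 2 / ε) * Real.exp (-(ε / 2 * l1 ξ)) := (h1 (ε / 2) (half_pos hε)).const_mul _
  refine hi.mono' ((hmm.mul (hm t ht)).mul (SM1_cont_exi x).measurable).aestronglyMeasurable ?_
  refine Filter.Eventually.of_forall fun ξ => ?_
  rw [norm_mul, norm_mul, SM1_norm_exi, mul_one]
  have h2 := lin_exp hε (SM1_l1_nonneg ξ)
  have h3 := SM1_l1_nonneg ξ
  calc ‖m ξ‖ * ‖b ξ t‖ ≤ (1 + l1 ξ) * (C * Real.exp (-(ε * l1 ξ))) :=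
        mul_le_mul (hml ξ) (hbd ξ t ht) (norm_nonneg _) (by positivity)
    _ = C * ((1 + l1 ξ) * Real.exp (-(ε * l1 ξ))) := by ring
    _ ≤ C * ((1 + 2 / ε) * Real.exp (-(ε / 2 * l1 ξ))) := mul_le_mul_of_nonneg_left h2 hC
    _ = _ := by ring

/-- **SM1** -/
theorem p_SM1 (h1 : S_IEX) : S_SM1 := by
  intro b b' hb hb' h p hp
  have hp0 : 0 ≤ p.1 := hp.1
  obtain ⟨hbD, hbM, -⟩ := hb
  obtain ⟨hbD', hbM', -⟩ := hb'
  have ib' : Integrable fun ξ => b' ξ p.1 * exi p.2 ξ := by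
    have := SM1_int h1 hbD' hbM' (fun _ => 1) measurable_const (fun ξ => by
      have := SM1_l1_nonneg ξ
      simp only [norm_one]
      linarith) p.1 hp0 p.2
    simpa using this
  have i1 : Integrable fun ξ => m1 ξ * b ξ p.1 * exi p.2 ξ :=
    SM1_int h1 hbD hbM m1 SM1_meas_m1 (fun ξ => (SM1_norm_m1 ξ).trans (by linarith)) p.1 hp0 p.2
  have i2 : Integrable fun ξ => m2 ξ * b ξ p.1 * exi p.2 ξ :=
    SM1_int h1 hbD hbM m2 SM1_meas_m2 (fun ξ => (SM1_norm_m2 ξ).trans (by linarith)) p.1 hp0 p.2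
  obtain ⟨C, ε, hε, hC, hbd⟩ := hbD
  obtain ⟨C', ε', hε', hC', hbd'⟩ := hbD'
  set v : ℝ × ℝ → ℝ := fun ξ => C' * Real.exp (-(ε' * l1 ξ)) +
    6 * (C * (1 + 2 / ε) * Real.exp (-(ε / 2 * l1 ξ))) with hv
  have hvi : Integrable v :=
    ((h1 ε' hε').const_mul C').add
      (((h1 (ε / 2) (half_pos hε)).const_mul (C * (1 + 2 / ε))).const_mul 6)
  have hmF : ∀ q : ℝ × (ℝ × ℝ), Measurable fun ξ => refl (b ξ) q.1 * exi q.2 ξ := fun q =>
    (SM1_meas_refl hbM q.1).mul (SM1_cont_exi q.2).measurable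
  have key : HasFDerivAt (fun q : ℝ × (ℝ × ℝ) => ∫ ξ, refl (b ξ) q.1 * exi q.2 ξ)
      (∫ ξ, lf (b' ξ |p.1| * exi p.2 ξ, m1 ξ * (refl (b ξ) p.1 * exi p.2 ξ),
        m2 ξ * (refl (b ξ) p.1 * exi p.2 ξ))) p := by
    refine hasFDerivAt_integral_of_dominated_of_fderiv_le (s := univ) (bound := v)
      (F := fun (q : ℝ × (ℝ × ℝ)) ξ => refl (b ξ) q.1 * exi q.2 ξ)
      (F' := fun (q : ℝ × (ℝ × ℝ)) ξ => lf (b' ξ |q.1| * exi q.2 ξ,
        m1 ξ * (refl (b ξ) q.1 * exi q.2 ξ), m2 ξ * (refl (b ξ) q.1 * exi q.2 ξ)))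
      univ_mem ?_ ?_ ?_ ?_ hvi ?_
    · exact Filter.Eventually.of_forall fun q => (hmF q).aestronglyMeasurable
    · have hi : Integrable fun ξ : ℝ × ℝ => 3 * (C * Real.exp (-(ε * l1 ξ))) :=
        ((h1 ε hε).const_mul C).const_mul 3
      refine hi.mono' (hmF p).aestronglyMeasurable (Filter.Eventually.of_forall fun ξ => ?_)
      rw [norm_mul, SM1_norm_exi, mul_one]
      exact norm_refl_le (hbd ξ) p.1
    · have hm : Measurable fun ξ => ((b' ξ |p.1| * exi p.2 ξ,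
          m1 ξ * (refl (b ξ) p.1 * exi p.2 ξ), m2 ξ * (refl (b ξ) p.1 * exi p.2 ξ)) :
            ℂ × ℂ × ℂ) :=
        (((hbM' |p.1| (abs_nonneg _)).mul (SM1_cont_exi p.2).measurable)).prodMk
          ((SM1_meas_m1.mul (hmF p)).prodMk (SM1_meas_m2.mul (hmF p)))
      exact lfL.continuous.comp_aestronglyMeasurable hm.aestronglyMeasurable
    · refine Filter.Eventually.of_forall fun ξ q _ => ?_
      refine (norm_lf_le _).trans ?_
      simp only [norm_mul, SM1_norm_exi, mul_one]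
      have h2 := hbd' ξ |q.1| (abs_nonneg _)
      have h3 := norm_refl_le (hbd ξ) q.1
      have h4 := SM1_norm_m1 ξ
      have h5 := SM1_norm_m2 ξ
      have hn0 := SM1_l1_nonneg ξ
      have h6 := lin_exp hε hn0
      have h7 : ‖m1 ξ‖ * ‖refl (b ξ) q.1‖ ≤ l1 ξ * (3 * (C * Real.exp (-(ε * l1 ξ)))) :=
        mul_le_mul h4 h3 (norm_nonneg _) hn0
      have h8 : ‖m2 ξ‖ * ‖refl (b ξ) q.1‖ ≤ l1 ξ * (3 * (C * Real.exp (-(ε * l1 ξ)))) :=
        mul_le_mul h5 h3 (norm_nonneg _) hn0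
      have h9 : l1 ξ * (3 * (C * Real.exp (-(ε * l1 ξ)))) ≤
          3 * (C * (1 + 2 / ε) * Real.exp (-(ε / 2 * l1 ξ))) := by
        have h10 : l1 ξ * Real.exp (-(ε * l1 ξ)) ≤
            (1 + 2 / ε) * Real.exp (-(ε / 2 * l1 ξ)) := by
          refine le_trans ?_ h6
          apply mul_le_mul_of_nonneg_right _ (Real.exp_pos _).le
          linarith
        calc l1 ξ * (3 * (C * Real.exp (-(ε * l1 ξ))))
            = (3 * C) * (l1 ξ * Real.exp (-(ε * l1 ξ))) := by ring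
          _ ≤ (3 * C) * ((1 + 2 / ε) * Real.exp (-(ε / 2 * l1 ξ))) :=
              mul_le_mul_of_nonneg_left h10 (by positivity)
          _ = _ := by ring
      rw [hv]
      simp only
      linarith
    · exact Filter.Eventually.of_forall fun ξ q _ => SM1_term (h ξ) ξ q
  have e : (∫ ξ, lf (b' ξ |p.1| * exi p.2 ξ, m1 ξ * (refl (b ξ) p.1 * exi p.2 ξ),
        m2 ξ * (refl (b ξ) p.1 * exi p.2 ξ))) =
      lf (ser b' p, ser (fun ξ t => m1 ξ * b ξ t) p, ser (fun ξ t => m2 ξ * b ξ t) p) := by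
    have e1 : ∀ ξ, lf (b' ξ |p.1| * exi p.2 ξ, m1 ξ * (refl (b ξ) p.1 * exi p.2 ξ),
        m2 ξ * (refl (b ξ) p.1 * exi p.2 ξ)) =
        lfL (b' ξ p.1 * exi p.2 ξ, m1 ξ * b ξ p.1 * exi p.2 ξ, m2 ξ * b ξ p.1 * exi p.2 ξ) := by
      intro ξ
      rw [lfL_apply, abs_of_nonneg hp0, refl_of_nonneg _ hp0, mul_assoc, mul_assoc]
    rw [integral_congr_ae (Filter.Eventually.of_forall e1)]
    rw [lfL.integral_comp_comm (ib'.prodMk (i1.prodMk i2)), integral_pair ib' (i1.prodMk i2),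
      integral_pair i1 i2]
    rfl
  rw [e] at key
  refine key.hasFDerivWithinAt.congr (fun q hq => ?_) ?_
  · unfold ser
    refine integral_congr_ae (Filter.Eventually.of_forall fun ξ => ?_)
    simp only
    rw [refl_of_nonneg _ hq.1]
  · unfold ser
    refine integral_congr_ae (Filter.Eventually.of_forall fun ξ => ?_)
    simp only
    rw [refl_of_nonneg _ hp0]

end Pool.SQW
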