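import Pool.Agent.Work.MP_a2fcf1_an_sp.Interface

open MeasureTheory Set Filter
open Pool.Agent.Work.MP_a2fcf1_an_h64 (lf)
open scoped ContDiff

namespace Pool.SQW

theorem SMI_uniq : UniqueDiffOn ℝ Half := (uniqueDiffOn_Ici 0).prod uniqueDiffOn_univ

theorem SMI_nat (hSM0 : S_SM0) (hSM1 : S_SM1) (hGML : S_GML) (hGPR : S_GPR) (hLMU : S_LMU)
    (n : ℕ) : ∀ b : ℝ × ℝ → ℝ → ℂ, Good n b → ContDiffOn ℝ n (ser b) Half := by
  induction n with
  | zero =>
    intro b hb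
    rw [Nat.cast_zero, contDiffOn_zero]
    exact hSM0 b hb
  | succ n ih =>
    intro b hb
    have hp := hGPR.1 n b hb
    have hb0 := hGPR.2 (n + 1) b hb
    obtain ⟨hd, hm, b', hb', h⟩ := hb
    push_cast
    rw [contDiffOn_succ_iff_hasFDerivWithinAt_of_uniqueDiffOn SMI_uniq]
    refine ⟨fun hcon => ?_, fun p => lf (ser b' p, ser (fun k t => m1 k * b k t) p,
      ser (fun k t => m2 k * b k t) p), ?_, fun p hp => ?_⟩
    · exact absurd hcon (by simp)
    · have h1 := ih b' hb'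
      have h2 := ih _ (hGML n m1 b hLMU.1 hp)
      have h3 := ih _ (hGML n m2 b hLMU.2.1 hp)
      have h4 := h1.prodMk (h2.prodMk h3)
      exact Pool.Agent.Work.MP_a2fcf1_an_h64.lfL.contDiff.comp_contDiffOn h4
    · exact hSM1 b b' hb0 (hGPR.2 n b' hb') h p hp

theorem p_SMI (hSM0 : S_SM0) (hSM1 : S_SM1) (hGML : S_GML) (hGPR : S_GPR) (hLMU : S_LMU) :
    S_SMI := by
  intro b hb
  rw [contDiffOn_infty]
  exact fun n => SMI_nat hSM0 hSM1 hGML hGPR hLMU n b (hb n)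

end Pool.SQW
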