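import Pool.Agent.Work.MP_a2fcf1_an_sp.Interface

set_option autoImplicit false

open MeasureTheory Set Filter
open scoped ContDiff

namespace Pool.SQW

theorem SMS_int (hCVB : S_CVB) (hIEX : S_IEX) (k : ℝ × ℝ → ℝ × ℝ → ℝ) (b : ℝ × ℝ → ℝ → ℂ)
    (hk : Ker k) (hb : Good 0 b) (ξ : ℝ × ℝ) (t : ℝ) (ht : 0 ≤ t) :
    Integrable fun η => ((k η (ξ - η) : ℝ) : ℂ) * (b η t * b (ξ - η) t) := by
  obtain ⟨hD, hM, -⟩ := hb
  obtain ⟨C, ε, hε, hC, hbd⟩ := hCVB k b b hk hD hD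
  have h1 : Integrable fun η : ℝ × ℝ => C * Real.exp (-(ε * l1 ξ)) * Real.exp (-(ε * l1 η)) :=
    (hIEX ε hε).const_mul _
  have hsub : Measurable fun η : ℝ × ℝ => ξ - η := measurable_const.sub measurable_id
  have h2 : Measurable fun η : ℝ × ℝ => ((k η (ξ - η) : ℝ) : ℂ) * (b η t * b (ξ - η) t) := by
    have h3 : Measurable fun η : ℝ × ℝ => k η (ξ - η) := hk.1.comp (measurable_id.prodMk hsub)
    exact (Complex.measurable_ofReal.comp h3).mul ((hM t ht).mul ((hM t ht).comp hsub))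
  exact h1.mono' h2.aestronglyMeasurable (Eventually.of_forall fun η => hbd ξ η t ht)

theorem p_SMS (hKKB : S_KKB) (hCVB : S_CVB) (hIEX : S_IEX) : S_SMS := by
  intro b hb ξ t ht
  obtain ⟨-, hk0, -, -, hsum⟩ := hKKB
  have hi := SMS_int hCVB hIEX k0 b hk0 hb ξ t ht
  have hi2 : Integrable fun η => ((k0 (ξ - η) η : ℝ) : ℂ) * (b (ξ - η) t * b η t) := by
    have h := hi.comp_sub_left ξ
    simpa only [sub_sub_cancel] using h
  have e1 : cnv k0 b b ξ t = ∫ η, ((k0 (ξ - η) η : ℝ) : ℂ) * (b (ξ - η) t * b η t) := by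
    have h := integral_sub_left_eq_self
      (fun η => ((k0 η (ξ - η) : ℝ) : ℂ) * (b η t * b (ξ - η) t)) volume ξ
    simp only [sub_sub_cancel] at h
    exact h.symm
  have e2 : cnv k0 b b ξ t + cnv k0 b b ξ t = 2 * cnv kk b b ξ t := by
    conv_lhs => rw [show cnv k0 b b ξ t + cnv k0 b b ξ t =
      (∫ η, ((k0 η (ξ - η) : ℝ) : ℂ) * (b η t * b (ξ - η) t)) + cnv k0 b b ξ t from rfl]
    rw [e1, ← integral_add hi hi2]
    unfold cnv
    rw [← integral_const_mul]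
    apply integral_congr_ae
    filter_upwards with η
    have h := hsum η (ξ - η)
    have h' : ((k0 η (ξ - η) : ℝ) : ℂ) + ((k0 (ξ - η) η : ℝ) : ℂ) =
        2 * ((kk η (ξ - η) : ℝ) : ℂ) := by
      exact_mod_cast h
    linear_combination (b η t * b (ξ - η) t) * h'
  have h2 : (2 : ℂ) * cnv k0 b b ξ t = 2 * cnv kk b b ξ t := by
    rw [← e2]
    ring
  exact mul_left_cancel₀ two_ne_zero h2

end Pool.SQW
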