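import Pool.Agent.Work.MP_a2fcf1_an_sp.Interface

/-! Block SUB: subadditivity of `|y| ^ (2 α)` with a gain. -/

open MeasureTheory Set Filter
open scoped ContDiff

namespace Pool.SQW

theorem SUB_conc (p : ℝ) (hp0 : 0 ≤ p) (hp1 : p ≤ 1) (a b : ℝ) (ha : 0 ≤ a) (hab : a ≤ b) :
    (a + b) ^ p + a ^ p ≤ (2 * a) ^ p + b ^ p := by
  rcases eq_or_lt_of_le (ha.trans hab) with hb | hb
  · have h0 : a = 0 := le_antisymm (by rw [hb]; exact hab) ha
    rw [h0, ← hb]
    norm_num
  · have hc := Real.concaveOn_rpow hp0 hp1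
    have hθ0 : 0 ≤ a / b := div_nonneg ha hb.le
    have hθ1 : 0 ≤ 1 - a / b := by
      have : a / b ≤ 1 := (div_le_one hb).2 hab
      linarith
    have h1 := hc.2 (x := a) (y := a + b) ha (add_nonneg ha hb.le) hθ1 hθ0 (by ring)
    have h2 := hc.2 (x := a) (y := a + b) ha (add_nonneg ha hb.le) hθ0 hθ1 (by ring)
    simp only [smul_eq_mul] at h1 h2
    have e1 : (1 - a / b) * a + a / b * (a + b) = 2 * a := by
      field_simp
      ring
    have e2 : a / b * a + (1 - a / b) * (a + b) = b := by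
      field_simp
      ring
    rw [e1] at h1
    rw [e2] at h2
    nlinarith [h1, h2]

theorem p_SUB (hEUB : S_EUB) : S_SUB := by
  intro α h0 h1
  obtain ⟨-, -, hnn, -, -, -, -, -, -, -, htri, -, -, -⟩ := hEUB
  have h2 : (2 : ℝ) ^ (2 * α) < 2 := by
    have := Real.rpow_lt_rpow_of_exponent_lt (x := 2) one_lt_two (by linarith : 2 * α < 1)
    rwa [Real.rpow_one] at this
  refine ⟨by linarith, fun y z => ?_⟩
  have h3 : eu (y + z) ^ (2 * α) ≤ (eu y + eu z) ^ (2 * α) :=
    Real.rpow_le_rpow (hnn _) (htri y z) (by linarith)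
  have key : ∀ a b : ℝ, 0 ≤ a → a ≤ b →
      (a + b) ^ (2 * α) + (2 - (2 : ℝ) ^ (2 * α)) * a ^ (2 * α) ≤ a ^ (2 * α) + b ^ (2 * α) := by
    intro a b ha hab
    have h4 := SUB_conc (2 * α) (by linarith) (by linarith) a b ha hab
    rw [Real.mul_rpow zero_le_two ha] at h4
    linarith
  rcases le_total (eu y) (eu z) with h | h
  · rw [min_eq_left h]
    have := key (eu y) (eu z) (hnn y) h
    linarith
  · rw [min_eq_right h]
    have := key (eu z) (eu y) (hnn z) h
    rw [add_comm (eu z) (eu y)] at this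
    linarith

end Pool.SQW
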