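import Pool.Agent.Work.MP_a2fcf1_an_sp.Interface

/-! Block SYD: symmetry of the Duhamel expression -/

open MeasureTheory Set Filter
open scoped ContDiff

namespace Pool.SQW

theorem p_SYD (hEUB : S_EUB) : S_SYD := by
  intro κ α g q hg hq ξ t ht
  have he : eu (-ξ) = eu ξ := hEUB.2.2.2.2.1 ξ
  have h1 : (∫ s in (0 : ℝ)..t, ((Real.exp (κ * s * eu (-ξ) ^ (2 * α)) : ℝ) : ℂ) * q (-ξ) s) =
      (starRingEnd ℂ) (∫ s in (0 : ℝ)..t, ((Real.exp (κ * s * eu ξ ^ (2 * α)) : ℝ) : ℂ) *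
        q ξ s) := by
    rw [intervalIntegral.integral_of_le ht, intervalIntegral.integral_of_le ht, ← integral_conj]
    refine setIntegral_congr_fun measurableSet_Ioc fun s hs => ?_
    change ((Real.exp (κ * s * eu (-ξ) ^ (2 * α)) : ℝ) : ℂ) * q (-ξ) s =
      (starRingEnd ℂ) (((Real.exp (κ * s * eu ξ ^ (2 * α)) : ℝ) : ℂ) * q ξ s)
    rw [he, hq ξ s hs.1.le, map_mul, Complex.conj_ofReal]
  unfold duh
  rw [h1, he, hg ξ, map_mul, map_sub, Complex.conj_ofReal]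

end Pool.SQW
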