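import Pool.Agent.Work.MP_a2fcf1_an_sp.Interface

/-!
# Supercritical SQG on the plane, block SYG: the symmetrised datum
-/

open MeasureTheory Set Filter
open scoped ContDiff

noncomputable section

namespace Pool.SQW

theorem SYG_norm_exi (x y : ℝ × ℝ) : ‖exi x y‖ = 1 := by
  unfold exi
  rw [mul_comm]
  exact Complex.norm_exp_ofReal_mul_I _

theorem SYG_meas_exi (x : ℝ × ℝ) : Measurable (exi x) := by
  have h : Continuous (exi x) := by
    unfold exi
    fun_prop
  exact h.measurable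

theorem SYG_conj_exi (x y : ℝ × ℝ) : (starRingEnd ℂ) (exi x y) = exi x (-y) := by
  unfold exi
  rw [← Complex.exp_conj, map_mul, Complex.conj_I, Complex.conj_ofReal]
  congr 1
  simp only [Prod.fst_neg, Prod.snd_neg]
  push_cast
  ring

theorem SYG_int {g : ℝ × ℝ → ℂ} {v : ℝ × ℝ → ℝ} (hg : Measurable g) (h : ∀ ξ, ‖g ξ‖ ≤ v ξ)
    (hv : Integrable v) (x : ℝ × ℝ) : Integrable (fun y => g y * exi x y) := by
  refine hv.mono' (hg.mul (SYG_meas_exi x)).aestronglyMeasurable
    (Filter.Eventually.of_forall fun y => ?_)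
  rw [norm_mul, SYG_norm_exi, mul_one]
  exact h y

theorem p_SYG : S_SYG := by
  intro g v hg hgv hv hvi
  have hg' : Measurable fun ξ => (starRingEnd ℂ) (g (-ξ)) :=
    Complex.continuous_conj.measurable.comp (hg.comp measurable_neg)
  have hgv' : ∀ ξ, ‖(starRingEnd ℂ) (g (-ξ))‖ ≤ v ξ := by
    intro ξ
    rw [Complex.norm_conj, ← hv ξ]
    exact hgv (-ξ)
  refine ⟨fun ξ => (g ξ + (starRingEnd ℂ) (g (-ξ))) / 2, (hg.add hg').div_const 2, ?_, ?_, ?_⟩
  · intro ξ
    have h1 := norm_add_le (g ξ) ((starRingEnd ℂ) (g (-ξ)))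
    have h2 := hgv ξ
    have h3 := hgv' ξ
    have h4 : ‖(2 : ℂ)‖ = 2 := by norm_num
    show ‖(g ξ + (starRingEnd ℂ) (g (-ξ))) / 2‖ ≤ v ξ
    rw [norm_div, h4]
    linarith
  · intro ξ
    show (g (-ξ) + (starRingEnd ℂ) (g (- -ξ))) / 2 =
      (starRingEnd ℂ) ((g ξ + (starRingEnd ℂ) (g (-ξ))) / 2)
    have h5 : (starRingEnd ℂ) (2 : ℂ) = 2 := Complex.conj_ofNat 2
    rw [map_div₀, map_add, Complex.conj_conj, neg_neg, h5, add_comm]
  · intro x
    have e1 : FI (fun ξ => (g ξ + (starRingEnd ℂ) (g (-ξ))) / 2) x =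
        (FI g x + ∫ y, (starRingEnd ℂ) (g (-y)) * exi x y) / 2 := by
      unfold FI
      rw [← integral_add (SYG_int hg hgv hvi x) (SYG_int hg' hgv' hvi x),
        ← integral_div]
      congr 1
      funext y
      ring
    have e2 : ∫ y, (starRingEnd ℂ) (g (-y)) * exi x y = (starRingEnd ℂ) (FI g x) := by
      have e3 : ∀ y : ℝ × ℝ, (starRingEnd ℂ) (g (-y)) * exi x y =
          (fun z => (starRingEnd ℂ) (g z * exi x z)) (-y) := by
        intro y
        show _ = (starRingEnd ℂ) (g (-y) * exi x (-y))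
        rw [map_mul, SYG_conj_exi, neg_neg]
      rw [integral_congr_ae (Filter.Eventually.of_forall e3),
        integral_neg_eq_self (fun z => (starRingEnd ℂ) (g z * exi x z)) volume, integral_conj]
      rfl
    rw [e1, e2, Complex.add_conj]
    have e4 : ((2 * (FI g x).re : ℝ) : ℂ) / 2 = (((FI g x).re : ℝ) : ℂ) := by
      push_cast
      ring
    rw [e4, Complex.ofReal_re]

end Pool.SQW
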