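import Pool.Agent.Work.MP_a2fcf1_an_sp.Interface

/-!
# Block TIM: the time integral
-/

open MeasureTheory Set Filter
open Pool.Agent.Work.MP_a2fcf1_an_h64 (lf)
open scoped ContDiff

namespace Pool.SQW

theorem p_TIM : S_TIM := by
  intro φ Φ hφ hpos hΦ hint t x ht hx
  set Ψ : ℝ → ℝ := fun s => ∫ r in (0 : ℝ)..s, φ r with hΨ
  have hΨd : ∀ s, HasDerivAt Ψ (φ s) s := fun s =>
    (hφ.integral_hasStrictDerivAt 0 s).hasDerivAt
  have hΨc : Continuous Ψ := continuous_iff_continuousAt.2 fun s => (hΨd s).continuousAt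
  set E : ℝ → ℝ := fun s => Real.exp (-((Ψ t - Ψ s) / (4 * Φ) * x)) with hE
  have hEc : Continuous E := by
    rw [hE]
    fun_prop
  have hEd : ∀ s, HasDerivAt E (E s * (φ s / (4 * Φ) * x)) s := by
    intro s
    have h1 : HasDerivAt (fun s => -((Ψ t - Ψ s) / (4 * Φ) * x)) (φ s / (4 * Φ) * x) s := by
      have h2 := (((hΨd s).const_sub (Ψ t)).div_const (4 * Φ)).mul_const x
      have h3 := h2.fun_neg
      have h4 : -(-φ s / (4 * Φ) * x) = φ s / (4 * Φ) * x := by ring
      rw [h4] at h3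
      exact h3
    exact h1.exp
  have hΦ4 : 4 * Φ ≠ 0 := by positivity
  have hint1 : ∫ s in (0 : ℝ)..t, E s * (φ s / (4 * Φ) * x) = E t - E 0 :=
    intervalIntegral.integral_eq_sub_of_hasDerivAt (fun s _ => hEd s)
      ((hEc.mul ((hφ.div_const _).mul continuous_const)).intervalIntegrable _ _)
  have hEt : E t = 1 := by
    show Real.exp (-((Ψ t - Ψ t) / (4 * Φ) * x)) = 1
    rw [sub_self, zero_div, zero_mul, neg_zero, Real.exp_zero]
  have hE0 : 0 < E 0 := Real.exp_pos _
  have hE1 : ∀ s ∈ Icc (0 : ℝ) t, E s ≤ 1 := by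
    intro s hs
    refine Real.exp_le_one_iff.2 ?_
    have h1 : Ψ t - Ψ s = ∫ r in s..t, φ r :=
      intervalIntegral.integral_interval_sub_left (hφ.intervalIntegrable _ _)
        (hφ.intervalIntegrable _ _)
    have h2 : 0 ≤ Ψ t - Ψ s := by
      rw [h1]
      exact intervalIntegral.integral_nonneg hs.2 fun r _ => hpos r
    have h3 : 0 ≤ (Ψ t - Ψ s) / (4 * Φ) * x := by positivity
    linarith
  have hsplit : ∀ s, (1 + x) * E s * φ s
      = E s * φ s + (4 * Φ) * (E s * (φ s / (4 * Φ) * x)) := by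
    intro s
    field_simp
  have hI1 : IntervalIntegrable (fun s => E s * φ s) volume 0 t :=
    (hEc.mul hφ).intervalIntegrable _ _
  have hI2 : IntervalIntegrable (fun s => (4 * Φ) * (E s * (φ s / (4 * Φ) * x))) volume 0 t :=
    (continuous_const.mul (hEc.mul ((hφ.div_const _).mul continuous_const))).intervalIntegrable
      _ _
  have hmono : ∫ s in (0 : ℝ)..t, E s * φ s ≤ ∫ s in (0 : ℝ)..t, φ s := by
    refine intervalIntegral.integral_mono_on ht hI1 (hφ.intervalIntegrable _ _) ?_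
    intro s hs
    have h1 := mul_le_mul_of_nonneg_right (hE1 s hs) (hpos s)
    rw [one_mul] at h1
    exact h1
  have hgoal : ∫ s in (0 : ℝ)..t, (1 + x) * E s * φ s ≤ 5 * Φ := by
    rw [intervalIntegral.integral_congr (g := fun s =>
      E s * φ s + (4 * Φ) * (E s * (φ s / (4 * Φ) * x))) (fun s _ => hsplit s),
      intervalIntegral.integral_add hI1 hI2, intervalIntegral.integral_const_mul, hint1, hEt]
    have h1 := hint t ht
    nlinarith
  exact hgoal

end Pool.SQW
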