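import Pool.Agent.Work.MP_a2fcf1_an_sp.Interface

open MeasureTheory Set Filter
open Pool.Agent.Work.MP_a2fcf1_an_h64 (lf)
open scoped ContDiff

namespace Pool.SQW

theorem TRP_bd (m : ℝ × ℝ → ℂ) (hm : Lin m) (hl : ∀ y, 0 ≤ l1 y) (b : ℝ × ℝ → ℂ) (C ε : ℝ)
    (hε : 0 < ε) (hC : 0 ≤ C) (hb : ∀ ξ, ‖b ξ‖ ≤ C * Real.exp (-(ε * l1 ξ))) :
    ∃ C' : ℝ, 0 ≤ C' ∧ ∀ ξ, ‖m ξ * b ξ‖ ≤ C' * Real.exp (-(ε / 2 * l1 ξ)) := by
  obtain ⟨_, M, hM, hmb⟩ := hm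
  refine ⟨M * (1 + 2 / ε) * C, by positivity, fun ξ => ?_⟩
  have h1 : 1 + l1 ξ ≤ (1 + 2 / ε) * Real.exp (ε / 2 * l1 ξ) := by
    have h2 := Real.add_one_le_exp (ε / 2 * l1 ξ)
    have h3 : (1 + 2 / ε) * (ε / 2 * l1 ξ + 1) ≤ (1 + 2 / ε) * Real.exp (ε / 2 * l1 ξ) :=
      mul_le_mul_of_nonneg_left h2 (by positivity)
    have h4 : (1 + 2 / ε) * (ε / 2 * l1 ξ + 1) = 1 + l1 ξ + (ε / 2 * l1 ξ + 2 / ε) := by
      field_simp
      ring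
    have h5 : 0 ≤ ε / 2 * l1 ξ + 2 / ε := by
      have := hl ξ
      positivity
    linarith
  rw [norm_mul]
  calc ‖m ξ‖ * ‖b ξ‖ ≤ (M * (1 + l1 ξ)) * (C * Real.exp (-(ε * l1 ξ))) :=
        mul_le_mul (hmb ξ) (hb ξ) (norm_nonneg _) (mul_nonneg hM (by linarith [hl ξ]))
    _ ≤ (M * ((1 + 2 / ε) * Real.exp (ε / 2 * l1 ξ))) * (C * Real.exp (-(ε * l1 ξ))) := by
        refine mul_le_mul_of_nonneg_right (mul_le_mul_of_nonneg_left h1 hM) ?_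
        positivity
    _ = M * (1 + 2 / ε) * C * (Real.exp (ε / 2 * l1 ξ) * Real.exp (-(ε * l1 ξ))) := by ring
    _ = M * (1 + 2 / ε) * C * Real.exp (-(ε / 2 * l1 ξ)) := by
        rw [← Real.exp_add]
        congr 2
        ring

theorem TRP_exi (x : ℝ × ℝ) : Continuous (exi x) := by
  unfold exi
  fun_prop

theorem TRP_norm (x y : ℝ × ℝ) : ‖exi x y‖ = 1 := by
  unfold exi
  rw [mul_comm]
  exact Complex.norm_exp_ofReal_mul_I _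

theorem TRP_int (a : ℝ × ℝ → ℂ) (x : ℝ × ℝ) (ha : Integrable a) :
    Integrable fun y => a y * exi x y := by
  refine ha.norm.mono' (ha.1.mul (TRP_exi x).aestronglyMeasurable) ?_
  refine Eventually.of_forall fun y => ?_
  rw [norm_mul, TRP_norm, mul_one]

theorem p_TRP (hPRD : S_PRD) (hLMU : S_LMU) (_hKKB : S_KKB) (hEUB : S_EUB) (hIEX : S_IEX) :
    S_TRP := by
  intro b hb t ht x
  have hl : ∀ y, 0 ≤ l1 y := hEUB.2.2.2.1
  obtain ⟨⟨C, ε, hε, hC, hbd⟩, hmea, -⟩ := hb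
  obtain ⟨hm1, hm2, hr1, hr2, -⟩ := hLMU
  have hbt : ∀ ξ, ‖b ξ t‖ ≤ C * Real.exp (-(ε * l1 ξ)) := fun ξ => hbd ξ t ht
  have hbm : Measurable fun ξ => b ξ t := hmea t ht
  obtain ⟨C1, hC1, h1⟩ := TRP_bd m1 hm1 hl (fun ξ => b ξ t) C ε hε hC hbt
  obtain ⟨C2, hC2, h2⟩ := TRP_bd m2 hm2 hl (fun ξ => b ξ t) C ε hε hC hbt
  obtain ⟨C3, hC3, h3⟩ := TRP_bd rz1 hr1 hl (fun ξ => b ξ t) C ε hε hC hbt
  obtain ⟨C4, hC4, h4⟩ := TRP_bd rz2 hr2 hl (fun ξ => b ξ t) C ε hε hC hbt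
  obtain ⟨K, hK⟩ : ∃ K : ℝ, K = C1 + C2 + C3 + C4 := ⟨_, rfl⟩
  have hK0 : 0 ≤ K := by rw [hK]; positivity
  have g1 : ∀ ξ, ‖m1 ξ * b ξ t‖ ≤ K * Real.exp (-(ε / 2 * l1 ξ)) := fun ξ =>
    (h1 ξ).trans (mul_le_mul_of_nonneg_right (by linarith) (Real.exp_pos _).le)
  have g2 : ∀ ξ, ‖m2 ξ * b ξ t‖ ≤ K * Real.exp (-(ε / 2 * l1 ξ)) := fun ξ =>
    (h2 ξ).trans (mul_le_mul_of_nonneg_right (by linarith) (Real.exp_pos _).le)
  have g3 : ∀ ξ, ‖rz1 ξ * b ξ t‖ ≤ K * Real.exp (-(ε / 2 * l1 ξ)) := fun ξ =>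
    (h3 ξ).trans (mul_le_mul_of_nonneg_right (by linarith) (Real.exp_pos _).le)
  have g4 : ∀ ξ, ‖rz2 ξ * b ξ t‖ ≤ K * Real.exp (-(ε / 2 * l1 ξ)) := fun ξ =>
    (h4 ξ).trans (mul_le_mul_of_nonneg_right (by linarith) (Real.exp_pos _).le)
  have k1 : Measurable fun ξ => m1 ξ * b ξ t := hm1.1.mul hbm
  have k2 : Measurable fun ξ => m2 ξ * b ξ t := hm2.1.mul hbm
  have k3 : Measurable fun ξ => rz1 ξ * b ξ t := hr1.1.mul hbm
  have k4 : Measurable fun ξ => rz2 ξ * b ξ t := hr2.1.mul hbm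
  have hI : Integrable fun y : ℝ × ℝ => Real.exp (-(ε / 2 * l1 y)) := hIEX (ε / 2) (by linarith)
  have hint : ∀ a : ℝ × ℝ → ℂ, Measurable a → (∀ ξ, ‖a ξ‖ ≤ K * Real.exp (-(ε / 2 * l1 ξ))) →
      Integrable a := fun a ha hab =>
    (hI.const_mul K).mono' ha.aestronglyMeasurable (Eventually.of_forall hab)
  -- products
  have e1 := hPRD (fun ξ => rz2 ξ * b ξ t) (fun ξ => m1 ξ * b ξ t) K (ε / 2) (by linarith) k4 k1
    g4 g1 x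
  have e2 := hPRD (fun ξ => rz1 ξ * b ξ t) (fun ξ => m2 ξ * b ξ t) K (ε / 2) (by linarith) k3 k2
    g3 g2 x
  have hcv : ∀ a c : ℝ × ℝ → ℂ, Integrable a → Integrable c →
      Integrable fun ξ => ∫ η, a η * c (ξ - η) := by
    intro a c ha hc
    exact ha.integrable_convolution (ContinuousLinearMap.mul ℝ ℂ) hc
  have i1 := hcv _ _ (hint _ k4 g4) (hint _ k1 g1)
  have i2 := hcv _ _ (hint _ k3 g3) (hint _ k2 g2)
  have hin : ∀ a c : ℝ × ℝ → ℂ, Measurable a → Measurable c →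
      (∀ ξ, ‖a ξ‖ ≤ K * Real.exp (-(ε / 2 * l1 ξ))) →
      (∀ ξ, ‖c ξ‖ ≤ K * Real.exp (-(ε / 2 * l1 ξ))) → ∀ ξ, Integrable fun η => a η * c (ξ - η) := by
    intro a c ha hc hab hcb ξ
    refine ((hint a ha hab).norm.mul_const K).mono'
      (ha.mul (hc.comp (measurable_const.sub measurable_id))).aestronglyMeasurable ?_
    refine Eventually.of_forall fun η => ?_
    rw [norm_mul]
    refine mul_le_mul_of_nonneg_left ?_ (norm_nonneg _)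
    refine (hcb _).trans ?_
    calc K * Real.exp (-(ε / 2 * l1 (ξ - η))) ≤ K * 1 := by
          refine mul_le_mul_of_nonneg_left ?_ hK0
          rw [Real.exp_le_one_iff]
          have := hl (ξ - η)
          have : 0 ≤ ε / 2 * l1 (ξ - η) := by positivity
          linarith
      _ = K := mul_one K
  have hpt : ∀ ξ, cnv k0 b b ξ t =
      (∫ η, (rz1 η * b η t) * (m2 (ξ - η) * b (ξ - η) t)) -
        ∫ η, (rz2 η * b η t) * (m1 (ξ - η) * b (ξ - η) t) := by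
    intro ξ
    rw [← integral_sub (hin _ _ k3 k2 g3 g2 ξ) (hin _ _ k4 k1 g4 g1 ξ)]
    unfold cnv
    refine integral_congr_ae (Eventually.of_forall fun η => ?_)
    show ((k0 η (ξ - η) : ℝ) : ℂ) * (b η t * b (ξ - η) t) =
      (rz1 η * b η t) * (m2 (ξ - η) * b (ξ - η) t) - (rz2 η * b η t) * (m1 (ξ - η) * b (ξ - η) t)
    have hk : ((k0 η (ξ - η) : ℝ) : ℂ) = rz1 η * m2 (ξ - η) - rz2 η * m1 (ξ - η) := by
      unfold k0 cr rz1 rz2 m1 m2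
      push_cast
      have hII : Complex.I * Complex.I = -1 := Complex.I_mul_I
      linear_combination (((η.1 : ℝ) : ℂ) * ((ξ - η).2 : ℝ) * ((eu η : ℝ) : ℂ)⁻¹ -
        ((η.2 : ℝ) : ℂ) * ((ξ - η).1 : ℝ) * ((eu η : ℝ) : ℂ)⁻¹) * hII
    rw [hk]
    ring
  have e3 : FI (fun ξ => cnv k0 b b ξ t) x =
      FI (fun ξ => ∫ η, (rz1 η * b η t) * (m2 (ξ - η) * b (ξ - η) t)) x -
        FI (fun ξ => ∫ η, (rz2 η * b η t) * (m1 (ξ - η) * b (ξ - η) t)) x := by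
    unfold FI
    rw [← integral_sub (TRP_int _ x i2) (TRP_int _ x i1)]
    refine integral_congr_ae (Eventually.of_forall fun ξ => ?_)
    show cnv k0 b b ξ t * exi x ξ = _
    rw [hpt ξ, sub_mul]
  rw [e3, ← e1, ← e2]
  ring

end Pool.SQW
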