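import Pool.Agent.Work.MP_a2fcf1_an_sp.Interface

/-!
# Block WDC: exponential decay of the weights
-/

open MeasureTheory Set Filter
open scoped ContDiff

namespace Pool.SQW

theorem WDC_lin (w : ℝ → ℝ) (hw : QC w) (r : ℝ) (hr : 0 ≤ r) : w r ≤ w 1 * (1 + r) := by
  have h1 : 0 ≤ w 1 := hw.1 1 zero_le_one
  rcases le_total r 1 with h | h
  · have h2 := (hw.2 r 1 hr h).1
    nlinarith [mul_nonneg h1 hr]
  · have h2 := (hw.2 1 r zero_le_one h).2
    nlinarith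

theorem p_WDC (h1 : S_RHB) (h2 : S_NNB) (h3 : S_EUB) : S_WDC := by
  intro P hP
  obtain ⟨hal, hal2, hka, hN, hde, hPh, hQC, hI, hJ⟩ := id hP
  obtain ⟨-, hrh⟩ := h1 P hP
  obtain ⟨-, -, hn0, -, -, -, -, -, -, -, -, -, hl1n⟩ := h2 P.N P.de hN hde
  obtain ⟨-, -, heu0, hl0, -, -, -, -, heul, -, -, -, -, -⟩ := h3
  have hND : 0 < P.N + P.de := by positivity
  have hw1 : 0 ≤ P.w 1 := hQC.1 1 zero_le_one
  refine ⟨P.w 1 * (1 + (P.N + P.de)), 1 / (2 * (P.N + P.de)), by positivity, by positivity, ?_⟩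
  intro ξ t ht
  have hn := hn0 ξ
  have he := heu0 ξ
  have hw : P.w (eu ξ) ≤ P.w 1 * (1 + (P.N + P.de)) * (1 + nn P.N P.de ξ) := by
    calc P.w (eu ξ) ≤ P.w 1 * (1 + eu ξ) := WDC_lin P.w hQC _ he
      _ ≤ P.w 1 * ((1 + (P.N + P.de)) * (1 + nn P.N P.de ξ)) := by
          apply mul_le_mul_of_nonneg_left _ hw1
          have := heul ξ
          have := hl1n ξ
          nlinarith
      _ = P.w 1 * (1 + (P.N + P.de)) * (1 + nn P.N P.de ξ) := by ring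
  have hexp : Real.exp (-(P.ka * t * eu ξ ^ (2 * P.al)) - P.rh t * nn P.N P.de ξ) ≤
      Real.exp (-(1 / (2 * (P.N + P.de)) * l1 ξ)) := by
    apply Real.exp_le_exp.mpr
    have ha : 0 ≤ P.ka * t * eu ξ ^ (2 * P.al) := by positivity
    have hb : 1 / 2 * nn P.N P.de ξ ≤ P.rh t * nn P.N P.de ξ :=
      mul_le_mul_of_nonneg_right (hrh t ht).1 hn
    have hc : 1 / (2 * (P.N + P.de)) * l1 ξ ≤ 1 / 2 * nn P.N P.de ξ := by
      have h5 : 1 / (2 * (P.N + P.de)) * l1 ξ ≤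
          1 / (2 * (P.N + P.de)) * ((P.N + P.de) * nn P.N P.de ξ) :=
        mul_le_mul_of_nonneg_left (hl1n ξ) (by positivity)
      have h6 : 1 / (2 * (P.N + P.de)) * ((P.N + P.de) * nn P.N P.de ξ) =
          1 / 2 * nn P.N P.de ξ := by
        field_simp
      linarith
    linarith
  have h5 : (1 + nn P.N P.de ξ) * ((1 + nn P.N P.de ξ) ^ 5)⁻¹ ≤ 1 := by
    have hp : 0 < 1 + nn P.N P.de ξ := by linarith
    rw [← div_eq_mul_inv, div_le_one (by positivity)]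
    calc 1 + nn P.N P.de ξ = (1 + nn P.N P.de ξ) ^ 1 := (pow_one _).symm
      _ ≤ (1 + nn P.N P.de ξ) ^ 5 := pow_le_pow_right₀ (by linarith) (by norm_num)
  have hE := Real.exp_pos (-(P.ka * t * eu ξ ^ (2 * P.al)) - P.rh t * nn P.N P.de ξ)
  have hC : 0 ≤ P.w 1 * (1 + (P.N + P.de)) := by positivity
  unfold Par.W Par.V
  calc P.w (eu ξ) * Real.exp (-(P.ka * t * eu ξ ^ (2 * P.al)) - P.rh t * nn P.N P.de ξ) *
        ((1 + nn P.N P.de ξ) ^ 5)⁻¹
      ≤ (P.w 1 * (1 + (P.N + P.de)) * (1 + nn P.N P.de ξ)) *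
        Real.exp (-(P.ka * t * eu ξ ^ (2 * P.al)) - P.rh t * nn P.N P.de ξ) *
        ((1 + nn P.N P.de ξ) ^ 5)⁻¹ := by
        apply mul_le_mul_of_nonneg_right _ (by positivity)
        exact mul_le_mul_of_nonneg_right hw hE.le
    _ = (P.w 1 * (1 + (P.N + P.de))) *
        Real.exp (-(P.ka * t * eu ξ ^ (2 * P.al)) - P.rh t * nn P.N P.de ξ) *
        ((1 + nn P.N P.de ξ) * ((1 + nn P.N P.de ξ) ^ 5)⁻¹) := by ring
    _ ≤ (P.w 1 * (1 + (P.N + P.de))) *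
        Real.exp (-(P.ka * t * eu ξ ^ (2 * P.al)) - P.rh t * nn P.N P.de ξ) * 1 := by
        apply mul_le_mul_of_nonneg_left h5 (by positivity)
    _ ≤ P.w 1 * (1 + (P.N + P.de)) * Real.exp (-(1 / (2 * (P.N + P.de)) * l1 ξ)) := by
        rw [mul_one]
        exact mul_le_mul_of_nonneg_left hexp hC

end Pool.SQW
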