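import Pool.Agent.Work.MP_a2fcf1_an_sp.Interface

/-!
# Supercritical SQG on the plane, block WME (typist helper87)
-/

set_option autoImplicit false

open MeasureTheory Set Filter

namespace Pool.SQW

theorem p_WME (hEUB : S_EUB) (hNNB : S_NNB) : S_WME := by
  have heu : Measurable eu := hEUB.1.measurable
  have h0 : ∀ y, 0 ≤ eu y := hEUB.2.2.1
  have hw : ∀ w, QC w → Measurable fun y : ℝ × ℝ => w (eu y) := by
    intro w hw
    have hmono : Monotone fun r : ℝ => w (max r 0) := by
      intro r s hrs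
      exact (hw.2 (max r 0) (max s 0) (le_max_right _ _) (max_le_max_right 0 hrs)).1
    have h1 : (fun y : ℝ × ℝ => w (eu y)) = (fun r : ℝ => w (max r 0)) ∘ eu := by
      funext y
      simp only [Function.comp_apply]
      rw [max_eq_left (h0 y)]
    rw [h1]
    exact hmono.measurable.comp heu
  refine ⟨hw, fun P hP => ?_⟩
  obtain ⟨-, -, -, hN, hde, -, hqc, -, -⟩ := hP
  have hn := hNNB P.N P.de hN hde
  have hnm : Measurable (nn P.N P.de) := hn.1.measurable
  have hV : ∀ t, Measurable fun ξ => P.V ξ t := by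
    intro t
    unfold Par.V
    have h1 : Measurable fun ξ : ℝ × ℝ => eu ξ ^ (2 * P.al) := heu.pow_const _
    exact (hw P.w hqc).mul
      (((h1.const_mul (P.ka * t)).neg.sub (hnm.const_mul (P.rh t))).exp)
  have hV0 : ∀ ξ t, 0 ≤ P.V ξ t := by
    intro ξ t
    unfold Par.V
    exact mul_nonneg (hqc.1 _ (h0 ξ)) (Real.exp_pos _).le
  refine ⟨hV, fun t => ?_, hV0, fun ξ t => ?_⟩
  · unfold Par.W
    exact (hV t).mul (((hnm.const_add 1).pow_const 5).inv)
  · unfold Par.W
    have h1 : 0 ≤ nn P.N P.de ξ := hn.2.2.1 ξ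
    exact mul_nonneg (hV0 ξ t) (by positivity)

end Pool.SQW
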