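import Pool.Agent.Work.MP_a2fcf1_an_sp.Interface

/-!
# Supercritical SQG on the plane, block WPT (typist helper87)
-/

set_option autoImplicit false

open MeasureTheory Set Filter

namespace Pool.SQW

theorem WPT_num {a b c : ℝ} (ha : 0 ≤ a) (hb : 0 ≤ b) (hc : 0 ≤ c) (habc : c ≤ a + b) :
    (a * ((1 + a) ^ 5)⁻¹) * (b * ((1 + b) ^ 5)⁻¹) ≤
      16 * ((1 + c) ^ 4)⁻¹ * (((1 + a) ^ 4)⁻¹ + ((1 + b) ^ 4)⁻¹) := by
  have ha1 : 0 < 1 + a := by linarith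
  have hb1 : 0 < 1 + b := by linarith
  have hc1 : 0 < 1 + c := by linarith
  have e1 : ∀ x : ℝ, 0 ≤ x → x * ((1 + x) ^ 5)⁻¹ ≤ ((1 + x) ^ 4)⁻¹ := by
    intro x hx
    have hx1 : 0 < 1 + x := by linarith
    rw [← div_eq_mul_inv, ← one_div, div_le_div_iff₀ (by positivity) (by positivity)]
    have : 0 < (1 + x) ^ 4 := by positivity
    nlinarith
  have e2 : ∀ x y : ℝ, 0 ≤ x → x ≤ y → c ≤ x + y →
      ((1 + y) ^ 4)⁻¹ ≤ 16 * ((1 + c) ^ 4)⁻¹ := by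
    intro x y hx hxy hc'
    have hy1 : 0 < 1 + y := by linarith
    have h1 : 1 + c ≤ 2 * (1 + y) := by linarith
    have h2 : (1 + c) ^ 4 ≤ (2 * (1 + y)) ^ 4 := by gcongr
    rw [← div_eq_mul_inv, ← one_div, div_le_div_iff₀ (by positivity) (by positivity)]
    have h3 : (2 * (1 + y)) ^ 4 = 16 * (1 + y) ^ 4 := by ring
    linarith
  have h4 : (a * ((1 + a) ^ 5)⁻¹) * (b * ((1 + b) ^ 5)⁻¹) ≤
      ((1 + a) ^ 4)⁻¹ * ((1 + b) ^ 4)⁻¹ :=
    mul_le_mul (e1 a ha) (e1 b hb) (by positivity) (by positivity)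
  refine h4.trans ?_
  have p1 : 0 < ((1 + a) ^ 4)⁻¹ := by positivity
  have p2 : 0 < ((1 + b) ^ 4)⁻¹ := by positivity
  have p3 : 0 < 16 * ((1 + c) ^ 4)⁻¹ := by positivity
  rcases le_total a b with hab | hab
  · have h5 := e2 a b ha hab habc
    calc ((1 + a) ^ 4)⁻¹ * ((1 + b) ^ 4)⁻¹ ≤ ((1 + a) ^ 4)⁻¹ * (16 * ((1 + c) ^ 4)⁻¹) := by
          gcongr
      _ = 16 * ((1 + c) ^ 4)⁻¹ * ((1 + a) ^ 4)⁻¹ := by ring
      _ ≤ _ := by
          refine mul_le_mul_of_nonneg_left ?_ p3.le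
          linarith
  · have h5 := e2 b a hb hab (by linarith)
    calc ((1 + a) ^ 4)⁻¹ * ((1 + b) ^ 4)⁻¹ ≤ (16 * ((1 + c) ^ 4)⁻¹) * ((1 + b) ^ 4)⁻¹ := by
          gcongr
      _ ≤ _ := by
          refine mul_le_mul_of_nonneg_left ?_ p3.le
          linarith

theorem p_WPT (hKPB : S_KPB) (hNNB : S_NNB) (hWME : S_WME) : S_WPT := by
  intro P hP s hs hrh η ζ
  have hk := hKPB P hP s hs η ζ
  have hW := hWME.2 P hP
  obtain ⟨hal, hal2, hka, hN, hde, -, hqc, -, -⟩ := hP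
  obtain ⟨-, -, hn0, -, hsub, -, hh0, -, -, hh4, -, -, -⟩ := hNNB P.N P.de hN hde
  have a0 : 0 ≤ nn P.N P.de η := hn0 η
  have b0 : 0 ≤ nn P.N P.de ζ := hn0 ζ
  have c0 : 0 ≤ nn P.N P.de (η + ζ) := hn0 _
  have cab : nn P.N P.de (η + ζ) ≤ nn P.N P.de η + nn P.N P.de ζ := hsub η ζ
  have h4a := hh4 η
  have h4b := hh4 ζ
  have hnum := WPT_num a0 b0 c0 cab
  have hV : 0 ≤ P.w (eu (η + ζ)) := by
    refine hqc.1 _ ?_
    exact Real.sqrt_nonneg _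
  have hF : ∀ y, 0 ≤ P.F s y := by
    intro y
    have : 0 ≤ eu y := Real.sqrt_nonneg _
    exact mul_nonneg (mul_nonneg (hqc.1 _ this) (inv_nonneg.2 this)) (Real.exp_pos _).le
  have hF1 := hF η
  have hF2 := hF ζ
  have hexp : Real.exp (-(P.rh s * nn P.N P.de η) - P.rh s * nn P.N P.de ζ) ≤
      Real.exp (-(P.rh s * nn P.N P.de (η + ζ))) := by
    rw [Real.exp_le_exp]
    have := mul_le_mul_of_nonneg_left cab hrh
    linarith
  -- the left side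
  have hL : |kk η ζ| * (P.W η s * P.W ζ s) =
      (|kk η ζ| * (P.w (eu η) * P.w (eu ζ)) *
        Real.exp (-(P.ka * s * (eu η ^ (2 * P.al) + eu ζ ^ (2 * P.al))))) *
      Real.exp (-(P.rh s * nn P.N P.de η) - P.rh s * nn P.N P.de ζ) *
      (((1 + nn P.N P.de η) ^ 5)⁻¹ * ((1 + nn P.N P.de ζ) ^ 5)⁻¹) := by
    have e1 : Real.exp (-(P.ka * s * (eu η ^ (2 * P.al) + eu ζ ^ (2 * P.al)))) *
        Real.exp (-(P.rh s * nn P.N P.de η) - P.rh s * nn P.N P.de ζ) =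
        Real.exp (-(P.ka * s * eu η ^ (2 * P.al)) - P.rh s * nn P.N P.de η) *
        Real.exp (-(P.ka * s * eu ζ ^ (2 * P.al)) - P.rh s * nn P.N P.de ζ) := by
      rw [← Real.exp_add, ← Real.exp_add]
      congr 1
      ring
    unfold Par.W Par.V
    calc _ = |kk η ζ| * (P.w (eu η) * P.w (eu ζ)) *
        (Real.exp (-(P.ka * s * eu η ^ (2 * P.al)) - P.rh s * nn P.N P.de η) *
        Real.exp (-(P.ka * s * eu ζ ^ (2 * P.al)) - P.rh s * nn P.N P.de ζ)) *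
        (((1 + nn P.N P.de η) ^ 5)⁻¹ * ((1 + nn P.N P.de ζ) ^ 5)⁻¹) := by ring
      _ = _ := by rw [← e1]; ring
  have hR : 8 * (P.N * P.de) * (P.V (η + ζ) s * ((1 + nn P.N P.de (η + ζ)) ^ 4)⁻¹) *
        ((P.F s η + P.F s ζ) * (hh P.N P.de η + hh P.N P.de ζ)) =
      (1 / 2 * (P.N * P.de) * P.w (eu (η + ζ)) *
        Real.exp (-(P.ka * s * eu (η + ζ) ^ (2 * P.al))) * (P.F s η + P.F s ζ)) *
      Real.exp (-(P.rh s * nn P.N P.de (η + ζ))) *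
      (16 * ((1 + nn P.N P.de (η + ζ)) ^ 4)⁻¹ * (hh P.N P.de η + hh P.N P.de ζ)) := by
    unfold Par.V
    have e1 : Real.exp (-(P.ka * s * eu (η + ζ) ^ (2 * P.al)) - P.rh s * nn P.N P.de (η + ζ)) =
        Real.exp (-(P.ka * s * eu (η + ζ) ^ (2 * P.al))) *
          Real.exp (-(P.rh s * nn P.N P.de (η + ζ))) := by
      rw [← Real.exp_add]
      congr 1
    rw [e1]
    ring
  rw [hL, hR]
  have hA0 : 0 ≤ 1 / 2 * (P.N * P.de) * P.w (eu (η + ζ)) *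
      Real.exp (-(P.ka * s * eu (η + ζ) ^ (2 * P.al))) * (P.F s η + P.F s ζ) := by positivity
  calc _ ≤ (1 / 2 * (P.N * P.de) * (nn P.N P.de η * nn P.N P.de ζ) * P.w (eu (η + ζ)) *
      Real.exp (-(P.ka * s * eu (η + ζ) ^ (2 * P.al))) * (P.F s η + P.F s ζ)) *
      Real.exp (-(P.rh s * nn P.N P.de (η + ζ))) *
      (((1 + nn P.N P.de η) ^ 5)⁻¹ * ((1 + nn P.N P.de ζ) ^ 5)⁻¹) := by
        refine mul_le_mul_of_nonneg_right ?_ (by positivity)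
        exact mul_le_mul hk hexp (Real.exp_pos _).le (by positivity)
    _ = (1 / 2 * (P.N * P.de) * P.w (eu (η + ζ)) *
        Real.exp (-(P.ka * s * eu (η + ζ) ^ (2 * P.al))) * (P.F s η + P.F s ζ)) *
      Real.exp (-(P.rh s * nn P.N P.de (η + ζ))) *
      ((nn P.N P.de η * ((1 + nn P.N P.de η) ^ 5)⁻¹) *
        (nn P.N P.de ζ * ((1 + nn P.N P.de ζ) ^ 5)⁻¹)) := by ring
    _ ≤ _ := by
        refine mul_le_mul_of_nonneg_left ?_ (mul_nonneg hA0 (Real.exp_pos _).le)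
        refine hnum.trans ?_
        refine mul_le_mul_of_nonneg_left ?_ (by positivity)
        linarith

end Pool.SQW
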