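import Pool.Agent.Work.MP_a2fcf1_an_sp.B_BAL
import Pool.Agent.Work.MP_a2fcf1_an_sp.B_BAN
import Pool.Agent.Work.MP_a2fcf1_an_sp.B_CLO
import Pool.Agent.Work.MP_a2fcf1_an_sp.B_CO0
import Pool.Agent.Work.MP_a2fcf1_an_sp.B_CVB
import Pool.Agent.Work.MP_a2fcf1_an_sp.B_CVL
import Pool.Agent.Work.MP_a2fcf1_an_sp.B_DAT
import Pool.Agent.Work.MP_a2fcf1_an_sp.B_DRV
import Pool.Agent.Work.MP_a2fcf1_an_sp.B_DUH
import Pool.Agent.Work.MP_a2fcf1_an_sp.B_EUB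
import Pool.Agent.Work.MP_a2fcf1_an_sp.B_EXI
import Pool.Agent.Work.MP_a2fcf1_an_sp.B_FMO
import Pool.Agent.Work.MP_a2fcf1_an_sp.B_GAD
import Pool.Agent.Work.MP_a2fcf1_an_sp.B_GCN
import Pool.Agent.Work.MP_a2fcf1_an_sp.B_GEN
import Pool.Agent.Work.MP_a2fcf1_an_sp.B_GLR
import Pool.Agent.Work.MP_a2fcf1_an_sp.B_GML
import Pool.Agent.Work.MP_a2fcf1_an_sp.B_GPR
import Pool.Agent.Work.MP_a2fcf1_an_sp.B_GSY
import Pool.Agent.Work.MP_a2fcf1_an_sp.B_HDI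
import Pool.Agent.Work.MP_a2fcf1_an_sp.B_HHI
import Pool.Agent.Work.MP_a2fcf1_an_sp.B_I1
import Pool.Agent.Work.MP_a2fcf1_an_sp.B_I2
import Pool.Agent.Work.MP_a2fcf1_an_sp.B_I3
import Pool.Agent.Work.MP_a2fcf1_an_sp.B_IEX
import Pool.Agent.Work.MP_a2fcf1_an_sp.B_JAA
import Pool.Agent.Work.MP_a2fcf1_an_sp.B_JBB
import Pool.Agent.Work.MP_a2fcf1_an_sp.B_KE
import Pool.Agent.Work.MP_a2fcf1_an_sp.B_KKB
import Pool.Agent.Work.MP_a2fcf1_an_sp.B_KPB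
import Pool.Agent.Work.MP_a2fcf1_an_sp.B_LIP
import Pool.Agent.Work.MP_a2fcf1_an_sp.B_LMU
import Pool.Agent.Work.MP_a2fcf1_an_sp.B_MOM
import Pool.Agent.Work.MP_a2fcf1_an_sp.B_NLB
import Pool.Agent.Work.MP_a2fcf1_an_sp.B_NLT
import Pool.Agent.Work.MP_a2fcf1_an_sp.B_NNB
import Pool.Agent.Work.MP_a2fcf1_an_sp.B_PH0
import Pool.Agent.Work.MP_a2fcf1_an_sp.B_PHC
import Pool.Agent.Work.MP_a2fcf1_an_sp.B_PHF
import Pool.Agent.Work.MP_a2fcf1_an_sp.B_PRD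
import Pool.Agent.Work.MP_a2fcf1_an_sp.B_REA
import Pool.Agent.Work.MP_a2fcf1_an_sp.B_RES
import Pool.Agent.Work.MP_a2fcf1_an_sp.B_RHB
import Pool.Agent.Work.MP_a2fcf1_an_sp.B_RLT
import Pool.Agent.Work.MP_a2fcf1_an_sp.B_SM0
import Pool.Agent.Work.MP_a2fcf1_an_sp.B_SM1
import Pool.Agent.Work.MP_a2fcf1_an_sp.B_SMI
import Pool.Agent.Work.MP_a2fcf1_an_sp.B_SMS
import Pool.Agent.Work.MP_a2fcf1_an_sp.B_SUB
import Pool.Agent.Work.MP_a2fcf1_an_sp.B_SYC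
import Pool.Agent.Work.MP_a2fcf1_an_sp.B_SYD
import Pool.Agent.Work.MP_a2fcf1_an_sp.B_SYG
import Pool.Agent.Work.MP_a2fcf1_an_sp.B_TIM
import Pool.Agent.Work.MP_a2fcf1_an_sp.B_TRP
import Pool.Agent.Work.MP_a2fcf1_an_sp.B_WDC
import Pool.Agent.Work.MP_a2fcf1_an_sp.B_WME
import Pool.Agent.Work.MP_a2fcf1_an_sp.B_WPT

/-!
# Supercritical SQG on the plane: the blocks put together
-/

namespace Pool.SQW

theorem t_EUB : S_EUB := p_EUB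

theorem t_NNB : S_NNB := p_NNB

theorem t_SUB : S_SUB := p_SUB t_EUB

theorem t_KPB : S_KPB := p_KPB t_EUB t_NNB t_SUB

theorem t_WME : S_WME := p_WME t_EUB t_NNB

theorem t_WPT : S_WPT := p_WPT t_KPB t_NNB t_WME

theorem t_REA : S_REA := p_REA

theorem t_FMO : S_FMO := p_FMO t_EUB t_SUB t_WME

theorem t_I3 : S_I3 := p_I3

theorem t_HHI : S_HHI := p_HHI t_I3

theorem t_PH0 : S_PH0 := p_PH0 t_FMO t_HHI t_NNB

theorem t_PHC : S_PHC := p_PHC t_FMO t_PH0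

theorem t_PHF : S_PHF := p_PHF t_FMO t_PH0

theorem t_RHB : S_RHB := p_RHB t_PHC t_PHF

theorem t_KKB : S_KKB := p_KKB t_EUB

theorem t_KE : S_KE := p_KE t_WPT t_REA t_FMO t_PH0 t_RHB t_NNB t_KKB t_WME

theorem t_TIM : S_TIM := p_TIM

theorem t_NLT : S_NLT := p_NLT t_TIM t_PHC t_PHF

theorem t_NLB : S_NLB := p_NLB t_KE t_NLT t_WME t_PHC t_RHB

theorem t_DAT : S_DAT := p_DAT t_RHB t_NNB

theorem t_BAL : S_BAL := p_BAL t_NLB t_DAT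

theorem t_BAN : S_BAN := p_BAN

theorem t_WDC : S_WDC := p_WDC t_RHB t_NNB t_EUB

theorem t_CLO : S_CLO := p_CLO t_WDC

theorem t_CVB : S_CVB := p_CVB t_EUB

theorem t_IEX : S_IEX := p_IEX

theorem t_CO0 : S_CO0 := p_CO0 t_CVB t_IEX

theorem t_CVL : S_CVL := p_CVL t_KKB t_CVB t_IEX

theorem t_DRV : S_DRV := p_DRV t_IEX

theorem t_DUH : S_DUH := p_DUH t_EUB

theorem t_LIP : S_LIP := p_LIP t_NLB t_CVL t_CO0 t_KKB

theorem t_SYC : S_SYC := p_SYC t_KKB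

theorem t_SYD : S_SYD := p_SYD t_EUB

theorem t_EXI : S_EXI := p_EXI t_BAN t_BAL t_LIP t_CLO t_DUH t_CO0 t_SYC t_SYD t_KKB t_WDC t_WME

theorem t_GAD : S_GAD := p_GAD

theorem t_HDI : S_HDI := p_HDI

theorem t_GPR : S_GPR := p_GPR

theorem t_GCN : S_GCN := p_GCN t_HDI t_CO0 t_GAD t_GPR t_CVB t_IEX

theorem t_GML : S_GML := p_GML

theorem t_LMU : S_LMU := p_LMU t_EUB

theorem t_GSY : S_GSY := p_GSY t_GAD t_GML t_GCN t_LMU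

theorem t_SM0 : S_SM0 := p_SM0 t_IEX

theorem t_SM1 : S_SM1 := p_SM1 t_IEX

theorem t_SMI : S_SMI := p_SMI t_SM0 t_SM1 t_GML t_GPR t_LMU

theorem t_PRD : S_PRD := p_PRD t_IEX t_EUB

theorem t_TRP : S_TRP := p_TRP t_PRD t_LMU t_KKB t_EUB t_IEX

theorem t_SMS : S_SMS := p_SMS t_KKB t_CVB t_IEX

theorem t_RLT : S_RLT := p_RLT

theorem t_MOM : S_MOM := p_MOM

theorem t_GLR : S_GLR := p_GLR t_EUB t_DUH t_CO0 t_KKB t_GSY t_SMI t_SM1 t_DRV t_TRP t_SMS t_RLT t_LMU t_MOM t_IEX t_GPR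

theorem t_SYG : S_SYG := p_SYG

theorem t_GEN : S_GEN := p_GEN t_EXI t_GLR t_SYG t_SUB t_WDC t_DAT t_IEX t_WME t_NNB

theorem t_I1 : S_I1 := p_I1

theorem t_I2 : S_I2 := p_I2

theorem t_JAA : S_JAA := p_JAA t_I1 t_I2 t_EUB t_NNB

theorem t_JBB : S_JBB := p_JBB t_I1 t_I3 t_EUB t_NNB

theorem t_RES : S_RES := p_RES t_GEN t_JAA t_JBB

end Pool.SQW
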