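import Pool.Agent.Work.MP_a2fcf1_an_sp.Interface

/-! Block BAL. -/

open MeasureTheory Set Filter
open scoped ContDiff

noncomputable section

namespace Pool.SQW

theorem p_BAL (hNLB : S_NLB) (hDAT : S_DAT) : S_BAL := by
  intro P hP g b R hR hg hb ξ t ht
  have h1 := hNLB P hP b b R R hR hR hb hb ξ t ht
  have h2 := hDAT P hP g hg ξ t ht
  have hE : 0 ≤ Real.exp (-(P.ka * t * eu ξ ^ (2 * P.al))) := (Real.exp_pos _).le
  unfold duh
  rw [norm_mul, Complex.norm_real, Real.norm_of_nonneg hE]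
  refine (mul_le_mul_of_nonneg_left (norm_sub_le _ _) hE).trans ?_
  rw [mul_add]
  refine (add_le_add h2 h1).trans (le_of_eq ?_)
  ring

end Pool.SQW
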