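import Pool.Agent.Work.MP_a2fcf1_an_sp.Interface

/-! Block EUB: the lengths. -/

open MeasureTheory Set Filter
open Pool.Agent.Work.MP_a2fcf1_an_h64 (lf)
open scoped ContDiff

namespace Pool.SQW

theorem EUB_sq (y : ℝ × ℝ) : eu y ^ 2 = y.1 ^ 2 + y.2 ^ 2 :=
  Real.sq_sqrt (by positivity)

theorem EUB_nn (y : ℝ × ℝ) : 0 ≤ eu y := Real.sqrt_nonneg _

theorem EUB_cr (y z : ℝ × ℝ) : |cr y z| ≤ eu y * eu z := by
  apply abs_le_of_sq_le_sq _ (mul_nonneg (EUB_nn y) (EUB_nn z))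
  rw [mul_pow, EUB_sq, EUB_sq]
  unfold cr
  nlinarith [sq_nonneg (y.1 * z.1 + y.2 * z.2)]

theorem EUB_tri (y z : ℝ × ℝ) : eu (y + z) ≤ eu y + eu z := by
  apply le_of_sq_le_sq _ (add_nonneg (EUB_nn y) (EUB_nn z))
  have h0 : y.1 * z.1 + y.2 * z.2 ≤ eu y * eu z := by
    apply le_of_sq_le_sq _ (mul_nonneg (EUB_nn y) (EUB_nn z))
    rw [mul_pow, EUB_sq, EUB_sq]
    nlinarith [sq_nonneg (y.1 * z.2 - y.2 * z.1)]
  have h1 := EUB_sq (y + z)
  rw [Prod.fst_add, Prod.snd_add] at h1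
  have h2 := EUB_sq y
  have h3 := EUB_sq z
  nlinarith

theorem p_EUB : S_EUB := by
  refine ⟨?_, ?_, EUB_nn, ?_, ?_, ?_, ?_, ?_, ?_, ?_, EUB_tri, ?_, ?_, EUB_cr⟩
  · unfold eu
    fun_prop
  · unfold l1
    fun_prop
  · intro y
    unfold l1
    positivity
  · intro y
    unfold eu
    rw [Prod.fst_neg, Prod.snd_neg, neg_sq, neg_sq]
  · intro y
    unfold l1
    rw [Prod.fst_neg, Prod.snd_neg, abs_neg, abs_neg]
  · intro y
    exact Real.abs_le_sqrt (by nlinarith [sq_nonneg y.2])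
  · intro y
    exact Real.abs_le_sqrt (by nlinarith [sq_nonneg y.1])
  · intro y
    unfold l1
    apply le_of_sq_le_sq _ (by positivity)
    rw [EUB_sq]
    have h1 := abs_nonneg y.1
    have h2 := abs_nonneg y.2
    have h3 := sq_abs y.1
    have h4 := sq_abs y.2
    nlinarith [mul_nonneg h1 h2]
  · intro y
    unfold l1
    have h1 : |y.1| ≤ eu y := Real.abs_le_sqrt (by nlinarith [sq_nonneg y.2])
    have h2 : |y.2| ≤ eu y := Real.abs_le_sqrt (by nlinarith [sq_nonneg y.1])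
    linarith
  · intro y z
    unfold l1
    rw [Prod.fst_add, Prod.snd_add]
    have h1 := abs_add_le y.1 z.1
    have h2 := abs_add_le y.2 z.2
    linarith
  · intro y
    constructor
    · intro h
      have h1 := EUB_sq y
      rw [h] at h1
      have h2 : y.1 = 0 := by nlinarith [sq_nonneg y.1, sq_nonneg y.2]
      have h3 : y.2 = 0 := by nlinarith [sq_nonneg y.1, sq_nonneg y.2]
      exact Prod.ext h2 h3
    · intro h
      rw [h]
      unfold eu
      simp

end Pool.SQW
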