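import Pool.Agent.Work.MP_a2fcf1_an_sp.Interface

open MeasureTheory Set Filter
open scoped ContDiff Topology

namespace Pool.SQW

theorem p_HDI : S_HDI := by
  intro g g' v hg hg' hd hv hb hi t ht
  have hmr : ∀ s : ℝ, Measurable fun ξ => Pool.Agent.Work.MP_a2fcf1_an_h64.refl (g ξ) s := by
    intro s
    by_cases hs : 0 ≤ s
    · have e : (fun ξ => Pool.Agent.Work.MP_a2fcf1_an_h64.refl (g ξ) s) = fun ξ => g ξ s := by
        funext ξ
        exact Pool.Agent.Work.MP_a2fcf1_an_h64.refl_of_nonneg _ hs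
      rw [e]
      exact hg s hs
    · have hs' : s ≤ 0 := le_of_lt (not_le.mp hs)
      have e : (fun ξ => Pool.Agent.Work.MP_a2fcf1_an_h64.refl (g ξ) s) =
          fun ξ => 2 * g ξ 0 - g ξ (-s) := by
        funext ξ
        exact Pool.Agent.Work.MP_a2fcf1_an_h64.refl_of_nonpos _ hs'
      rw [e]
      exact ((hg 0 le_rfl).const_mul 2).sub (hg (-s) (by linarith))
  have hir : Integrable fun ξ => Pool.Agent.Work.MP_a2fcf1_an_h64.refl (g ξ) t := by
    have e : (fun ξ => Pool.Agent.Work.MP_a2fcf1_an_h64.refl (g ξ) t) = fun ξ => g ξ t := by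
      funext ξ
      exact Pool.Agent.Work.MP_a2fcf1_an_h64.refl_of_nonneg _ ht
    rw [e]
    exact hi t ht
  have h1 : HasDerivAt
      (fun s => ∫ ξ, Pool.Agent.Work.MP_a2fcf1_an_h64.refl (g ξ) s) (∫ ξ, g' ξ |t|) t := by
    refine (hasDerivAt_integral_of_dominated_loc_of_deriv_le (μ := volume)
      (F := fun s ξ => Pool.Agent.Work.MP_a2fcf1_an_h64.refl (g ξ) s)
      (F' := fun s ξ => g' ξ |s|) (x₀ := t) (s := univ) (bound := v) univ_mem
      (Eventually.of_forall fun s => (hmr s).aestronglyMeasurable) hir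
      ((hg' |t| (abs_nonneg t)).aestronglyMeasurable)
      (Eventually.of_forall fun ξ s _ => hb ξ |s| (abs_nonneg s)) hv
      (Eventually.of_forall fun ξ s _ => ?_)).2
    exact Pool.Agent.Work.MP_a2fcf1_an_h64.hasDerivAt_refl (hd ξ) s
  rw [abs_of_nonneg ht] at h1
  refine h1.hasDerivWithinAt.congr (fun s hs => ?_) ?_
  · exact integral_congr_ae (Eventually.of_forall fun ξ =>
      (Pool.Agent.Work.MP_a2fcf1_an_h64.refl_of_nonneg _ hs).symm)
  · exact integral_congr_ae (Eventually.of_forall fun ξ =>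
      (Pool.Agent.Work.MP_a2fcf1_an_h64.refl_of_nonneg _ ht).symm)

end Pool.SQW
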