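import Pool.Agent.Work.MP_a2fcf1_an_sp.Interface

/-!
Block KPB: the pointwise estimate of the kernel.
-/

open MeasureTheory Set Filter
open scoped ContDiff

namespace Pool.SQW

theorem KPB_F_nonneg (h1 : S_EUB) (P : Par) (hP : P.Ok) (s : ℝ) (η : ℝ × ℝ) : 0 ≤ P.F s η := by
  obtain ⟨-, -, -, -, -, -, hQ, -, -⟩ := hP
  obtain ⟨-, -, e0, -⟩ := h1
  unfold Par.F
  exact mul_nonneg (mul_nonneg (hQ.1 _ (e0 η)) (inv_nonneg.mpr (e0 η))) (Real.exp_pos _).le

theorem KPB_half (h1 : S_EUB) (h2 : S_NNB) (h3 : S_SUB) (P : Par) (hP : P.Ok) (s : ℝ)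
    (hs : 0 ≤ s) (η ζ : ℝ × ℝ) (hle : eu η ≤ eu ζ) :
    |kk η ζ| * (P.w (eu η) * P.w (eu ζ)) *
      Real.exp (-(P.ka * s * (eu η ^ (2 * P.al) + eu ζ ^ (2 * P.al)))) ≤
    (1 / 2) * (P.N * P.de) * (nn P.N P.de η * nn P.N P.de ζ) * P.w (eu (η + ζ)) *
      Real.exp (-(P.ka * s * eu (η + ζ) ^ (2 * P.al))) * P.F s η := by
  have hF := KPB_F_nonneg h1 P hP s η
  obtain ⟨ha0, ha1, hk, hN, hd, -, hQ, -, -⟩ := hP
  obtain ⟨-, -, e0, -, eneg, -, -, -, -, -, etri, -, -, ecr⟩ := h1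
  obtain ⟨-, -, n0, -, -, ncr, -⟩ := h2 P.N P.de hN hd
  obtain ⟨hp0, hsub⟩ := h3 P.al ha0 ha1
  have hsub := hsub η ζ
  rw [min_eq_left hle] at hsub
  obtain ⟨a, ha⟩ : ∃ a, a = eu η := ⟨_, rfl⟩
  obtain ⟨b, hb⟩ : ∃ b, b = eu ζ := ⟨_, rfl⟩
  obtain ⟨c, hc⟩ : ∃ c, c = eu (η + ζ) := ⟨_, rfl⟩
  have hbc : b ≤ c + a := by
    have h := etri (η + ζ) (-η)
    rw [eneg, ← ha, ← hc] at h
    have h' : η + ζ + -η = ζ := by abel
    rw [h', ← hb] at h
    exact h
  have hcr := ncr η ζ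
  have hn1 := n0 η
  have hn2 := n0 ζ
  have hNN : 0 ≤ P.N * P.de * (nn P.N P.de η * nn P.N P.de ζ) :=
    mul_nonneg (mul_nonneg hN.le hd.le) (mul_nonneg hn1 hn2)
  have ha' : 0 ≤ a := ha ▸ e0 η
  have hb' : 0 ≤ b := hb ▸ e0 ζ
  have hc' : 0 ≤ c := hc ▸ e0 (η + ζ)
  have hkk : kk η ζ = (1 / 2) * cr η ζ * (a⁻¹ - b⁻¹) := by rw [ha, hb]; rfl
  have hFF : P.F s η = P.w a * a⁻¹ * Real.exp (-(P.lam * s * a ^ (2 * P.al))) := by
    rw [ha]; rfl
  have hlam : P.lam = (2 - (2 : ℝ) ^ (2 * P.al)) * P.ka := rfl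
  rw [← ha, ← hb] at hle
  rw [← ha, ← hb, ← hc] at hsub
  rw [← ha, ← hb, ← hc]
  have hwa : 0 ≤ P.w a := hQ.1 a ha'
  have hwb : 0 ≤ P.w b := hQ.1 b hb'
  have hwc : 0 ≤ P.w c := hQ.1 c hc'
  have hE : Real.exp (-(P.ka * s * (a ^ (2 * P.al) + b ^ (2 * P.al)))) ≤
      Real.exp (-(P.ka * s * c ^ (2 * P.al))) * Real.exp (-(P.lam * s * a ^ (2 * P.al))) := by
    rw [← Real.exp_add, Real.exp_le_exp, hlam]
    have h4 := mul_le_mul_of_nonneg_left hsub (mul_nonneg hk.le hs)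
    nlinarith
  rcases ha'.eq_or_lt with h0 | h0
  · -- `η = 0` in length: the kernel vanishes
    have hz : kk η ζ = 0 := by
      have h5 : |cr η ζ| ≤ 0 := by
        have := ecr η ζ
        rw [← ha, ← h0, zero_mul] at this
        exact this
      have h6 : cr η ζ = 0 := abs_eq_zero.mp (le_antisymm h5 (abs_nonneg _))
      rw [hkk, h6]; ring
    rw [hz, abs_zero, zero_mul, zero_mul]
    positivity
  · have hb0 : 0 < b := h0.trans_le hle
    have hw : (b - a) / b * P.w b ≤ P.w c := by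
      rcases le_total b c with h | h
      · have h7 := (hQ.2 b c hb' h).1
        have h8 : (b - a) / b ≤ 1 := by rw [div_le_one hb0]; linarith
        have h9 : 0 ≤ (b - a) / b := div_nonneg (by linarith) hb'
        calc (b - a) / b * P.w b ≤ 1 * P.w b := mul_le_mul_of_nonneg_right h8 hwb
          _ = P.w b := one_mul _
          _ ≤ P.w c := h7
      · have h7 := (hQ.2 c b hc' h).2
        rw [div_mul_eq_mul_div, div_le_iff₀ hb0]
        calc (b - a) * P.w b ≤ c * P.w b := mul_le_mul_of_nonneg_right (by linarith) hwb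
          _ = P.w b * c := mul_comm _ _
          _ ≤ P.w c * b := h7
    have habs : |kk η ζ| ≤ (1 / 2) * (P.N * P.de * (nn P.N P.de η * nn P.N P.de ζ)) *
        (a⁻¹ * ((b - a) / b)) := by
      rw [hkk, abs_mul, abs_mul, abs_of_pos (by norm_num : (0 : ℝ) < 1 / 2)]
      have h10 : |a⁻¹ - b⁻¹| = a⁻¹ * ((b - a) / b) := by
        have h11 : a⁻¹ - b⁻¹ = a⁻¹ * ((b - a) / b) := by field_simp
        rw [h11, abs_of_nonneg]
        exact mul_nonneg (inv_nonneg.mpr ha') (div_nonneg (by linarith) hb')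
      rw [h10]
      refine mul_le_mul_of_nonneg_right (mul_le_mul_of_nonneg_left hcr (by norm_num)) ?_
      exact mul_nonneg (inv_nonneg.mpr ha') (div_nonneg (by linarith) hb')
    calc |kk η ζ| * (P.w a * P.w b) *
          Real.exp (-(P.ka * s * (a ^ (2 * P.al) + b ^ (2 * P.al))))
        ≤ ((1 / 2) * (P.N * P.de * (nn P.N P.de η * nn P.N P.de ζ)) *
        (a⁻¹ * ((b - a) / b))) * (P.w a * P.w b) *
          (Real.exp (-(P.ka * s * c ^ (2 * P.al))) *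
            Real.exp (-(P.lam * s * a ^ (2 * P.al)))) := by
          refine mul_le_mul (mul_le_mul_of_nonneg_right habs (mul_nonneg hwa hwb)) hE
            (Real.exp_pos _).le ?_
          refine mul_nonneg (mul_nonneg (mul_nonneg (by norm_num) hNN) ?_) (mul_nonneg hwa hwb)
          · exact mul_nonneg (inv_nonneg.mpr ha') (div_nonneg (by linarith) hb')
      _ = ((1 / 2) * (P.N * P.de * (nn P.N P.de η * nn P.N P.de ζ)) * a⁻¹ * P.w a *
          (Real.exp (-(P.ka * s * c ^ (2 * P.al))) *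
            Real.exp (-(P.lam * s * a ^ (2 * P.al))))) * ((b - a) / b * P.w b) := by ring
      _ ≤ ((1 / 2) * (P.N * P.de * (nn P.N P.de η * nn P.N P.de ζ)) * a⁻¹ * P.w a *
          (Real.exp (-(P.ka * s * c ^ (2 * P.al))) *
            Real.exp (-(P.lam * s * a ^ (2 * P.al))))) * P.w c := by
          refine mul_le_mul_of_nonneg_left hw ?_
          refine mul_nonneg (mul_nonneg (mul_nonneg (mul_nonneg (by norm_num) hNN)
            (inv_nonneg.mpr ha')) hwa) (mul_pos (Real.exp_pos _) (Real.exp_pos _)).le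
      _ = _ := by rw [hFF]; ring

theorem p_KPB (h1 : S_EUB) (h2 : S_NNB) (h3 : S_SUB) : S_KPB := by
  intro P hP s hs η ζ
  have hF1 := KPB_F_nonneg h1 P hP s η
  have hF2 := KPB_F_nonneg h1 P hP s ζ
  have hX : 0 ≤ (1 / 2) * (P.N * P.de) * (nn P.N P.de η * nn P.N P.de ζ) * P.w (eu (η + ζ)) *
      Real.exp (-(P.ka * s * eu (η + ζ) ^ (2 * P.al))) := by
    obtain ⟨-, -, -, hN, hd, -, hQ, -, -⟩ := hP
    obtain ⟨-, -, e0, -⟩ := h1
    obtain ⟨-, -, n0, -⟩ := h2 P.N P.de hN hd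
    exact mul_nonneg (mul_nonneg (mul_nonneg (mul_nonneg (by norm_num)
      (mul_nonneg hN.le hd.le)) (mul_nonneg (n0 η) (n0 ζ))) (hQ.1 _ (e0 _)))
      (Real.exp_pos _).le
  rcases le_total (eu η) (eu ζ) with h | h
  · refine (KPB_half h1 h2 h3 P hP s hs η ζ h).trans ?_
    exact mul_le_mul_of_nonneg_left (by linarith) hX
  · have h4 := KPB_half h1 h2 h3 P hP s hs ζ η h
    have e1 : |kk ζ η| = |kk η ζ| := by
      have e2 : kk ζ η = kk η ζ := by
        unfold kk cr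
        ring
      rw [e2]
    rw [e1, add_comm ζ η, mul_comm (P.w (eu ζ)) (P.w (eu η)),
      add_comm (eu ζ ^ (2 * P.al)) (eu η ^ (2 * P.al)),
      mul_comm (nn P.N P.de ζ) (nn P.N P.de η)] at h4
    refine h4.trans ?_
    exact mul_le_mul_of_nonneg_left (by linarith) hX

end Pool.SQW
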