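import Pool.Agent.Work.MP_a2fcf1_an_sp.Interface

/-!
# Block PRD: the product of two functions with exponentially decaying amplitudes
-/

open MeasureTheory Set Filter
open scoped ContDiff

namespace Pool.SQW

theorem PRD_exc (x : ℝ × ℝ) : Continuous fun y => exi x y := by
  unfold exi
  fun_prop

theorem PRD_exn (x y : ℝ × ℝ) : ‖exi x y‖ = 1 := by
  unfold exi
  rw [mul_comm, Complex.norm_exp_ofReal_mul_I]

theorem PRD_exa (x y z : ℝ × ℝ) : exi x (y + z) = exi x y * exi x z := by
  unfold exi
  rw [← Complex.exp_add]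
  congr 1
  simp only [Prod.fst_add, Prod.snd_add]
  push_cast
  ring

theorem PRD_int (h1 : S_IEX) (a : ℝ × ℝ → ℂ) (C ε : ℝ) (hε : 0 < ε) (ha : Measurable a)
    (hb : ∀ y, ‖a y‖ ≤ C * Real.exp (-(ε * l1 y))) (x : ℝ × ℝ) :
    Integrable fun y => a y * exi x y := by
  refine ((h1 ε hε).const_mul C).mono' ?_ ?_
  · exact (ha.mul (PRD_exc x).measurable).aestronglyMeasurable
  · filter_upwards with y
    rw [norm_mul, PRD_exn, mul_one]
    exact hb y

theorem p_PRD (h1 : S_IEX) (_h2 : S_EUB) : S_PRD := by
  intro a c C ε hε ha hc hab hcb x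
  have hA := PRD_int h1 a C ε hε ha hab x
  have hB := PRD_int h1 c C ε hε hc hcb x
  set f : ℝ × ℝ → ℂ := fun y => a y * exi x y with hf
  set g : ℝ × ℝ → ℂ := fun y => c y * exi x y with hg
  have hfg : ∀ ξ η : ℝ × ℝ, f η * g (ξ - η) = (a η * c (ξ - η)) * exi x ξ := by
    intro ξ η
    have h := PRD_exa x η (ξ - η)
    rw [add_sub_cancel] at h
    simp only [hf, hg]
    rw [h]
    ring
  have hprod : Integrable (fun p : (ℝ × ℝ) × (ℝ × ℝ) => f p.2 * g (p.1 - p.2))
      (volume.prod volume) := by
    have := hA.convolution_integrand (ContinuousLinearMap.mul ℂ ℂ) hB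
    exact this
  have hswap := integral_integral_swap (f := fun ξ η => f η * g (ξ - η)) hprod
  unfold FI
  calc (∫ y, a y * exi x y) * ∫ y, c y * exi x y
      = ∫ η, f η * ∫ y, g y := by
        rw [integral_mul_const]
    _ = ∫ η, ∫ ξ, f η * g (ξ - η) := by
        apply integral_congr_ae
        filter_upwards with η
        rw [integral_const_mul, integral_sub_right_eq_self g η]
    _ = ∫ ξ, ∫ η, f η * g (ξ - η) := hswap.symm
    _ = ∫ ξ, (∫ η, a η * c (ξ - η)) * exi x ξ := by
        apply integral_congr_ae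
        filter_upwards with ξ
        rw [← integral_mul_const]
        apply integral_congr_ae
        filter_upwards with η
        exact hfg ξ η

end Pool.SQW
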