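import Pool.Agent.Work.MP_a2fcf1_an_sp.Interface

/-! # Block SYC (helper1) -/

open MeasureTheory Set Filter
open Pool.Agent.Work.MP_a2fcf1_an_h64 (lf)
open scoped ContDiff

namespace Pool.SQW

theorem p_SYC (hKKB : S_KKB) : S_SYC := by
  intro b hb ξ t ht
  unfold cnv
  rw [← integral_conj, ← integral_neg_eq_self (fun η : ℝ × ℝ =>
    ((kk η (-ξ - η) : ℝ) : ℂ) * (b η t * b (-ξ - η) t)) volume]
  refine integral_congr_ae (Eventually.of_forall fun η => ?_)
  simp only
  rw [show -ξ - -η = -(ξ - η) by abel, hKKB.2.2.2.1, hb η t ht, hb (ξ - η) t ht, map_mul, map_mul,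
    Complex.conj_ofReal]

end Pool.SQW
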