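import Mathlib
import Pool.Agent.Work.MP_a2fcf1_an_h64.Smooth

/-!
# Supercritical SQG on the plane: definitions

Fourier side description of global solutions of the dissipative SQG equation on `ℝ²`.
-/

open MeasureTheory Set Filter
open scoped ContDiff

noncomputable section

namespace Pool.SQW

/-- The Euclidean length of a point of the plane. -/
def eu (y : ℝ × ℝ) : ℝ := Real.sqrt (y.1 ^ 2 + y.2 ^ 2)

/-- The `ℓ¹` length. -/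
def l1 (y : ℝ × ℝ) : ℝ := |y.1| + |y.2|

/-- The character `exp (i x · y)`. -/
def exi (x y : ℝ × ℝ) : ℂ := Complex.exp (Complex.I * ((x.1 * y.1 + x.2 * y.2 : ℝ) : ℂ))

/-- The function with amplitude `a`: `FI a x = ∫ a y exp (i x · y) dy`. -/
def FI (a : ℝ × ℝ → ℂ) (x : ℝ × ℝ) : ℂ := ∫ y, a y * exi x y

/-- Symbol of the first Riesz transform. -/
def rz1 (y : ℝ × ℝ) : ℂ := -Complex.I * ((y.1 / eu y : ℝ) : ℂ)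

/-- Symbol of the second Riesz transform. -/
def rz2 (y : ℝ × ℝ) : ℂ := -Complex.I * ((y.2 / eu y : ℝ) : ℂ)

/-- Symbol of `(-Δ)^α`. -/
def frl (α : ℝ) (y : ℝ × ℝ) : ℂ := ((eu y ^ (2 * α) : ℝ) : ℂ)

/-- `θ₀` is the initial datum of a global smooth solution of the SQG equation on the plane with
dissipation `κ (-Δ)^α`. The amplitude `a t` of `θ t` decays faster than any power, uniformly in
`t ≥ 0`, and the nonlocal operators are the multipliers applied to it. -/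
def GloballyRegular (κ α : ℝ) (θ₀ : ℝ × ℝ → ℝ) : Prop :=
  ∃ (θ : ℝ → ℝ × ℝ → ℝ) (a : ℝ → ℝ × ℝ → ℂ), θ 0 = θ₀ ∧
    ContDiffOn ℝ ∞ (fun p : ℝ × (ℝ × ℝ) => θ p.1 p.2) (Ici 0 ×ˢ univ) ∧
    (∀ t, 0 ≤ t → Measurable (a t)) ∧
    (∀ m : ℕ, ∃ C : ℝ, ∀ t, 0 ≤ t → ∀ y, (1 + eu y) ^ m * ‖a t y‖ ≤ C) ∧
    (∀ t, 0 ≤ t → ∀ x, ((θ t x : ℝ) : ℂ) = FI (a t) x) ∧
    ∀ t, 0 < t → ∀ x : ℝ × ℝ,
      ((deriv (fun τ => θ τ x) t : ℝ) : ℂ) +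
        (-FI (fun y => rz2 y * a t y) x) * ((deriv (fun y => θ t (y, x.2)) x.1 : ℝ) : ℂ) +
        FI (fun y => rz1 y * a t y) x * ((deriv (fun y => θ t (x.1, y)) x.2 : ℝ) : ℂ) +
        (κ : ℂ) * FI (fun y => frl α y * a t y) x = 0

/-- Quasi-concave profiles: nonnegative and nondecreasing, and `w r / r` is nonincreasing. -/
def QC (w : ℝ → ℝ) : Prop :=
  (∀ r, 0 ≤ r → 0 ≤ w r) ∧ ∀ r s, 0 ≤ r → r ≤ s → w r ≤ w s ∧ w s * r ≤ w r * s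

/-- The anisotropic length. -/
def nn (N δ : ℝ) (y : ℝ × ℝ) : ℝ := |y.1| / N + |y.2| / δ

/-- The anisotropic integrable weight. -/
def hh (N δ : ℝ) (y : ℝ × ℝ) : ℝ := ((1 + |y.1| / N) ^ 2)⁻¹ * ((1 + |y.2| / δ) ^ 2)⁻¹

/-- The integrand of the smallness condition. -/
def JJ (α N δ : ℝ) (w : ℝ → ℝ) (y : ℝ × ℝ) : ℝ := w (eu y) * eu y ^ (-1 - 2 * α) * hh N δ y

/-! ### Amplitudes depending on time: `b ξ t` -/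

/-- Uniform exponential decay for nonnegative times. -/
def Dec (b : ℝ × ℝ → ℝ → ℂ) : Prop :=
  ∃ C ε : ℝ, 0 < ε ∧ 0 ≤ C ∧ ∀ ξ t, 0 ≤ t → ‖b ξ t‖ ≤ C * Real.exp (-(ε * l1 ξ))

/-- Measurability in the frequency for nonnegative times. -/
def Mea (b : ℝ × ℝ → ℝ → ℂ) : Prop := ∀ t, 0 ≤ t → Measurable fun ξ => b ξ t

/-- Families with `n` exponentially decaying time derivatives. -/
def Good : ℕ → (ℝ × ℝ → ℝ → ℂ) → Prop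
  | 0, b => Dec b ∧ Mea b ∧ ∀ ξ, ContinuousOn (b ξ) (Ici 0)
  | (n + 1), b => Dec b ∧ Mea b ∧ ∃ b' : ℝ × ℝ → ℝ → ℂ, Good n b' ∧
      ∀ ξ t, 0 ≤ t → HasDerivWithinAt (b ξ) (b' ξ t) (Ici 0) t

/-- Measurable multipliers of linear growth. -/
def Lin (m : ℝ × ℝ → ℂ) : Prop :=
  Measurable m ∧ ∃ M : ℝ, 0 ≤ M ∧ ∀ ξ, ‖m ξ‖ ≤ M * (1 + l1 ξ)

/-- Admissible kernels. -/
def Ker (k : ℝ × ℝ → ℝ × ℝ → ℝ) : Prop :=
  Measurable (fun p : (ℝ × ℝ) × (ℝ × ℝ) => k p.1 p.2) ∧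
    ∃ M : ℝ, 0 ≤ M ∧ ∀ η ζ, |k η ζ| ≤ M * ((1 + l1 η) * (1 + l1 ζ))

/-- The bilinear operation with kernel `k`. -/
def cnv (k : ℝ × ℝ → ℝ × ℝ → ℝ) (b c : ℝ × ℝ → ℝ → ℂ) (ξ : ℝ × ℝ) (t : ℝ) : ℂ :=
  ∫ η, ((k η (ξ - η) : ℝ) : ℂ) * (b η t * c (ξ - η) t)

/-- The cross product. -/
def cr (η ζ : ℝ × ℝ) : ℝ := η.1 * ζ.2 - η.2 * ζ.1

/-- The symmetrised kernel of the SQG nonlinearity. -/
def kk (η ζ : ℝ × ℝ) : ℝ := (1 / 2) * cr η ζ * ((eu η)⁻¹ - (eu ζ)⁻¹)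

/-- The kernel of the SQG nonlinearity before symmetrisation. -/
def k0 (η ζ : ℝ × ℝ) : ℝ := cr η ζ * (eu η)⁻¹

/-- Symmetry of the amplitudes of real functions. -/
def Sym (b : ℝ × ℝ → ℝ → ℂ) : Prop := ∀ ξ t, 0 ≤ t → b (-ξ) t = (starRingEnd ℂ) (b ξ t)

/-- The right side of the Duhamel formula with datum `g` and nonlinear term `q`. -/
def duh (κ α : ℝ) (g : ℝ × ℝ → ℂ) (q : ℝ × ℝ → ℝ → ℂ) (ξ : ℝ × ℝ) (t : ℝ) : ℂ :=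
  ((Real.exp (-(κ * t * eu ξ ^ (2 * α))) : ℝ) : ℂ) *
    (g ξ - ∫ s in (0 : ℝ)..t, ((Real.exp (κ * s * eu ξ ^ (2 * α)) : ℝ) : ℂ) * q ξ s)

/-- The closed half space of nonnegative times. -/
def Half : Set (ℝ × (ℝ × ℝ)) := Ici 0 ×ˢ univ

/-- The space time function with amplitude `b`. -/
def ser (b : ℝ × ℝ → ℝ → ℂ) (p : ℝ × (ℝ × ℝ)) : ℂ := ∫ ξ, b ξ p.1 * exi p.2 ξ

/-- Multiplier of the first derivative. -/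
def m1 (ξ : ℝ × ℝ) : ℂ := Complex.I * ((ξ.1 : ℝ) : ℂ)

/-- Multiplier of the second derivative. -/
def m2 (ξ : ℝ × ℝ) : ℂ := Complex.I * ((ξ.2 : ℝ) : ℂ)

/-! ### The weights -/

/-- The parameters: `al = α`, `ka = κ`, `de = δ`, `Ph = Φ` (the budget) and the profile `w`. -/
structure Par where
  (al ka N de Ph : ℝ)
  (w : ℝ → ℝ)

/-- `λ = (2 - 2 ^ (2α)) κ`. -/
def Par.lam (P : Par) : ℝ := (2 - (2 : ℝ) ^ (2 * P.al)) * P.ka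

/-- The standing assumptions on the parameters. -/
def Par.Ok (P : Par) : Prop :=
  0 < P.al ∧ P.al < 1 / 2 ∧ 0 < P.ka ∧ 0 < P.N ∧ 0 < P.de ∧ 0 < P.Ph ∧ QC P.w ∧
    Integrable (JJ P.al P.N P.de P.w) ∧ ∫ y, JJ P.al P.N P.de P.w y ≤ P.lam * P.Ph

/-- `F_s(η) = w(|η|) |η|⁻¹ exp (-λ s |η| ^ (2α))`. -/
def Par.F (P : Par) (s : ℝ) (η : ℝ × ℝ) : ℝ :=
  P.w (eu η) * (eu η)⁻¹ * Real.exp (-(P.lam * s * eu η ^ (2 * P.al)))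

/-- `φ(s) = ∫ F_s h` (with `s` replaced by `max s 0`). -/
def Par.ph (P : Par) (s : ℝ) : ℝ := ∫ η, P.F (max s 0) η * hh P.N P.de η

/-- `Ψ(t) = ∫₀ᵗ φ`. -/
def Par.Ps (P : Par) (t : ℝ) : ℝ := ∫ s in (0 : ℝ)..t, P.ph s

/-- `ρ(t) = 3/4 - Ψ(t) / (4Φ)`. -/
def Par.rh (P : Par) (t : ℝ) : ℝ := 3 / 4 - P.Ps t / (4 * P.Ph)

/-- `W₀(ξ,t) = w(|ξ|) exp (-κ t |ξ| ^ (2α) - ρ(t) n(ξ))`. -/
def Par.V (P : Par) (ξ : ℝ × ℝ) (t : ℝ) : ℝ :=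
  P.w (eu ξ) * Real.exp (-(P.ka * t * eu ξ ^ (2 * P.al)) - P.rh t * nn P.N P.de ξ)

/-- The weight `W(ξ,t) = W₀(ξ,t) (1 + n(ξ)) ^ (-5)`. -/
def Par.W (P : Par) (ξ : ℝ × ℝ) (t : ℝ) : ℝ := P.V ξ t * ((1 + nn P.N P.de ξ) ^ 5)⁻¹

end Pool.SQW
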