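import Pool.Agent.Work.MP_a2fcf1_an_sp.Defs

/-!
# Supercritical SQG on the plane: the statements of the blocks (paper proof: note 3287)
-/

open MeasureTheory Set Filter
open Pool.Agent.Work.MP_a2fcf1_an_h64 (lf)
open scoped ContDiff

namespace Pool.SQW

/-! ### Part A: lengths, kernel, weights -/

/-- EUB. -/
def S_EUB : Prop :=
  Continuous eu ∧ Continuous l1 ∧ (∀ y, 0 ≤ eu y) ∧ (∀ y, 0 ≤ l1 y) ∧ (∀ y, eu (-y) = eu y) ∧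
    (∀ y, l1 (-y) = l1 y) ∧ (∀ y, |y.1| ≤ eu y) ∧ (∀ y, |y.2| ≤ eu y) ∧ (∀ y, eu y ≤ l1 y) ∧
    (∀ y, l1 y ≤ 2 * eu y) ∧ (∀ y z, eu (y + z) ≤ eu y + eu z) ∧
    (∀ y z, l1 (y + z) ≤ l1 y + l1 z) ∧ (∀ y, eu y = 0 ↔ y = 0) ∧
    ∀ y z, |cr y z| ≤ eu y * eu z

/-- NNB. `(1+n)^4 ≥ (1+|y₁|/N)² (1+|y₂|/δ)²`. -/
def S_NNB : Prop :=
  ∀ N δ : ℝ, 0 < N → 0 < δ →
    Continuous (nn N δ) ∧ Continuous (hh N δ) ∧ (∀ y, 0 ≤ nn N δ y) ∧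
    (∀ y, nn N δ (-y) = nn N δ y) ∧ (∀ y z, nn N δ (y + z) ≤ nn N δ y + nn N δ z) ∧
    (∀ y z, |cr y z| ≤ N * δ * (nn N δ y * nn N δ z)) ∧ (∀ y, 0 < hh N δ y) ∧
    (∀ y, hh N δ y ≤ 1) ∧ (∀ y, hh N δ (-y) = hh N δ y) ∧
    (∀ y, ((1 + nn N δ y) ^ 4)⁻¹ ≤ hh N δ y) ∧
    (∀ a b c : ℝ, |a| ≤ |c| → hh N δ (c, b) ≤ hh N δ (a, b)) ∧
    (∀ a b d : ℝ, |b| ≤ |d| → hh N δ (a, d) ≤ hh N δ (a, b)) ∧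
    ∀ y, l1 y ≤ (N + δ) * nn N δ y

/-- SUB. For `0 < p = 2α < 1` and `0 ≤ a ≤ b`: `(a+b)^p - b^p ≤ (2a)^p - a^p` by concavity. -/
def S_SUB : Prop :=
  ∀ α : ℝ, 0 < α → α < 1 / 2 → 0 < 2 - (2 : ℝ) ^ (2 * α) ∧
    ∀ y z : ℝ × ℝ, eu (y + z) ^ (2 * α) +
      (2 - (2 : ℝ) ^ (2 * α)) * (min (eu y) (eu z)) ^ (2 * α) ≤
        eu y ^ (2 * α) + eu z ^ (2 * α)

/-- KKB. -/
def S_KKB : Prop :=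
  Ker kk ∧ Ker k0 ∧ (∀ η ζ, kk ζ η = kk η ζ) ∧ (∀ η ζ, kk (-η) (-ζ) = kk η ζ) ∧
    ∀ η ζ, k0 η ζ + k0 ζ η = 2 * kk η ζ

/-- WME. Measurability of `w ∘ eu` (monotone on `[0,∞)`) and of the weights. -/
def S_WME : Prop :=
  (∀ w, QC w → Measurable fun y : ℝ × ℝ => w (eu y)) ∧
    ∀ P : Par, P.Ok → (∀ t, Measurable fun ξ => P.V ξ t) ∧ (∀ t, Measurable fun ξ => P.W ξ t) ∧
      (∀ ξ t, 0 ≤ P.V ξ t) ∧ ∀ ξ t, 0 ≤ P.W ξ t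

/-- KPB, Step 2 of the note: the pointwise estimate of the kernel.
For `0 < |η| ≤ |ζ|`: `| |η|⁻¹ - |ζ|⁻¹ | ≤ min 1 (|η+ζ|/|ζ|) / |η|` and
`min 1 (|η+ζ|/|ζ|) w(|ζ|) ≤ w(|η+ζ|)`; then SUB. -/
def S_KPB : Prop :=
  ∀ P : Par, P.Ok → ∀ s, 0 ≤ s → ∀ η ζ : ℝ × ℝ,
    |kk η ζ| * (P.w (eu η) * P.w (eu ζ)) *
      Real.exp (-(P.ka * s * (eu η ^ (2 * P.al) + eu ζ ^ (2 * P.al)))) ≤
    (1 / 2) * (P.N * P.de) * (nn P.N P.de η * nn P.N P.de ζ) * P.w (eu (η + ζ)) *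
      Real.exp (-(P.ka * s * eu (η + ζ) ^ (2 * P.al))) * (P.F s η + P.F s ζ)

/-- WPT, first half of Step 4. `n (1+n)^(-5) ≤ (1+n)^(-4)` and
`(1+n(η))^(-4) (1+n(ζ))^(-4) ≤ 16 (1+n(η+ζ))^(-4) ((1+n(η))^(-4) + (1+n(ζ))^(-4))`. -/
def S_WPT : Prop :=
  ∀ P : Par, P.Ok → ∀ s, 0 ≤ s → 0 ≤ P.rh s → ∀ η ζ : ℝ × ℝ,
    |kk η ζ| * (P.W η s * P.W ζ s) ≤
      8 * (P.N * P.de) * (P.V (η + ζ) s * ((1 + nn P.N P.de (η + ζ)) ^ 4)⁻¹) *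
        ((P.F s η + P.F s ζ) * (hh P.N P.de η + hh P.N P.de ζ))

/-- REA, Step 3: the rearrangement inequality with constant 4. -/
def S_REA : Prop :=
  ∀ F H : ℝ × ℝ → ℝ, Measurable F → Measurable H → (∀ y, 0 ≤ F y) → (∀ y, 0 ≤ H y) →
    (∀ a b c : ℝ, a ≠ 0 → b ≠ 0 → |a| ≤ |c| → F (c, b) ≤ F (a, b)) →
    (∀ a b d : ℝ, a ≠ 0 → b ≠ 0 → |b| ≤ |d| → F (a, d) ≤ F (a, b)) →
    (∀ a b c : ℝ, a ≠ 0 → b ≠ 0 → |a| ≤ |c| → H (c, b) ≤ H (a, b)) →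
    (∀ a b d : ℝ, a ≠ 0 → b ≠ 0 → |b| ≤ |d| → H (a, d) ≤ H (a, b)) →
    Integrable (fun y => F y * H y) → ∀ ξ : ℝ × ℝ,
      Integrable (fun y => F y * H (ξ - y)) ∧ ∫ y, F y * H (ξ - y) ≤ 4 * ∫ y, F y * H y

/-- FMO: the functions `F_s`, `s ≥ 0`. -/
def S_FMO : Prop :=
  ∀ P : Par, P.Ok → 0 < P.lam ∧ ∀ s, 0 ≤ s →
    Measurable (P.F s) ∧ (∀ y, 0 ≤ P.F s y) ∧ (∀ y, P.F s (-y) = P.F s y) ∧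
    (∀ y, P.F s y ≤ P.F 0 y) ∧
    (∀ a b c : ℝ, a ≠ 0 → b ≠ 0 → |a| ≤ |c| → P.F s (c, b) ≤ P.F s (a, b)) ∧
    (∀ a b d : ℝ, a ≠ 0 → b ≠ 0 → |b| ≤ |d| → P.F s (a, d) ≤ P.F s (a, b))

/-- I3. -/
def S_I3 : Prop :=
  ∀ d : ℝ, 0 < d → Integrable (fun x : ℝ => ((1 + |x| / d) ^ 2)⁻¹) ∧
    ∫ x : ℝ, ((1 + |x| / d) ^ 2)⁻¹ = 2 * d

/-- HHI. -/
def S_HHI : Prop := ∀ N δ : ℝ, 0 < N → 0 < δ → Integrable (hh N δ)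

/-- PH0. `F_0 h ≤ w |y|^(-1-2α) h` for `|y| ≤ 1` and `F_0 h ≤ w(1) h` for `|y| ≥ 1`. -/
def S_PH0 : Prop :=
  ∀ P : Par, P.Ok → ∀ s, 0 ≤ s → Integrable fun y => P.F s y * hh P.N P.de y

/-- PHC. -/
def S_PHC : Prop := ∀ P : Par, P.Ok → Continuous P.ph ∧ ∀ s, 0 ≤ P.ph s

/-- PHF. Fubini: `∫₀ᵀ exp (-λ s x) ds ≤ 1/(λ x)`, `x = |η|^(2α)`. -/
def S_PHF : Prop := ∀ P : Par, P.Ok → ∀ T, 0 ≤ T → P.Ps T ≤ P.Ph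

/-- TIM, Step 5. -/
def S_TIM : Prop :=
  ∀ (φ : ℝ → ℝ) (Φ : ℝ), Continuous φ → (∀ s, 0 ≤ φ s) → 0 < Φ →
    (∀ T, 0 ≤ T → ∫ s in (0 : ℝ)..T, φ s ≤ Φ) → ∀ t x : ℝ, 0 ≤ t → 0 ≤ x →
      ∫ s in (0 : ℝ)..t, (1 + x) *
        Real.exp (-(((∫ r in (0 : ℝ)..t, φ r) - ∫ r in (0 : ℝ)..s, φ r) / (4 * Φ) * x)) * φ s ≤
          5 * Φ

/-- RHB. -/
def S_RHB : Prop :=
  ∀ P : Par, P.Ok → Continuous P.rh ∧ ∀ t, 0 ≤ t → 1 / 2 ≤ P.rh t ∧ P.rh t ≤ 3 / 4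

/-- KE, Step 4: `∫ (F(η)+F(ξ-η)) (h(η)+h(ξ-η)) dη ≤ 10 φ(s)`. -/
def S_KE : Prop :=
  ∀ P : Par, P.Ok → ∀ s, 0 ≤ s → ∀ ξ : ℝ × ℝ,
    Integrable (fun η => |kk η (ξ - η)| * (P.W η s * P.W (ξ - η) s)) ∧
    ∫ η, |kk η (ξ - η)| * (P.W η s * P.W (ξ - η) s) ≤
      80 * (P.N * P.de) * P.ph s * (P.V ξ s * ((1 + nn P.N P.de ξ) ^ 4)⁻¹)

/-- NLT: the time integral. -/
def S_NLT : Prop :=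
  ∀ P : Par, P.Ok → ∀ (ξ : ℝ × ℝ) (t : ℝ), 0 ≤ t →
    Real.exp (-(P.ka * t * eu ξ ^ (2 * P.al))) *
      ∫ s in (0 : ℝ)..t, Real.exp (P.ka * s * eu ξ ^ (2 * P.al)) *
        (80 * (P.N * P.de) * P.ph s * (P.V ξ s * ((1 + nn P.N P.de ξ) ^ 4)⁻¹)) ≤
      400 * (P.N * P.de * P.Ph) * P.W ξ t

/-- NLB: the bilinear estimate. -/
def S_NLB : Prop :=
  ∀ P : Par, P.Ok → ∀ (b c : ℝ × ℝ → ℝ → ℂ) (M M' : ℝ), 0 ≤ M → 0 ≤ M' →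
    (∀ ξ t, 0 ≤ t → ‖b ξ t‖ ≤ M * P.W ξ t) → (∀ ξ t, 0 ≤ t → ‖c ξ t‖ ≤ M' * P.W ξ t) →
    ∀ (ξ : ℝ × ℝ) (t : ℝ), 0 ≤ t →
      Real.exp (-(P.ka * t * eu ξ ^ (2 * P.al))) *
        ‖∫ s in (0 : ℝ)..t, ((Real.exp (P.ka * s * eu ξ ^ (2 * P.al)) : ℝ) : ℂ) *
          cnv kk b c ξ s‖ ≤ 400 * (P.N * P.de * P.Ph) * (M * M') * P.W ξ t

/-- DAT, Step 6. `1 + x ≤ 20 exp (x/20)`. -/
def S_DAT : Prop :=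
  ∀ P : Par, P.Ok → ∀ g : ℝ × ℝ → ℂ,
    (∀ ξ, ‖g ξ‖ ≤ P.w (eu ξ) * Real.exp (-nn P.N P.de ξ)) → ∀ ξ t, 0 ≤ t →
      Real.exp (-(P.ka * t * eu ξ ^ (2 * P.al))) * ‖g ξ‖ ≤ 3200000 * P.W ξ t

/-- WDC. `w r ≤ w 1 (1 + r)` and `ρ ≥ 1/2`. -/
def S_WDC : Prop :=
  ∀ P : Par, P.Ok → ∃ C ε : ℝ, 0 < ε ∧ 0 ≤ C ∧ ∀ ξ t, 0 ≤ t →
    P.W ξ t ≤ C * Real.exp (-(ε * l1 ξ))

/-! ### Part B: existence -/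

/-- IEX. -/
def S_IEX : Prop := ∀ ε : ℝ, 0 < ε → Integrable fun y : ℝ × ℝ => Real.exp (-(ε * l1 y))

/-- CVB. -/
def S_CVB : Prop :=
  ∀ (k : ℝ × ℝ → ℝ × ℝ → ℝ) (b c : ℝ × ℝ → ℝ → ℂ), Ker k → Dec b → Dec c →
    ∃ C ε : ℝ, 0 < ε ∧ 0 ≤ C ∧ ∀ ξ η t, 0 ≤ t →
      ‖((k η (ξ - η) : ℝ) : ℂ) * (b η t * c (ξ - η) t)‖ ≤
        C * Real.exp (-(ε * l1 ξ)) * Real.exp (-(ε * l1 η))

/-- CO0. -/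
def S_CO0 : Prop :=
  ∀ (k : ℝ × ℝ → ℝ × ℝ → ℝ) (b c : ℝ × ℝ → ℝ → ℂ), Ker k → Good 0 b → Good 0 c →
    Good 0 (cnv k b c)

/-- DUH: measurability, continuity and derivative of the Duhamel expression. For the
measurability replace `s` by `max s 0` and use joint measurability of functions continuous in
one variable and measurable in the other one. -/
def S_DUH : Prop :=
  ∀ (κ α : ℝ) (g : ℝ × ℝ → ℂ) (q : ℝ × ℝ → ℝ → ℂ), Measurable g → Mea q →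
    (∀ ξ, ContinuousOn (q ξ) (Ici 0)) →
    Mea (duh κ α g q) ∧ (∀ ξ, ContinuousOn (duh κ α g q ξ) (Ici 0)) ∧
    ∀ ξ t, 0 ≤ t → HasDerivWithinAt (duh κ α g q ξ)
      (-((κ * eu ξ ^ (2 * α) : ℝ) : ℂ) * duh κ α g q ξ t - q ξ t) (Ici 0) t

/-- SYC. -/
def S_SYC : Prop := ∀ b, Sym b → Sym (cnv kk b b)

/-- SYD. -/
def S_SYD : Prop :=
  ∀ (κ α : ℝ) (g : ℝ × ℝ → ℂ) (q : ℝ × ℝ → ℝ → ℂ), (∀ ξ, g (-ξ) = (starRingEnd ℂ) (g ξ)) →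
    Sym q → Sym (duh κ α g q)

/-- CVL. -/
def S_CVL : Prop :=
  ∀ b c : ℝ × ℝ → ℝ → ℂ, Good 0 b → Good 0 c → ∀ ξ t, 0 ≤ t →
    cnv kk b b ξ t - cnv kk c c ξ t =
      cnv kk (fun ξ t => b ξ t - c ξ t) b ξ t + cnv kk c (fun ξ t => b ξ t - c ξ t) ξ t

/-- BAL. -/
def S_BAL : Prop :=
  ∀ P : Par, P.Ok → ∀ (g : ℝ × ℝ → ℂ) (b : ℝ × ℝ → ℝ → ℂ) (R : ℝ), 0 ≤ R →
    (∀ ξ, ‖g ξ‖ ≤ P.w (eu ξ) * Real.exp (-nn P.N P.de ξ)) →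
    (∀ ξ t, 0 ≤ t → ‖b ξ t‖ ≤ R * P.W ξ t) → ∀ ξ t, 0 ≤ t →
      ‖duh P.ka P.al g (cnv kk b b) ξ t‖ ≤
        (3200000 + 400 * (P.N * P.de * P.Ph) * R ^ 2) * P.W ξ t

/-- LIP. -/
def S_LIP : Prop :=
  ∀ P : Par, P.Ok → ∀ (g : ℝ × ℝ → ℂ) (b c : ℝ × ℝ → ℝ → ℂ) (R M : ℝ), 0 ≤ R → 0 ≤ M →
    Good 0 b → Good 0 c →
    (∀ ξ t, 0 ≤ t → ‖b ξ t‖ ≤ R * P.W ξ t) → (∀ ξ t, 0 ≤ t → ‖c ξ t‖ ≤ R * P.W ξ t) →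
    (∀ ξ t, 0 ≤ t → ‖b ξ t - c ξ t‖ ≤ M * P.W ξ t) → ∀ ξ t, 0 ≤ t →
      ‖duh P.ka P.al g (cnv kk b b) ξ t - duh P.ka P.al g (cnv kk c c) ξ t‖ ≤
        800 * (P.N * P.de * P.Ph) * R * M * P.W ξ t

/-- BAN: the contraction principle in weighted form. Take `u 0 = 0`, `u (k+1) = T (u k)`. -/
def S_BAN : Prop :=
  ∀ (W : ℝ × ℝ → ℝ → ℝ) (Adm : (ℝ × ℝ → ℝ → ℂ) → Prop)
    (T : (ℝ × ℝ → ℝ → ℂ) → ℝ × ℝ → ℝ → ℂ) (R : ℝ), 0 ≤ R → (∀ ξ t, 0 ≤ W ξ t) →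
    Adm (fun _ _ => 0) → (∀ b, Adm b → Adm (T b)) →
    (∀ b, Adm b → ∀ ξ t, 0 ≤ t → ‖b ξ t‖ ≤ R * W ξ t) →
    (∀ b c M, Adm b → Adm c → 0 ≤ M → (∀ ξ t, 0 ≤ t → ‖b ξ t - c ξ t‖ ≤ M * W ξ t) →
      ∀ ξ t, 0 ≤ t → ‖T b ξ t - T c ξ t‖ ≤ M / 2 * W ξ t) →
    (∀ (u : ℕ → ℝ × ℝ → ℝ → ℂ) (b : ℝ × ℝ → ℝ → ℂ), (∀ k, Adm (u k)) →
      (∀ k ξ t, 0 ≤ t → ‖u k ξ t - b ξ t‖ ≤ 2 * R * (1 / 2) ^ k * W ξ t) → Adm b) →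
    ∃ b, Adm b ∧ ∀ ξ t, 0 ≤ t → T b ξ t = b ξ t

/-- CLO. -/
def S_CLO : Prop :=
  ∀ P : Par, P.Ok → ∀ (R M : ℝ) (u : ℕ → ℝ × ℝ → ℝ → ℂ) (b : ℝ × ℝ → ℝ → ℂ), 0 ≤ R → 0 ≤ M →
    (∀ k, Good 0 (u k) ∧ Sym (u k) ∧ ∀ ξ t, 0 ≤ t → ‖u k ξ t‖ ≤ R * P.W ξ t) →
    (∀ k ξ t, 0 ≤ t → ‖u k ξ t - b ξ t‖ ≤ M * (1 / 2) ^ k * P.W ξ t) →
    Good 0 b ∧ Sym b ∧ ∀ ξ t, 0 ≤ t → ‖b ξ t‖ ≤ R * P.W ξ t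

/-- EXI, Step 7. -/
def S_EXI : Prop :=
  ∀ P : Par, P.Ok → 8 * (400 * (P.N * P.de * P.Ph)) * 3200000 ≤ 1 → ∀ g : ℝ × ℝ → ℂ,
    Measurable g → (∀ ξ, g (-ξ) = (starRingEnd ℂ) (g ξ)) →
    (∀ ξ, ‖g ξ‖ ≤ P.w (eu ξ) * Real.exp (-nn P.N P.de ξ)) →
    ∃ b, Good 0 b ∧ Sym b ∧ ∀ ξ t, 0 ≤ t → b ξ t = duh P.ka P.al g (cnv kk b b) ξ t

/-! ### Part C: regularity and the equation -/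

/-- GPR. -/
def S_GPR : Prop :=
  (∀ n b, Good (n + 1) b → Good n b) ∧ ∀ n b, Good n b → Good 0 b

/-- GAD. -/
def S_GAD : Prop := ∀ n b c, Good n b → Good n c → Good n fun ξ t => b ξ t + c ξ t

/-- GML. -/
def S_GML : Prop := ∀ n m b, Lin m → Good n b → Good n fun ξ t => m ξ * b ξ t

/-- LMU. -/
def S_LMU : Prop :=
  Lin m1 ∧ Lin m2 ∧ Lin rz1 ∧ Lin rz2 ∧ (∀ z : ℂ, Lin fun _ => z) ∧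
    ∀ κ α : ℝ, 0 < α → α < 1 / 2 → Lin (frl α) ∧
      Lin fun ξ => -((κ * eu ξ ^ (2 * α) : ℝ) : ℂ)

/-- HDI: differentiation under the integral on the closed half line. Use the reflection `refl`
and `hasDerivAt_refl`, `norm_refl_le` of `Pool.Agent.Work.MP_a2fcf1_an_h64`. -/
def S_HDI : Prop :=
  ∀ (g g' : ℝ × ℝ → ℝ → ℂ) (v : ℝ × ℝ → ℝ), Mea g → Mea g' →
    (∀ ξ t, 0 ≤ t → HasDerivWithinAt (g ξ) (g' ξ t) (Ici 0) t) → Integrable v →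
    (∀ ξ t, 0 ≤ t → ‖g' ξ t‖ ≤ v ξ) → (∀ t, 0 ≤ t → Integrable fun ξ => g ξ t) →
    ∀ t, 0 ≤ t → HasDerivWithinAt (fun t => ∫ ξ, g ξ t) (∫ ξ, g' ξ t) (Ici 0) t

/-- GCN. -/
def S_GCN : Prop :=
  ∀ n (k : ℝ × ℝ → ℝ × ℝ → ℝ) (b c : ℝ × ℝ → ℝ → ℂ), Ker k → Good n b → Good n c →
    Good n (cnv k b c)

/-- GSY. -/
def S_GSY : Prop :=
  ∀ (m : ℝ × ℝ → ℂ) (k : ℝ × ℝ → ℝ × ℝ → ℝ) (b : ℝ × ℝ → ℝ → ℂ), Lin m → Ker k → Dec b →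
    Mea b → (∀ ξ t, 0 ≤ t → HasDerivWithinAt (b ξ) (m ξ * b ξ t - cnv k b b ξ t) (Ici 0) t) →
    ∀ n, Good n b

/-- SM0. -/
def S_SM0 : Prop := ∀ b, Good 0 b → ContinuousOn (ser b) Half

/-- SM1: the derivative in space-time. The form `lf` is in
`Pool.Agent.Work.MP_a2fcf1_an_h64`, the analogue for series is `hasFDerivWithinAt_ser` there. -/
def S_SM1 : Prop :=
  ∀ b b' : ℝ × ℝ → ℝ → ℂ, Good 0 b → Good 0 b' →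
    (∀ ξ t, 0 ≤ t → HasDerivWithinAt (b ξ) (b' ξ t) (Ici 0) t) → ∀ p ∈ Half,
      HasFDerivWithinAt (ser b) (lf (ser b' p, ser (fun ξ t => m1 ξ * b ξ t) p,
        ser (fun ξ t => m2 ξ * b ξ t) p)) Half p

/-- SMI. -/
def S_SMI : Prop := ∀ b, (∀ n, Good n b) → ContDiffOn ℝ ∞ (ser b) Half

/-- PRD. -/
def S_PRD : Prop :=
  ∀ (a c : ℝ × ℝ → ℂ) (C ε : ℝ), 0 < ε → Measurable a → Measurable c →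
    (∀ y, ‖a y‖ ≤ C * Real.exp (-(ε * l1 y))) → (∀ y, ‖c y‖ ≤ C * Real.exp (-(ε * l1 y))) →
    ∀ x, FI a x * FI c x = FI (fun ξ => ∫ η, a η * c (ξ - η)) x

/-- SMS. -/
def S_SMS : Prop := ∀ b, Good 0 b → ∀ ξ t, 0 ≤ t → cnv k0 b b ξ t = cnv kk b b ξ t

/-- TRP. -/
def S_TRP : Prop :=
  ∀ b, Good 0 b → ∀ t, 0 ≤ t → ∀ x,
    (-FI (fun y => rz2 y * b y t) x) * FI (fun y => m1 y * b y t) x +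
      FI (fun y => rz1 y * b y t) x * FI (fun y => m2 y * b y t) x =
        FI (fun ξ => cnv k0 b b ξ t) x

/-- DRV. -/
def S_DRV : Prop :=
  ∀ (a : ℝ × ℝ → ℂ) (C ε : ℝ), 0 < ε → Measurable a →
    (∀ y, ‖a y‖ ≤ C * Real.exp (-(ε * l1 y))) → ∀ x : ℝ × ℝ,
      HasDerivAt (fun y => FI a (y, x.2)) (FI (fun ξ => m1 ξ * a ξ) x) x.1 ∧
      HasDerivAt (fun y => FI a (x.1, y)) (FI (fun ξ => m2 ξ * a ξ) x) x.2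

/-- RLT. -/
def S_RLT : Prop :=
  ∀ a : ℝ × ℝ → ℂ, (∀ y, a (-y) = (starRingEnd ℂ) (a y)) → ∀ x, (FI a x).im = 0

/-- MOM. -/
def S_MOM : Prop :=
  ∀ (m : ℕ) (ε : ℝ), 0 < ε → ∃ C : ℝ, ∀ x, 0 ≤ x → (1 + x) ^ m * Real.exp (-(ε * x)) ≤ C

/-- GLR: Steps 8 and 9. -/
def S_GLR : Prop :=
  ∀ (κ α : ℝ) (g : ℝ × ℝ → ℂ) (b : ℝ × ℝ → ℝ → ℂ), 0 < κ → 0 < α → α < 1 / 2 → Measurable g →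
    Good 0 b → Sym b → (∀ ξ t, 0 ≤ t → b ξ t = duh κ α g (cnv kk b b) ξ t) →
    GloballyRegular κ α fun x => (FI g x).re

/-- SYG: the symmetrised datum `(g ξ + conj (g (-ξ))) / 2`. -/
def S_SYG : Prop :=
  ∀ (g : ℝ × ℝ → ℂ) (v : ℝ × ℝ → ℝ), Measurable g → (∀ ξ, ‖g ξ‖ ≤ v ξ) →
    (∀ ξ, v (-ξ) = v ξ) → Integrable v →
    ∃ f : ℝ × ℝ → ℂ, Measurable f ∧ (∀ ξ, ‖f ξ‖ ≤ v ξ) ∧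
      (∀ ξ, f (-ξ) = (starRingEnd ℂ) (f ξ)) ∧ ∀ x, (FI f x).re = (FI g x).re

/-- GEN: the general criterion. -/
def S_GEN : Prop :=
  ∀ α : ℝ, 0 < α → α < 1 / 2 → ∃ c : ℝ, 0 < c ∧ ∀ (κ N δ : ℝ) (w : ℝ → ℝ) (g : ℝ × ℝ → ℂ),
    0 < κ → 0 < N → 0 < δ → QC w → Measurable g →
    (∀ ξ, ‖g ξ‖ ≤ w (eu ξ) * Real.exp (-nn N δ ξ)) → Integrable (JJ α N δ w) →
    N * δ * ∫ y, JJ α N δ w y ≤ c * κ → GloballyRegular κ α fun x => (FI g x).re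

/-! ### Part D: the explicit families -/

/-- I1. Split at `d`: `x^(-p)` for `x ≤ d` and `d² x^(-p-2)` for `x ≥ d`. -/
def S_I1 : Prop :=
  ∀ p d : ℝ, 0 < p → p < 1 → 0 < d →
    Integrable (fun x : ℝ => |x| ^ (-p) * ((1 + |x| / d) ^ 2)⁻¹) ∧
    ∫ x : ℝ, |x| ^ (-p) * ((1 + |x| / d) ^ 2)⁻¹ ≤ 4 * d ^ (1 - p) / (1 - p)

/-- I2. -/
def S_I2 : Prop :=
  ∀ p b : ℝ, 0 < p → 0 < b → Integrable (fun x : ℝ => (|x| + b) ^ (-1 - p)) ∧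
    ∫ x : ℝ, (|x| + b) ^ (-1 - p) = 2 * b ^ (-p) / p

/-- JAA: constant profile. `|y| ≥ (|y₁|+|y₂|)/2`, so `|y|^(-1-2α) ≤ 4 (|y₁|+|y₂|)^(-1-2α)`. -/
def S_JAA : Prop :=
  ∀ α N δ A : ℝ, 0 < α → α < 1 / 2 → 0 < N → 0 < δ → 0 < A →
    QC (fun _ => A / (N * δ)) ∧ Integrable (JJ α N δ fun _ => A / (N * δ)) ∧
    N * δ * ∫ y, JJ α N δ (fun _ => A / (N * δ)) y ≤
      32 / (2 * α * (1 - 2 * α)) * (A * δ ^ (1 - 2 * α))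

/-- JBB: the profile `min 1 (r/N)`. `min 1 (|y|/N) |y|^(-1-2α) ≤ N⁻¹ |y₁|^(-2α)`. -/
def S_JBB : Prop :=
  ∀ α N δ A : ℝ, 0 < α → α < 1 / 2 → 0 < N → 0 < δ → 0 < A →
    QC (fun r => A / (N * δ) * min 1 (r / N)) ∧
    Integrable (JJ α N δ fun r => A / (N * δ) * min 1 (r / N)) ∧
    N * δ * ∫ y, JJ α N δ (fun r => A / (N * δ) * min 1 (r / N)) y ≤
      8 / (1 - 2 * α) * (A * δ * N ^ (-(2 * α)))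

/-- RES: the statement of the hand-in. -/
def S_RES : Prop :=
  ∀ α : ℝ, 0 < α → α < 1 / 2 → ∃ c : ℝ, 0 < c ∧ ∀ (κ N δ : ℝ) (g : ℝ × ℝ → ℂ),
    0 < κ → 0 < N → 0 < δ → Measurable g →
    (∀ w : ℝ → ℝ, QC w → (∀ ξ, ‖g ξ‖ ≤ w (eu ξ) * Real.exp (-nn N δ ξ)) →
      Integrable (JJ α N δ w) → N * δ * ∫ y, JJ α N δ w y ≤ c * κ →
      GloballyRegular κ α fun x => (FI g x).re) ∧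
    (∀ A : ℝ, 0 < A → A * δ ^ (1 - 2 * α) ≤ c * κ →
      (∀ ξ, ‖g ξ‖ ≤ A / (N * δ) * Real.exp (-nn N δ ξ)) →
      GloballyRegular κ α fun x => (FI g x).re) ∧
    (∀ A : ℝ, 0 < A → A * δ ≤ c * κ * N ^ (2 * α) →
      (∀ ξ, ‖g ξ‖ ≤ A / (N * δ) * min 1 (eu ξ / N) * Real.exp (-nn N δ ξ)) →
      GloballyRegular κ α fun x => (FI g x).re)

end Pool.SQW
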